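import Mathlib

set_option autoImplicit false

/-! Bezout's theorem for two coprime polynomials in two variables, with bidegrees. -/

namespace Pool.Agent.M05Full

open MvPolynomial Module

noncomputable section

variable {k : Type*} [Field k]

/-- The monomials of degrees less than `m` and `n`. -/
def bx (m n : ℕ) : Set (Fin 2 →₀ ℕ) := {s | s 0 < m ∧ s 1 < n}

/-- The polynomials of degrees less than `m` and `n`. -/
def Bx (k : Type*) [Field k] (m n : ℕ) : Submodule k (MvPolynomial (Fin 2) k) :=
  restrictSupport k (bx m n)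

private def bxEquiv (m n : ℕ) : bx m n ≃ Fin m × Fin n where
  toFun s := (⟨s.1 0, s.2.1⟩, ⟨s.1 1, s.2.2⟩)
  invFun p := ⟨Finsupp.equivFunOnFinite.symm ![(p.1 : ℕ), (p.2 : ℕ)], by
    simp [bx]⟩
  left_inv s := by
    apply Subtype.ext
    ext i
    fin_cases i <;> simp
  right_inv p := by
    rcases p with ⟨i, j⟩
    simp

instance (m n : ℕ) : Fintype (bx m n) := Fintype.ofEquiv _ (bxEquiv m n).symm

instance (m n : ℕ) : Module.Finite k (Bx k m n) :=
  Module.Finite.of_basis (basisRestrictSupport k (bx m n))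

theorem finrank_Bx (m n : ℕ) : finrank k (Bx k m n) = m * n := by
  rw [Bx, Module.finrank_eq_card_basis (basisRestrictSupport k (bx m n)),
    Fintype.card_congr (bxEquiv m n), Fintype.card_prod, Fintype.card_fin, Fintype.card_fin]

theorem mem_Bx {p : MvPolynomial (Fin 2) k} {m n : ℕ} (hp : p ≠ 0) :
    p ∈ Bx k m n ↔ degreeOf 0 p < m ∧ degreeOf 1 p < n := by
  have h1 : p ∈ Bx k m n ↔ ∀ s ∈ p.support, s 0 < m ∧ s 1 < n := Iff.rfl
  obtain ⟨s0, hs0⟩ := MvPolynomial.support_nonempty.2 hp
  rw [h1]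
  constructor
  · intro h
    have hm : 0 < m := lt_of_le_of_lt (Nat.zero_le _) (h s0 hs0).1
    have hn : 0 < n := lt_of_le_of_lt (Nat.zero_le _) (h s0 hs0).2
    rw [degreeOf_lt_iff hm, degreeOf_lt_iff hn]
    exact ⟨fun s hs => (h s hs).1, fun s hs => (h s hs).2⟩
  · rintro ⟨h2, h3⟩ s hs
    have hm : 0 < m := lt_of_le_of_lt (Nat.zero_le _) h2
    have hn : 0 < n := lt_of_le_of_lt (Nat.zero_le _) h3
    rw [degreeOf_lt_iff hm] at h2
    rw [degreeOf_lt_iff hn] at h3
    exact ⟨h2 s hs, h3 s hs⟩

/-- The multiples of `A` in a box. -/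
private def MA (A : MvPolynomial (Fin 2) k) (m n : ℕ) : Submodule k (MvPolynomial (Fin 2) k) :=
  (Bx k m n).map (LinearMap.mulLeft k A)

private theorem mulLeft_inj {A : MvPolynomial (Fin 2) k} (hA : A ≠ 0) :
    Function.Injective (LinearMap.mulLeft k A) := by
  intro p q h
  exact mul_left_cancel₀ hA h

private instance (A : MvPolynomial (Fin 2) k) (m n : ℕ) : Module.Finite k (MA A m n) := by
  unfold MA
  infer_instance

private theorem finrank_MA {A : MvPolynomial (Fin 2) k} (hA : A ≠ 0) (m n : ℕ) :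
    finrank k (MA A m n) = m * n := by
  rw [← finrank_Bx (k := k) m n]
  exact (LinearEquiv.finrank_eq (Submodule.equivMapOfInjective _ (mulLeft_inj hA) _)).symm

private theorem mem_MA {A p : MvPolynomial (Fin 2) k} {m n : ℕ} :
    p ∈ MA A m n ↔ ∃ u ∈ Bx k m n, A * u = p := Iff.rfl

private theorem MA_le {A : MvPolynomial (Fin 2) k} (hA : A ≠ 0) {m n m' n' : ℕ}
    (hm : degreeOf 0 A + m ≤ m') (hn : degreeOf 1 A + n ≤ n') : MA A m n ≤ Bx k m' n' := by
  rintro p ⟨u, hu, rfl⟩
  change A * u ∈ _
  by_cases hu0 : u = 0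
  · rw [hu0, mul_zero]
    exact Submodule.zero_mem _
  · have hu' := (mem_Bx hu0).1 hu
    rw [mem_Bx (mul_ne_zero hA hu0), degreeOf_mul_eq hA hu0, degreeOf_mul_eq hA hu0]
    omega

private theorem MA_inf {A B : MvPolynomial (Fin 2) k} (hB : B ≠ 0)
    (h : IsRelPrime A B) (M N : ℕ) :
    MA A (degreeOf 0 B + M) (degreeOf 1 B + N) ⊓ MA B (degreeOf 0 A + M) (degreeOf 1 A + N) ≤
      MA (A * B) M N := by
  rintro p ⟨⟨u, hu, rfl⟩, ⟨v, hv, hvp⟩⟩
  have hvp' : B * v = A * u := hvp
  change A * u ∈ _
  have h1 : B ∣ A * u := ⟨v, hvp'.symm⟩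
  have h2 : B ∣ u := h.symm.dvd_of_dvd_mul_left h1
  obtain ⟨w, rfl⟩ := h2
  refine ⟨w, ?_, ?_⟩
  · by_cases hw : w = 0
    · rw [hw]
      exact Submodule.zero_mem _
    · have hu' := (mem_Bx (mul_ne_zero hB hw)).1 hu
      rw [degreeOf_mul_eq hB hw, degreeOf_mul_eq hB hw] at hu'
      change w ∈ Bx k M N
      rw [mem_Bx hw]
      omega
  · change A * B * w = A * (B * w)
    ring

theorem bezout_quot {A B : MvPolynomial (Fin 2) k} (hA : A ≠ 0) (hB : B ≠ 0)
    (h : IsRelPrime A B) :
    Module.Finite k (MvPolynomial (Fin 2) k ⧸ Ideal.span {A, B}) ∧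
    Module.finrank k (MvPolynomial (Fin 2) k ⧸ Ideal.span {A, B}) ≤
      degreeOf 0 A * degreeOf 1 B + degreeOf 1 A * degreeOf 0 B := by
  classical
  set I : Ideal (MvPolynomial (Fin 2) k) := Ideal.span {A, B} with hI
  have hrank : Module.rank k (MvPolynomial (Fin 2) k ⧸ I) ≤
      ((degreeOf 0 A * degreeOf 1 B + degreeOf 1 A * degreeOf 0 B : ℕ) : Cardinal) := by
    refine rank_le fun s hs => ?_
    -- lifts
    have hsurj : ∀ q : MvPolynomial (Fin 2) k ⧸ I, ∃ p, Ideal.Quotient.mk I p = q :=
      Ideal.Quotient.mk_surjective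
    choose g hg using hsurj
    -- a large box
    set M : ℕ := s.sup (fun q => degreeOf 0 (g q)) + 1 with hM
    set N : ℕ := s.sup (fun q => degreeOf 1 (g q)) + 1 with hN
    set m : ℕ := degreeOf 0 A + degreeOf 0 B + M with hm
    set n : ℕ := degreeOf 1 A + degreeOf 1 B + N with hn
    let f : Bx k m n →ₗ[k] (MvPolynomial (Fin 2) k ⧸ I) :=
      (Ideal.Quotient.mkₐ k I).toLinearMap.domRestrict (Bx k m n)
    have hf := LinearMap.finrank_range_add_finrank_ker f
    rw [finrank_Bx] at hf
    -- the kernel is large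
    let S := MA A (degreeOf 0 B + M) (degreeOf 1 B + N)
    let T := MA B (degreeOf 0 A + M) (degreeOf 1 A + N)
    have hSI : ∀ p ∈ S ⊔ T, p ∈ I := by
      intro p hp
      obtain ⟨p1, ⟨u, _, rfl⟩, p2, ⟨v, _, rfl⟩, rfl⟩ := Submodule.mem_sup.1 hp
      refine Ideal.add_mem _ ?_ ?_
      · exact Ideal.mul_mem_right _ _ (Ideal.subset_span (by simp))
      · exact Ideal.mul_mem_right _ _ (Ideal.subset_span (by simp))
    have hSB : S ⊔ T ≤ Bx k m n := by
      refine sup_le (MA_le hA ?_ ?_) (MA_le hB ?_ ?_) <;> omega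
    have hdim := Submodule.finrank_sup_add_finrank_inf_eq S T
    have hinf : finrank k (S ⊓ T : Submodule k (MvPolynomial (Fin 2) k)) ≤ M * N := by
      refine le_trans (Submodule.finrank_mono (MA_inf hB h M N)) ?_
      rw [finrank_MA (mul_ne_zero hA hB)]
    have hS : finrank k S = (degreeOf 0 B + M) * (degreeOf 1 B + N) := finrank_MA hA _ _
    have hT : finrank k T = (degreeOf 0 A + M) * (degreeOf 1 A + N) := finrank_MA hB _ _
    have hker : finrank k (S ⊔ T : Submodule k (MvPolynomial (Fin 2) k)) ≤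
        finrank k (LinearMap.ker f) := by
      rw [← (Submodule.comapSubtypeEquivOfLe hSB).finrank_eq]
      refine Submodule.finrank_mono ?_
      intro p hp
      rw [LinearMap.mem_ker]
      change Ideal.Quotient.mk I p.1 = 0
      exact Ideal.Quotient.eq_zero_iff_mem.2 (hSI _ hp)
    -- the range is large
    have hrange : s.card ≤ finrank k (LinearMap.range f) := by
      have hle : Submodule.span k (s : Set (MvPolynomial (Fin 2) k ⧸ I)) ≤ LinearMap.range f := by
        rw [Submodule.span_le]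
        intro q hq
        have hgB : g q ∈ Bx k m n := by
          by_cases h0 : g q = 0
          · rw [h0]
            exact Submodule.zero_mem _
          · rw [mem_Bx h0]
            have h1 : degreeOf 0 (g q) ≤ s.sup (fun q => degreeOf 0 (g q)) :=
              Finset.le_sup (f := fun q => degreeOf 0 (g q)) hq
            have h2 : degreeOf 1 (g q) ≤ s.sup (fun q => degreeOf 1 (g q)) :=
              Finset.le_sup (f := fun q => degreeOf 1 (g q)) hq
            omega
        exact ⟨⟨g q, hgB⟩, hg q⟩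
      have h3 := Submodule.finrank_mono hle
      rw [finrank_span_finset_eq_card hs] at h3
      exact h3
    have key : (degreeOf 0 B + M) * (degreeOf 1 B + N) + (degreeOf 0 A + M) * (degreeOf 1 A + N) +
        (degreeOf 0 A * degreeOf 1 B + degreeOf 1 A * degreeOf 0 B) = m * n + M * N := by
      rw [hm, hn]
      ring
    rw [hS, hT] at hdim
    omega
  have hfin : Module.Finite k (MvPolynomial (Fin 2) k ⧸ I) := by
    rw [← Module.rank_lt_aleph0_iff]
    exact lt_of_le_of_lt hrank (Cardinal.natCast_lt_aleph0)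
  exact ⟨hfin, Module.finrank_le_of_rank_le hrank⟩

theorem bezout {A B : MvPolynomial (Fin 2) k} (hA : A ≠ 0) (hB : B ≠ 0)
    (h : IsRelPrime A B) {E : Type*} [Field E] [Algebra k E] (P : Fin 2 → E)
    (hPA : aeval P A = 0) (hPB : aeval P B = 0) :
    FiniteDimensional k (IntermediateField.adjoin k (Set.range P)) ∧
    Module.finrank k (IntermediateField.adjoin k (Set.range P)) ≤
      degreeOf 0 A * degreeOf 1 B + degreeOf 1 A * degreeOf 0 B := by
  obtain ⟨hfin, hrank⟩ := bezout_quot hA hB h
  have hI : ∀ p ∈ Ideal.span {A, B}, aeval P p = 0 := by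
    intro p hp
    obtain ⟨u, v, rfl⟩ := Ideal.mem_span_pair.1 hp
    rw [map_add, map_mul, map_mul, hPA, hPB, mul_zero, mul_zero, add_zero]
  let f : (MvPolynomial (Fin 2) k ⧸ Ideal.span {A, B}) →ₐ[k] E :=
    Ideal.Quotient.liftₐ _ (aeval P) hI
  have hrange : f.range = Algebra.adjoin k (Set.range P) := by
    rw [Algebra.adjoin_range_eq_range_aeval]
    ext z
    constructor
    · rintro ⟨q, rfl⟩
      obtain ⟨p, rfl⟩ := Ideal.Quotient.mk_surjective q
      exact ⟨p, rfl⟩
    · rintro ⟨p, rfl⟩
      exact ⟨Ideal.Quotient.mk _ p, rfl⟩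
  have hfin2 : Module.Finite k f.range :=
    Module.Finite.of_surjective f.rangeRestrict.toLinearMap f.rangeRestrict_surjective
  have hle : finrank k f.range ≤ finrank k (MvPolynomial (Fin 2) k ⧸ Ideal.span {A, B}) :=
    LinearMap.finrank_le_finrank_of_surjective (f := f.rangeRestrict.toLinearMap)
      f.rangeRestrict_surjective
  rw [hrange] at hfin2 hle
  have hint : ∀ z ∈ Set.range P, IsIntegral k z := by
    intro z hz
    have h1 : IsIntegral k (⟨z, Algebra.subset_adjoin hz⟩ : Algebra.adjoin k (Set.range P)) :=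
      Algebra.IsIntegral.isIntegral _
    exact h1.map (Algebra.adjoin k (Set.range P)).val
  have hsub : (IntermediateField.adjoin k (Set.range P)).toSubalgebra =
      Algebra.adjoin k (Set.range P) :=
    IntermediateField.adjoin_toSubalgebra_of_isAlgebraic fun z hz => (hint z hz).isAlgebraic
  have hfin3 : Module.Finite k (IntermediateField.adjoin k (Set.range P)).toSubalgebra := by
    rw [hsub]
    exact hfin2
  refine ⟨hfin3, ?_⟩
  change finrank k (IntermediateField.adjoin k (Set.range P)).toSubalgebra ≤ _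
  rw [hsub]
  exact hle.trans hrank

/-- The number of common zeros in an extension. -/
theorem bezout_card {A B : MvPolynomial (Fin 2) k} (hA : A ≠ 0) (hB : B ≠ 0)
    (h : IsRelPrime A B) {L : Type*} [Field L] [Algebra k L] (S : Finset (Fin 2 → L))
    (hSA : ∀ P ∈ S, aeval P A = 0) (hSB : ∀ P ∈ S, aeval P B = 0) :
    S.card ≤ degreeOf 0 A * degreeOf 1 B + degreeOf 1 A * degreeOf 0 B := by
  classical
  obtain ⟨hfin, hrank⟩ := bezout_quot hA hB h
  refine le_trans ?_ hrank
  set I : Ideal (MvPolynomial (Fin 2) k) := Ideal.span {A, B} with hI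
  have hIP : ∀ P ∈ S, ∀ p ∈ I, aeval P p = 0 := by
    intro P hP p hp
    obtain ⟨u, v, rfl⟩ := Ideal.mem_span_pair.1 hp
    rw [map_add, map_mul, map_mul, hSA P hP, hSB P hP, mul_zero, mul_zero, add_zero]
  let ev : (MvPolynomial (Fin 2) k ⧸ I) →ₗ[k] (S → L) := LinearMap.pi fun P =>
    (Ideal.Quotient.liftₐ I (aeval P.1) (hIP P.1 P.2)).toLinearMap
  have hev : ∀ (p : MvPolynomial (Fin 2) k) (P : S), ev (Ideal.Quotient.mk I p) P = aeval P.1 p :=
    fun p P => rfl
  -- the image spans
  have hspan : Submodule.span L (Set.range ev) = ⊤ := by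
    -- polynomials over `L`
    have hmem : ∀ q : MvPolynomial (Fin 2) L,
        (fun P : S => MvPolynomial.eval P.1 q) ∈ Submodule.span L (Set.range ev) := by
      intro q
      induction q using MvPolynomial.induction_on' with
      | monomial u c =>
        have h1 : (fun P : S => MvPolynomial.eval P.1 (monomial u c)) =
            c • ev (Ideal.Quotient.mk I (monomial u 1)) := by
          funext P
          rw [Pi.smul_apply, hev, aeval_monomial, eval_monomial, map_one, one_mul, smul_eq_mul]
        rw [h1]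
        exact Submodule.smul_mem _ _ (Submodule.subset_span ⟨_, rfl⟩)
      | add p q hp hq =>
        have h1 : (fun P : S => MvPolynomial.eval P.1 (p + q)) =
            (fun P : S => MvPolynomial.eval P.1 p) + fun P : S => MvPolynomial.eval P.1 q := by
          funext P
          rw [Pi.add_apply, map_add]
        rw [h1]
        exact Submodule.add_mem _ hp hq
    rw [eq_top_iff]
    rintro v -
    -- interpolation
    have hint : ∀ P0 : S, ∃ q : MvPolynomial (Fin 2) L, MvPolynomial.eval P0.1 q = 1 ∧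
        ∀ P : S, P ≠ P0 → MvPolynomial.eval P.1 q = 0 := by
      intro P0
      have hsep : ∀ P : S, P ≠ P0 → ∃ q : MvPolynomial (Fin 2) L,
          MvPolynomial.eval P0.1 q = 1 ∧ MvPolynomial.eval P.1 q = 0 := by
        intro P hP
        have : ∃ i, P.1 i ≠ P0.1 i := by
          by_contra hcon
          push Not at hcon
          exact hP (Subtype.ext (funext hcon))
        obtain ⟨i, hi⟩ := this
        have hi' : P0.1 i - P.1 i ≠ 0 := sub_ne_zero.2 hi.symm
        refine ⟨C (P0.1 i - P.1 i)⁻¹ * (X i - C (P.1 i)), ?_, ?_⟩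
        · rw [map_mul, eval_C, map_sub, eval_X, eval_C, inv_mul_cancel₀ hi']
        · rw [map_mul, eval_C, map_sub, eval_X, eval_C, sub_self, mul_zero]
      choose q hq1 hq2 using hsep
      refine ⟨∏ P : S, if hP : P ≠ P0 then q P hP else 1, ?_, ?_⟩
      · rw [map_prod]
        refine Finset.prod_eq_one fun P _ => ?_
        split_ifs with hP
        · exact hq1 P hP
        · exact map_one _
      · intro P hP
        rw [map_prod]
        refine Finset.prod_eq_zero (Finset.mem_univ P) ?_
        rw [dif_pos hP]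
        exact hq2 P hP
    choose q hq1 hq2 using hint
    have hv : v = fun P : S => MvPolynomial.eval P.1 (∑ P0 : S, C (v P0) * q P0) := by
      funext P
      rw [map_sum, Finset.sum_eq_single P]
      · rw [map_mul, eval_C, hq1, mul_one]
      · intro P0 _ hP0
        rw [map_mul, hq2 P0 P (Ne.symm hP0), mul_zero]
      · intro hP
        exact absurd (Finset.mem_univ _) hP
    rw [hv]
    exact hmem _
  let b := Module.finBasis k (MvPolynomial (Fin 2) k ⧸ I)
  have hspan2 : Submodule.span L (Set.range (ev ∘ b)) = ⊤ := by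
    rw [eq_top_iff, ← hspan, Submodule.span_le]
    rintro _ ⟨q, rfl⟩
    rw [← b.sum_repr q, map_sum]
    refine Submodule.sum_mem _ fun i _ => ?_
    rw [map_smul, ← algebraMap_smul L]
    exact Submodule.smul_mem _ _ (Submodule.subset_span ⟨i, rfl⟩)
  have h1 := finrank_range_le_card (R := L) (ev ∘ b)
  rw [Set.finrank, hspan2, finrank_top, Module.finrank_fintype_fun_eq_card, Fintype.card_coe,
    Fintype.card_fin] at h1
  exact h1

private theorem no_zeros {A B : MvPolynomial (Fin 2) k} (hA : A = 0) (h : IsRelPrime A B)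
    {L : Type*} [Field L] [Algebra k L] (P : Fin 2 → L) (hP : aeval P B = 0) : False := by
  rw [hA] at h
  have h1 : IsUnit B := h (dvd_zero B) dvd_rfl
  have h2 := h1.map (aeval P : MvPolynomial (Fin 2) k →ₐ[k] L)
  rw [hP] at h2
  exact not_isUnit_zero h2

/-- Bezout's theorem with upper bounds for the degrees. -/
theorem bezout_card' {A B : MvPolynomial (Fin 2) k} (h : IsRelPrime A B) {L : Type*} [Field L]
    [Algebra k L] {a1 a2 b1 b2 : ℕ} (ha1 : degreeOf 0 A ≤ a1) (ha2 : degreeOf 1 A ≤ a2)
    (hb1 : degreeOf 0 B ≤ b1) (hb2 : degreeOf 1 B ≤ b2) (S : Finset (Fin 2 → L))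
    (hSA : ∀ P ∈ S, aeval P A = 0) (hSB : ∀ P ∈ S, aeval P B = 0) :
    S.card ≤ a1 * b2 + a2 * b1 := by
  by_cases hA : A = 0
  · rw [Finset.card_eq_zero.2 (Finset.eq_empty_of_forall_notMem fun P hP =>
      no_zeros hA h P (hSB P hP))]
    exact Nat.zero_le _
  by_cases hB : B = 0
  · rw [Finset.card_eq_zero.2 (Finset.eq_empty_of_forall_notMem fun P hP =>
      no_zeros hB h.symm P (hSA P hP))]
    exact Nat.zero_le _
  exact (bezout_card hA hB h S hSA hSB).trans
    (Nat.add_le_add (Nat.mul_le_mul ha1 hb2) (Nat.mul_le_mul ha2 hb1))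

end

end Pool.Agent.M05Full
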