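import Pool.Agent.M05Full.Count

set_option autoImplicit false

/-! Two small independent relations. -/

namespace Pool.Agent.M05Full

open Pool.Agent.CITLines NumberField Height Real Module Pool.Agent.MinHt

/-- The pigeonhole principle for boxes. -/
private theorem box {K : Type} [Field K] (z : Fin 5 → K) (hz : ∀ i, z i ≠ 0) {A : ℝ}
    (h : ∀ N : ℕ, 0 < N →
      (Set.ncard {g : K | ∃ l : Fin 5 → ℤ, (∀ i, |l i| ≤ N) ∧ mon z l = g} : ℝ) ≤ A * N ^ 2)
    (b : Fin 5 → ℕ) (N : ℕ) (hN : 0 < N) (hb : ∀ i, b i ≤ N)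
    (hbig : A * N ^ 2 < ((∏ i, (b i + 1) : ℕ) : ℝ)) :
    ∃ d : Fin 5 → ℤ, d ≠ 0 ∧ mon z d = 1 ∧ ∀ i, |d i| ≤ b i := by
  classical
  set S : Finset (Fin 5 → ℤ) := Fintype.piFinset fun i => Finset.Icc (0 : ℤ) (b i) with hS
  have hScard : S.card = ∏ i, (b i + 1) := by
    rw [hS, Fintype.card_piFinset]
    refine Finset.prod_congr rfl fun i _ => ?_
    rw [Int.card_Icc]
    omega
  set G : Set K := {g : K | ∃ l : Fin 5 → ℤ, (∀ i, |l i| ≤ N) ∧ mon z l = g} with hG
  have hGfin : G.Finite := by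
    have : G ⊆ ((Fintype.piFinset fun _ : Fin 5 => Finset.Icc (-(N : ℤ)) N).image
        (fun l => mon z l) : Finset K) := by
      rintro g ⟨l, hl, rfl⟩
      rw [Finset.coe_image]
      refine ⟨l, ?_, rfl⟩
      rw [Finset.mem_coe, Fintype.mem_piFinset]
      intro i
      rw [Finset.mem_Icc]
      exact abs_le.1 (hl i)
    exact (Finset.finite_toSet _).subset this
  have himg : (S.image (fun l => mon z l)).card ≤ G.ncard := by
    rw [← Set.ncard_coe_finset]
    refine Set.ncard_le_ncard ?_ hGfin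
    rw [Finset.coe_image]
    rintro _ ⟨l, hl, rfl⟩
    rw [Finset.mem_coe, hS, Fintype.mem_piFinset] at hl
    refine ⟨l, fun i => ?_, rfl⟩
    have := Finset.mem_Icc.1 (hl i)
    have hbi : (b i : ℤ) ≤ N := by exact_mod_cast hb i
    rw [abs_of_nonneg this.1]
    exact this.2.trans hbi
  have hlt : (S.image (fun l => mon z l)).card < S.card := by
    have h1 := h N hN
    have h2 : ((S.image (fun l => mon z l)).card : ℝ) ≤ (G.ncard : ℝ) := by exact_mod_cast himg
    have h3 : ((S.image (fun l => mon z l)).card : ℝ) < (S.card : ℝ) := by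
      rw [hScard]
      exact lt_of_le_of_lt (h2.trans h1) hbig
    exact_mod_cast h3
  obtain ⟨v, hv, w, hw, hvw, he⟩ := Finset.exists_ne_map_eq_of_card_lt_of_maps_to hlt
    (fun l hl => Finset.mem_image_of_mem _ hl)
  have hmw : mon z w ≠ 0 := by
    unfold mon
    exact Finset.prod_ne_zero_iff.2 fun i _ => zpow_ne_zero _ (hz i)
  refine ⟨v - w, sub_ne_zero.2 hvw, ?_, fun i => ?_⟩
  · have : mon z (v - w) = mon z v / mon z w := by
      unfold mon
      rw [← Finset.prod_div_distrib]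
      refine Finset.prod_congr rfl fun i _ => ?_
      rw [Pi.sub_apply, zpow_sub₀ (hz i)]
    rw [this, he, div_self hmw]
  · rw [hS, Fintype.mem_piFinset] at hv hw
    have h1 := Finset.mem_Icc.1 (hv i)
    have h2 := Finset.mem_Icc.1 (hw i)
    rw [Pi.sub_apply, abs_le]
    constructor <;> linarith [h1.1, h1.2, h2.1, h2.2]

/-- The pigeonhole principle. -/
theorem two_rel_aux {K : Type} [Field K] (z : Fin 5 → K) (hz : ∀ i, z i ≠ 0) {A : ℝ} (hA : 1 ≤ A)
    (h : ∀ N : ℕ, 0 < N →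
      (Set.ncard {g : K | ∃ l : Fin 5 → ℤ, (∀ i, |l i| ≤ N) ∧ mon z l = g} : ℝ) ≤ A * N ^ 2) :
    ∃ (l m : Fin 5 → ℤ) (M N : ℕ), Ind2 l m ∧ mon z l = 1 ∧ mon z m = 1 ∧ (∀ i, |l i| ≤ M) ∧
      (∀ i, |m i| ≤ N) ∧ ((M : ℝ) * N) ^ 3 ≤ 1000 * A ^ 2 := by
  classical
  -- the least `N1` with `A ≤ N1 ^ 3`
  have hex : ∃ n : ℕ, A ≤ (n : ℝ) ^ 3 := by
    obtain ⟨n, hn⟩ := exists_nat_ge A
    refine ⟨n, hn.trans ?_⟩
    have h1 : (1 : ℝ) ≤ n := hA.trans hn
    nlinarith [mul_self_nonneg ((n : ℝ) - 1), pow_pos (lt_of_lt_of_le one_pos h1) 2]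
  set N1 := Nat.find hex with hN1
  have hN1a : A ≤ (N1 : ℝ) ^ 3 := Nat.find_spec hex
  have hN1pos : 0 < N1 := by
    rcases Nat.eq_zero_or_pos N1 with h0 | h0
    · rw [h0] at hN1a
      norm_num at hN1a
      linarith
    · exact h0
  have hN1b : (N1 : ℝ) ^ 3 ≤ 8 * A := by
    rcases Nat.lt_or_ge N1 2 with h2 | h2
    · have : N1 = 1 := by omega
      rw [this]
      norm_num
      linarith
    · have h3 := Nat.find_min hex (m := N1 - 1) (by omega)
      push Not at h3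
      have h4 : (N1 : ℝ) ≤ 2 * ((N1 - 1 : ℕ) : ℝ) := by
        have : N1 ≤ 2 * (N1 - 1) := by omega
        exact_mod_cast this
      calc (N1 : ℝ) ^ 3 ≤ (2 * ((N1 - 1 : ℕ) : ℝ)) ^ 3 := pow_le_pow_left₀ (Nat.cast_nonneg _) h4 3
        _ = 8 * ((N1 - 1 : ℕ) : ℝ) ^ 3 := by ring
        _ ≤ 8 * A := by linarith
  -- relations
  have hrel : ∃ M : ℕ, ∃ d : Fin 5 → ℤ, d ≠ 0 ∧ mon z d = 1 ∧ ∀ i, |d i| ≤ M := by
    obtain ⟨d, h1, h2, h3⟩ := box z hz h (fun _ => N1) N1 hN1pos (fun _ => le_rfl) (by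
      rw [Finset.prod_const, Finset.card_univ, Fintype.card_fin]
      push_cast
      have h1 : (0 : ℝ) < N1 := by exact_mod_cast hN1pos
      calc A * (N1 : ℝ) ^ 2 ≤ (N1 : ℝ) ^ 3 * (N1 : ℝ) ^ 2 :=
            mul_le_mul_of_nonneg_right hN1a (by positivity)
        _ = (N1 : ℝ) ^ 5 := by ring
        _ < ((N1 : ℝ) + 1) ^ 5 := pow_lt_pow_left₀ (by linarith) h1.le (by norm_num))
    exact ⟨N1, d, h1, h2, h3⟩
  set M := Nat.find hrel with hM
  have hMN1 : M ≤ N1 := by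
    apply Nat.find_min'
    obtain ⟨d, h1, h2, h3⟩ := box z hz h (fun _ => N1) N1 hN1pos (fun _ => le_rfl) (by
      rw [Finset.prod_const, Finset.card_univ, Fintype.card_fin]
      push_cast
      have h1 : (0 : ℝ) < N1 := by exact_mod_cast hN1pos
      calc A * (N1 : ℝ) ^ 2 ≤ (N1 : ℝ) ^ 3 * (N1 : ℝ) ^ 2 :=
            mul_le_mul_of_nonneg_right hN1a (by positivity)
        _ = (N1 : ℝ) ^ 5 := by ring
        _ < ((N1 : ℝ) + 1) ^ 5 := pow_lt_pow_left₀ (by linarith) h1.le (by norm_num))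
    exact ⟨d, h1, h2, h3⟩
  obtain ⟨l, hl0, hl1, hlM⟩ := Nat.find_spec hrel
  rw [← hM] at hlM
  have hmin : ∀ d : Fin 5 → ℤ, d ≠ 0 → mon z d = 1 → ¬ ∀ i, |d i| < M := by
    intro d h1 h2 h3
    have hMpos : 0 < M := by
      have := h3 0
      have h4 := abs_nonneg (d 0)
      omega
    refine Nat.find_min hrel (m := M - 1) (by omega) ⟨d, h1, h2, fun i => ?_⟩
    have := h3 i
    omega
  have hMpos : 0 < M := by
    rcases Nat.eq_zero_or_pos M with h0 | h0
    · exfalso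
      apply hl0
      funext i
      have := hlM i
      rw [h0] at this
      simpa using this
    · exact h0
  obtain ⟨i0, hi0⟩ : ∃ i0, |l i0| = M := by
    by_contra hc
    push Not at hc
    exact hmin l hl0 hl1 fun i => lt_of_le_of_ne (hlM i) (hc i)
  have hM3 : (M : ℝ) ^ 3 ≤ 8 * A := by
    refine le_trans (pow_le_pow_left₀ (Nat.cast_nonneg _) ?_ 3) hN1b
    exact_mod_cast hMN1
  have hMR : (1 : ℝ) ≤ M := by exact_mod_cast hMpos
  set r := Real.sqrt (A / M) with hr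
  have hr2 : r ^ 2 * M = A := by
    rw [hr, Real.sq_sqrt (by positivity)]
    field_simp
  have hr0 : 0 ≤ r := Real.sqrt_nonneg _
  have hMr : (M : ℝ) ≤ 3 * r := by
    have h1 : (M : ℝ) ^ 2 * M ≤ 8 * r ^ 2 * M := by
      calc (M : ℝ) ^ 2 * M = (M : ℝ) ^ 3 := by ring
        _ ≤ 8 * A := hM3
        _ = _ := by rw [← hr2]; ring
    have h2 : (M : ℝ) ^ 2 ≤ 8 * r ^ 2 := le_of_mul_le_mul_right h1 (by linarith)
    nlinarith
  set c := Nat.ceil r with hc
  have hc1 : r ≤ c := Nat.le_ceil r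
  have hc2 : (c : ℝ) ≤ r + 1 := (Nat.ceil_lt_add_one hr0).le
  set N' := max M c with hN'
  have hN'pos : 0 < N' := lt_of_lt_of_le hMpos (le_max_left _ _)
  have hN'r : r ≤ (N' : ℝ) := hc1.trans (by exact_mod_cast le_max_right M c)
  obtain ⟨m, hm0, hm1, hmb⟩ := box z hz h (fun i => if i = i0 then M - 1 else N') N' hN'pos
    (fun i => by
      have : M ≤ N' := le_max_left _ _
      split_ifs
      · omega
      · exact le_rfl) (by
      have hprod : (∏ i : Fin 5, ((if i = i0 then M - 1 else N') + 1)) = M * (N' + 1) ^ 4 := by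
        rw [← Finset.mul_prod_erase Finset.univ _ (Finset.mem_univ i0), if_pos rfl]
        have h1 : ∏ i ∈ Finset.univ.erase i0, ((if i = i0 then M - 1 else N') + 1) =
            ∏ i ∈ Finset.univ.erase i0, (N' + 1) :=
          Finset.prod_congr rfl fun i hi => by rw [if_neg (Finset.ne_of_mem_erase hi)]
        rw [h1, Finset.prod_const, Finset.card_erase_of_mem (Finset.mem_univ _),
          Finset.card_univ, Fintype.card_fin]
        congr 1
        omega
      rw [hprod]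
      push_cast
      have h1 : (0 : ℝ) < N' := by exact_mod_cast hN'pos
      have h2 : A ≤ M * (N' : ℝ) ^ 2 := by
        rw [← hr2, mul_comm]
        exact mul_le_mul_of_nonneg_left (pow_le_pow_left₀ hr0 hN'r 2) (by linarith)
      calc A * (N' : ℝ) ^ 2 ≤ (M * (N' : ℝ) ^ 2) * (N' : ℝ) ^ 2 :=
            mul_le_mul_of_nonneg_right h2 (by positivity)
        _ = M * (N' : ℝ) ^ 4 := by ring
        _ < M * ((N' : ℝ) + 1) ^ 4 :=
            mul_lt_mul_of_pos_left (pow_lt_pow_left₀ (by linarith) h1.le (by norm_num))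
              (by linarith))
  refine ⟨l, m, M, N', ?_, hl1, hm1, hlM, ?_, ?_⟩
  · intro s t hst
    have hmi0 : |m i0| < M := by
      have := hmb i0
      rw [if_pos rfl] at this
      omega
    have hcoord : ∀ i, |s| * |l i| = |t| * |m i| := by
      intro i
      have h1 := congrFun hst i
      simp only [Pi.add_apply, Pi.smul_apply, smul_eq_mul, Pi.zero_apply] at h1
      rw [← abs_mul, ← abs_mul, show s * l i = -(t * m i) by linarith, abs_neg]
    have ht : t = 0 := by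
      by_contra ht
      have htp : 0 < |t| := abs_pos.2 ht
      have h1 := hcoord i0
      rw [hi0] at h1
      have h2 : |s| * M < |t| * M := by
        rw [h1]
        exact mul_lt_mul_of_pos_left hmi0 htp
      have hst' : |s| < |t| := lt_of_mul_lt_mul_right h2 (by positivity)
      refine hmin m hm0 hm1 fun i => ?_
      have h3 := hcoord i
      have h4 : |t| * |m i| < |t| * M := by
        rw [← h3]
        calc |s| * |l i| ≤ |s| * M := mul_le_mul_of_nonneg_left (hlM i) (abs_nonneg _)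
          _ < |t| * M := h2
      exact lt_of_mul_lt_mul_left h4 (abs_nonneg _)
    refine ⟨?_, ht⟩
    by_contra hs
    apply hl0
    funext i
    have h1 := hcoord i
    rw [ht, abs_zero, zero_mul] at h1
    rcases mul_eq_zero.1 h1 with h2 | h2
    · exact absurd (abs_eq_zero.1 h2) hs
    · exact abs_eq_zero.1 h2
  · intro i
    have h1 := hmb i
    have h2 : M ≤ N' := le_max_left _ _
    split_ifs at h1
    · omega
    · exact h1
  · rcases le_total c M with hcM | hcM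
    · have : N' = M := max_eq_left hcM
      rw [this]
      calc ((M : ℝ) * M) ^ 3 = ((M : ℝ) ^ 3) ^ 2 := by ring
        _ ≤ (8 * A) ^ 2 := pow_le_pow_left₀ (by positivity) hM3 2
        _ ≤ 1000 * A ^ 2 := by nlinarith [sq_nonneg A]
    · have : N' = c := max_eq_right hcM
      rw [this]
      have hc4 : (c : ℝ) ≤ 4 * r := by linarith
      have h5 : (M : ℝ) * c ≤ 4 * (M * r) := by nlinarith
      calc ((M : ℝ) * c) ^ 3 ≤ (4 * (M * r)) ^ 3 := pow_le_pow_left₀ (by positivity) h5 3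
        _ = 64 * M ^ 2 * r ^ 3 * M := by ring
        _ ≤ 64 * M ^ 2 * r ^ 3 * (3 * r) := mul_le_mul_of_nonneg_left hMr (by positivity)
        _ = 192 * (r ^ 2 * M) ^ 2 := by ring
        _ = 192 * A ^ 2 := by rw [hr2]
        _ ≤ 1000 * A ^ 2 := by nlinarith [sq_nonneg A]

theorem two_rel (leh : Leh2) {H : ℝ} (hH : 0 < H) : ∃ C : ℝ, 0 < C ∧
    ∀ (K : Type) [Field K] [NumberField K] (z : Fin 5 → K), (∀ i, z i ≠ 0) → RankTwo z →
      (∀ i, logHeight₁ (z i) ≤ H * finrank ℚ K) →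
      ∃ (l m : Fin 5 → ℤ) (M N : ℕ), Ind2 l m ∧ mon z l = 1 ∧ mon z m = 1 ∧ (∀ i, |l i| ≤ M) ∧
      (∀ i, |m i| ≤ N) ∧ ((M : ℝ) * N) ^ 3 ≤ C * (finrank ℚ K : ℝ) ^ (5 / 2 : ℝ) := by
  obtain ⟨C, hC, hcount⟩ := count leh (ε := 1 / 4) (by norm_num) hH
  refine ⟨1000 * (max 1 C) ^ 2, by positivity, fun K _ _ z hz hr2 hht => ?_⟩
  have hD : (1 : ℝ) ≤ (finrank ℚ K : ℝ) := by
    have : 0 < finrank ℚ K := finrank_pos
    exact_mod_cast this
  set D : ℝ := (finrank ℚ K : ℝ) with hDdef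
  have hDp : (1 : ℝ) ≤ D ^ (1 + 1 / 4 : ℝ) := Real.one_le_rpow hD (by norm_num)
  obtain ⟨l, m, M, N, h1, h2, h3, h4, h5, h6⟩ := two_rel_aux z hz
    (A := max 1 C * D ^ (1 + 1 / 4 : ℝ)) (by
      have := le_max_left (1 : ℝ) C
      nlinarith) (fun N hN => by
      refine (hcount K z hz hr2 hht N hN).trans ?_
      have h7 : C ≤ max 1 C := le_max_right _ _
      have h8 : (0 : ℝ) ≤ (N : ℝ) ^ 2 * D ^ (1 + 1 / 4 : ℝ) := by positivity
      calc C * (N : ℝ) ^ 2 * D ^ (1 + 1 / 4 : ℝ) = C * ((N : ℝ) ^ 2 * D ^ (1 + 1 / 4 : ℝ)) := by ring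
        _ ≤ max 1 C * ((N : ℝ) ^ 2 * D ^ (1 + 1 / 4 : ℝ)) := mul_le_mul_of_nonneg_right h7 h8
        _ = _ := by ring)
  refine ⟨l, m, M, N, h1, h2, h3, h4, h5, h6.trans (le_of_eq ?_)⟩
  have h7 : (D ^ (1 + 1 / 4 : ℝ)) ^ 2 = D ^ (5 / 2 : ℝ) := by
    rw [← Real.rpow_natCast, ← Real.rpow_mul (by linarith)]
    norm_num
  rw [mul_pow, h7]
  ring

end Pool.Agent.M05Full
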