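import Pool.Agent.M05Full.Curve
import Pool.Agent.M05Full.TwoRel
import Pool.Agent.MinHt.Deg

set_option autoImplicit false

/-! Algebraic points: a relation of the list or bounded degree. -/

namespace Pool.Agent.M05Full

open MvPolynomial Pool.Agent.CITLines NumberField Height Real Module Pool.Agent.MinHt

section poly

variable {k : Type} [Field k]

theorem ff_eval {F : Type} [Field F] [Algebra k F] (x y : F) (i : Fin 5) :
    aeval ![x, y] (ff k i) = pt x y i := by
  fin_cases i <;> simp [ff, pt]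

private theorem GG_eval {F : Type} [Field F] [Algebra k F] (x y : F) (l : Fin 5 → ℤ) (c : k) :
    aeval ![x, y] (GG l c) = ∏ i, pt x y i ^ (l i).toNat -
      algebraMap k F c * ∏ i, pt x y i ^ (-l i).toNat := by
  rw [GG, map_sub, map_mul, map_prod, map_prod, aeval_C]
  simp only [map_pow, ff_eval]

theorem GG_one_iff {F : Type} [Field F] [Algebra k F] (x y : F)
    (h0 : ∀ i, pt x y i ≠ 0) (l : Fin 5 → ℤ) :
    aeval ![x, y] (GG l (1 : k)) = 0 ↔ mon (pt x y) l = 1 := by
  rw [GG_eval, map_one, one_mul, sub_eq_zero, mon_eq_div h0, div_eq_one_iff_eq]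
  exact Finset.prod_ne_zero_iff.mpr fun i _ => pow_ne_zero _ (h0 i)

private theorem exists_point (k : Type) [Field k] [CharZero k] (i : Fin 5) :
    ∃ a b : k, ∀ j, pt a b j = 0 ↔ j = i := by
  fin_cases i
  · refine ⟨0, 2, fun j => ?_⟩
    fin_cases j <;> simp [pt]
    norm_num
  · refine ⟨1, 3, fun j => ?_⟩
    fin_cases j <;> simp [pt] <;> norm_num
  · refine ⟨2, 0, fun j => ?_⟩
    fin_cases j <;> simp [pt]
    norm_num
  · refine ⟨3, 1, fun j => ?_⟩
    fin_cases j <;> simp [pt] <;> norm_num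
  · refine ⟨2, 2, fun j => ?_⟩
    fin_cases j <;> simp [pt] <;> norm_num

theorem GG_ne_zero [CharZero k] {l : Fin 5 → ℤ} (hl : l ≠ 0) : GG l (1 : k) ≠ 0 := by
  intro h
  obtain ⟨i, hi⟩ : ∃ i, l i ≠ 0 := by
    by_contra hcon
    push Not at hcon
    exact hl (funext hcon)
  obtain ⟨a, b, hab⟩ := exists_point k i
  have key : ∀ n : Fin 5 → ℕ, ∏ j, pt a b j ^ n j = 0 ↔ n i ≠ 0 := by
    intro n
    rw [Finset.prod_eq_zero_iff]
    constructor
    · rintro ⟨j, _, hj⟩
      rw [pow_eq_zero_iff'] at hj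
      obtain ⟨h1, h2⟩ := hj
      rw [hab] at h1
      rw [← h1]
      exact h2
    · intro h1
      exact ⟨i, Finset.mem_univ _, by rw [pow_eq_zero_iff h1]; exact (hab i).mpr rfl⟩
  have h1 := GG_eval (k := k) a b l 1
  rw [h, map_zero, map_one, one_mul, eq_comm, sub_eq_zero] at h1
  have k1 := key fun j => (l j).toNat
  have k2 := key fun j => (-l j).toNat
  rw [h1, k2] at k1
  rcases lt_or_gt_of_ne hi with h2 | h2
  · have h3 := k1.mp (by omega)
    omega
  · have h3 := k1.mpr (by omega)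
    omega

/-- the degrees of the coordinate functions -/
private def eg : Fin 2 → Fin 5 → ℕ := ![![1, 1, 0, 0, 1], ![0, 0, 1, 1, 1]]

private theorem degreeOf_ff (j : Fin 2) (i : Fin 5) : degreeOf j (ff k i) ≤ eg j i := by
  have hX : ∀ a : Fin 2, degreeOf j (X a : MvPolynomial (Fin 2) k) = if j = a then 1 else 0 :=
    fun a => degreeOf_X _ _
  have h1X : ∀ a : Fin 2, degreeOf j (1 - X a : MvPolynomial (Fin 2) k) ≤
      if j = a then 1 else 0 := by
    intro a
    refine (degreeOf_sub_le _ _ _).trans ?_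
    rw [degreeOf_one, hX]
    simp
  have hXX : degreeOf j (X 0 - X 1 : MvPolynomial (Fin 2) k) ≤ 1 := by
    refine (degreeOf_sub_le _ _ _).trans ?_
    rw [hX, hX]
    fin_cases j <;> simp
  fin_cases i
  · refine (le_of_eq (hX 0)).trans ?_
    fin_cases j <;> simp [eg]
  · refine (h1X 0).trans ?_
    fin_cases j <;> simp [eg]
  · refine (le_of_eq (hX 1)).trans ?_
    fin_cases j <;> simp [eg]
  · refine (h1X 1).trans ?_
    fin_cases j <;> simp [eg]
  · refine hXX.trans ?_
    fin_cases j <;> simp [eg]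

private theorem degreeOf_prod_ff (j : Fin 2) (n : Fin 5 → ℕ) (M : ℕ) (hn : ∀ i, n i ≤ M) :
    degreeOf j (∏ i, ff k i ^ n i) ≤ 3 * M := by
  calc degreeOf j (∏ i, ff k i ^ n i) ≤ ∑ i, degreeOf j (ff k i ^ n i) := degreeOf_prod_le _ _ _
    _ ≤ ∑ i, M * eg j i := by
        apply Finset.sum_le_sum
        intro i _
        exact (degreeOf_pow_le _ _ _).trans (Nat.mul_le_mul (hn i) (degreeOf_ff j i))
    _ = 3 * M := by
        fin_cases j <;> simp [Fin.sum_univ_five, eg] <;> ring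

theorem degreeOf_GG (j : Fin 2) (l : Fin 5 → ℤ) (M : ℕ) (hl : ∀ i, |l i| ≤ M) :
    degreeOf j (GG l (1 : k)) ≤ 3 * M := by
  rw [GG, C_1, one_mul]
  refine (degreeOf_sub_le _ _ _).trans (max_le ?_ ?_)
  · apply degreeOf_prod_ff
    intro i
    have := abs_le.mp (hl i)
    omega
  · apply degreeOf_prod_ff
    intro i
    have := abs_le.mp (hl i)
    omega

theorem exists_factor {F : Type} [Field F] [Algebra k F] {P : Fin 2 → F}
    {A : MvPolynomial (Fin 2) k} (hA : A ≠ 0) (h : aeval P A = 0) :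
    ∃ q, Irreducible q ∧ q ∣ A ∧ aeval P q = 0 := by
  obtain ⟨u, hu⟩ := UniqueFactorizationMonoid.factors_prod hA
  have h1 : aeval P (UniqueFactorizationMonoid.factors A).prod = 0 := by
    have h2 := congrArg (aeval P) hu
    rw [map_mul, h] at h2
    exact (mul_eq_zero.mp h2).resolve_right ((u.isUnit.map (aeval P)).ne_zero)
  rw [map_multiset_prod] at h1
  obtain ⟨q, hq, hq0⟩ := Multiset.mem_map.mp (Multiset.prod_eq_zero_iff.mp h1)
  exact ⟨q, UniqueFactorizationMonoid.irreducible_of_factor q hq,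
    UniqueFactorizationMonoid.dvd_of_mem_factors hq, hq0⟩

theorem degreeOf_le_of_dvd {q A : MvPolynomial (Fin 2) k} (h : q ∣ A) (hA : A ≠ 0)
    (j : Fin 2) : degreeOf j q ≤ degreeOf j A := by
  obtain ⟨r, rfl⟩ := h
  rw [degreeOf_mul_eq (left_ne_zero_of_mul hA) (right_ne_zero_of_mul hA)]
  omega

theorem exists_generic {Q : MvPolynomial (Fin 2) k} (hQ : Irreducible Q) :
    ∃ (F : Type) (_ : Field F) (_ : Algebra k F) (u v : F),
      ∀ A, aeval ![u, v] A = 0 ↔ Q ∣ A := by
  have hp : (Ideal.span {Q}).IsPrime := (Ideal.span_singleton_prime hQ.ne_zero).mpr hQ.prime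
  let R := MvPolynomial (Fin 2) k ⧸ Ideal.span {Q}
  have hR : IsDomain R := Ideal.Quotient.isDomain _
  let F := FractionRing R
  refine ⟨F, inferInstance, inferInstance, algebraMap R F (Ideal.Quotient.mk _ (X 0)),
    algebraMap R F (Ideal.Quotient.mk _ (X 1)), fun A => ?_⟩
  let φ : MvPolynomial (Fin 2) k →ₐ[k] F :=
    (IsScalarTower.toAlgHom k R F).comp (Ideal.Quotient.mkₐ k (Ideal.span {Q}))
  have h1 : aeval ![algebraMap R F (Ideal.Quotient.mk _ (X 0)),
      algebraMap R F (Ideal.Quotient.mk _ (X 1))] = φ := by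
    apply MvPolynomial.algHom_ext
    intro i
    fin_cases i <;> simp [φ] <;> rfl
  rw [h1]
  change algebraMap R F (Ideal.Quotient.mk _ A) = 0 ↔ _
  rw [map_eq_zero_iff _ (IsFractionRing.injective R F), Ideal.Quotient.eq_zero_iff_mem,
    Ideal.mem_span_singleton]

end poly

/-- Two relations at an algebraic point: a relation of the list or bounded degree. -/
theorem alg_bezout {E : Finset (Fin 5 → ℤ)} (hE : CL ℂ E) (x y : ℂ)
    (h0 : ∀ i, pt x y i ≠ 0) {l m : Fin 5 → ℤ} {M N : ℕ} (hind : Ind2 l m)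
    (hl : mon (pt x y) l = 1) (hm : mon (pt x y) m = 1) (hlM : ∀ i, |l i| ≤ M)
    (hmN : ∀ i, |m i| ≤ N) : (∃ a ∈ E, mon (pt x y) a = 1) ∨
      (FiniteDimensional ℚ (IntermediateField.adjoin ℚ {x, y}) ∧
        finrank ℚ (IntermediateField.adjoin ℚ {x, y}) ≤ 200 * M * N) := by
  classical
  have hl0 : l ≠ 0 := by
    rintro rfl
    have := (hind 1 0 (by simp)).1
    exact one_ne_zero this
  have hm0 : m ≠ 0 := by
    rintro rfl
    have := (hind 0 1 (by simp)).2
    exact one_ne_zero this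
  have hA0 : GG l (1 : ℚ) ≠ 0 := GG_ne_zero hl0
  have hB0 : GG m (1 : ℚ) ≠ 0 := GG_ne_zero hm0
  have hA : aeval ![x, y] (GG l (1 : ℚ)) = 0 := (GG_one_iff x y h0 l).mpr hl
  have hB : aeval ![x, y] (GG m (1 : ℚ)) = 0 := (GG_one_iff x y h0 m).mpr hm
  obtain ⟨q, hq, hqA, hq0⟩ := exists_factor hA0 hA
  by_cases hqB : q ∣ GG m (1 : ℚ)
  · left
    -- a component over the complex numbers
    have hmapGG : ∀ a : Fin 5 → ℤ, map (algebraMap ℚ ℂ) (GG a (1 : ℚ)) = GG a (1 : ℂ) := by
      intro a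
      have hff : ∀ i, map (algebraMap ℚ ℂ) (ff ℚ i) = ff ℂ i := by
        intro i
        fin_cases i <;> simp [ff, pt]
      rw [GG, GG, map_sub, map_mul, map_prod, map_prod, map_C, map_one]
      simp only [map_pow, hff]
    have hqC0 : map (algebraMap ℚ ℂ) q ≠ 0 := by
      rw [Ne, map_eq_zero_iff _ (map_injective _ (algebraMap ℚ ℂ).injective)]
      exact hq.ne_zero
    have hqC : aeval ![x, y] (map (algebraMap ℚ ℂ) q) = 0 := by
      rw [aeval_map_algebraMap]
      exact hq0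
    obtain ⟨Q, hQ, hQq, hQ0⟩ := exists_factor hqC0 hqC
    have hQA : Q ∣ GG l (1 : ℂ) := by
      rw [← hmapGG]
      exact hQq.trans (map_dvd _ hqA)
    have hQB : Q ∣ GG m (1 : ℂ) := by
      rw [← hmapGG]
      exact hQq.trans (map_dvd _ hqB)
    obtain ⟨F, _, _, u, v, huv⟩ := exists_generic hQ
    have hpt : ∀ i, pt u v i ≠ 0 := by
      intro i hi
      rw [← ff_eval (k := ℂ), huv] at hi
      obtain ⟨r, hr⟩ := hi
      apply h0 i
      rw [← ff_eval (k := ℂ), hr, map_mul, hQ0, zero_mul]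
    have hnc : ¬ (u ∈ (algebraMap ℂ F).range ∧ v ∈ (algebraMap ℂ F).range) := by
      rintro ⟨⟨a, ha⟩, b, hb⟩
      have h1 : Q ∣ X 0 - C a := by
        rw [← huv]
        simp [ha]
      have h2 : Q ∣ X 1 - C b := by
        rw [← huv]
        simp [hb]
      have hn1 : (X 0 - C a : MvPolynomial (Fin 2) ℂ) ≠ 0 := by
        intro h
        have := congrArg (eval (![a + 1, 0] : Fin 2 → ℂ)) h
        simp at this
      have hn2 : (X 1 - C b : MvPolynomial (Fin 2) ℂ) ≠ 0 := by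
        intro h
        have := congrArg (eval (![0, b + 1] : Fin 2 → ℂ)) h
        simp at this
      have hd1 : degreeOf 1 Q = 0 := by
        have h3 := degreeOf_le_of_dvd h1 hn1 1
        have h4 := degreeOf_sub_le (1 : Fin 2) (X 0 : MvPolynomial (Fin 2) ℂ) (C a)
        rw [degreeOf_X, degreeOf_C] at h4
        simp at h4
        omega
      have hd0 : degreeOf 0 Q = 0 := by
        have h3 := degreeOf_le_of_dvd h2 hn2 0
        have h4 := degreeOf_sub_le (0 : Fin 2) (X 1 : MvPolynomial (Fin 2) ℂ) (C b)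
        rw [degreeOf_X, degreeOf_C] at h4
        simp at h4
        omega
      have hv : Q.vars = ∅ := by
        rw [Finset.eq_empty_iff_forall_notMem]
        intro i hi
        have h5 : degreeOf i Q = 0 := by
          fin_cases i
          · exact hd0
          · exact hd1
        exact (mem_vars_iff_degreeOf_ne_zero.mp hi) h5
      obtain ⟨c, hc⟩ : ∃ c, Q = C c := ⟨_, (vars_eq_empty_iff_eq_C).mp hv⟩
      apply hQ.not_isUnit
      rw [hc]
      have hc0 : c ≠ 0 := by
        rintro rfl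
        exact hQ.ne_zero (by rw [hc, C_0])
      exact (isUnit_iff_ne_zero.mpr hc0).map C
    obtain ⟨a, haE, ha⟩ := hE F u v hpt hnc l m hind
      (by rw [(GG_one_iff (k := ℂ) u v hpt l).mp ((huv _).mpr hQA)]; exact RU.one)
      (by rw [(GG_one_iff (k := ℂ) u v hpt m).mp ((huv _).mpr hQB)]; exact RU.one)
    refine ⟨a, haE, ?_⟩
    obtain ⟨r, hr⟩ := (huv _).mp ((GG_one_iff (k := ℂ) u v hpt a).mpr ha)
    rw [← GG_one_iff (k := ℂ) x y h0 a, hr, map_mul, hQ0, zero_mul]
  · right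
    have hrel : IsRelPrime q (GG m (1 : ℚ)) := hq.isRelPrime_iff_not_dvd.mpr hqB
    obtain ⟨h1, h2⟩ := bezout hq.ne_zero hB0 hrel ![x, y] hq0 hB
    have hr : Set.range ![x, y] = {x, y} := by
      simp [Matrix.range_cons, Matrix.range_empty, Set.pair_comm]
    rw [hr] at h1 h2
    refine ⟨h1, h2.trans ?_⟩
    have a0 := (degreeOf_le_of_dvd hqA hA0 0).trans (degreeOf_GG 0 l M hlM)
    have a1 := (degreeOf_le_of_dvd hqA hA0 1).trans (degreeOf_GG 1 l M hlM)
    have b0 := degreeOf_GG (k := ℚ) 0 m N hmN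
    have b1 := degreeOf_GG (k := ℚ) 1 m N hmN
    calc _ ≤ 3 * M * (3 * N) + 3 * M * (3 * N) :=
          Nat.add_le_add (Nat.mul_le_mul a0 b1) (Nat.mul_le_mul a1 b0)
      _ = 18 * (M * N) := by ring
      _ ≤ 200 * (M * N) := Nat.mul_le_mul_right _ (by norm_num)
      _ = 200 * M * N := by ring

theorem exists_two {z : Fin 5 → ℂ} (h : RankTwo z) :
    ∃ l m : Fin 5 → ℤ, Ind2 l m ∧ RU (mon z l) ∧ RU (mon z m) := by
  obtain ⟨U, hU, hU2⟩ := h
  have clear : ∀ v : Fin 5 → ℚ, ∃ k : ℤ, k ≠ 0 ∧ ∃ a : Fin 5 → ℤ, ∀ i, (a i : ℚ) = k * v i := by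
    intro v
    refine ⟨∏ i, ((v i).den : ℤ), Finset.prod_ne_zero_iff.2 fun i _ => by
      exact_mod_cast (v i).den_nz, fun i => (∏ j ∈ Finset.univ.erase i, ((v j).den : ℤ)) *
      (v i).num, fun i => ?_⟩
    rw [← Finset.mul_prod_erase Finset.univ (fun j => ((v j).den : ℤ)) (Finset.mem_univ i)]
    push_cast
    have h := Rat.mul_den_eq_num (v i)
    rw [← h]
    ring
  have h2 : 3 ≤ finrank ℚ U := by omega
  let b := Module.finBasis ℚ U
  let i0 : Fin (finrank ℚ U) := ⟨0, by omega⟩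
  let i1 : Fin (finrank ℚ U) := ⟨1, by omega⟩
  have h01 : i0 ≠ i1 := by
    intro h
    have := congrArg Fin.val h
    simp [i0, i1] at this
  obtain ⟨k, hk, a, ha⟩ := clear (b i0).1
  obtain ⟨l, hl, c, hc⟩ := clear (b i1).1
  have haU : (fun i => (a i : ℚ)) ∈ U := by
    have : (fun i => (a i : ℚ)) = (k : ℚ) • (b i0).1 := by
      funext i
      rw [ha i]
      rfl
    rw [this]
    exact U.smul_mem _ (b i0).2
  have hcU : (fun i => (c i : ℚ)) ∈ U := by
    have : (fun i => (c i : ℚ)) = (l : ℚ) • (b i1).1 := by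
      funext i
      rw [hc i]
      rfl
    rw [this]
    exact U.smul_mem _ (b i1).2
  refine ⟨a, c, ?_, hU2 a haU, hU2 c hcU⟩
  intro s t hst
  have hli := b.linearIndependent
  have h5 : ((s * k : ℤ) : ℚ) • b i0 + ((t * l : ℤ) : ℚ) • b i1 = 0 := by
    apply Subtype.ext
    funext i
    have h6 := congrFun hst i
    simp only [Pi.add_apply, Pi.smul_apply, smul_eq_mul, Pi.zero_apply] at h6
    have h7 : ((s * a i + t * c i : ℤ) : ℚ) = 0 := by
      rw [h6]
      rfl
    push_cast at h7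
    rw [ha i, hc i] at h7
    change ((s * k : ℤ) : ℚ) * (b i0).1 i + ((t * l : ℤ) : ℚ) * (b i1).1 i = 0
    push_cast
    linarith
  have hinj : Function.Injective ![i0, i1] := by
    intro p q hpq
    fin_cases p <;> fin_cases q
    · rfl
    · exact absurd hpq h01
    · exact absurd hpq.symm h01
    · rfl
  have h6 := hli.comp ![i0, i1] hinj
  have h7 : (b ∘ ![i0, i1]) = ![b i0, b i1] := by
    funext q
    fin_cases q <;> rfl
  rw [h7] at h6
  obtain ⟨h8, h9⟩ := LinearIndependent.pair_iff.mp h6 _ _ h5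
  constructor
  · have h10 : s * k = 0 := by exact_mod_cast h8
    exact (mul_eq_zero.1 h10).resolve_right hk
  · have h10 : t * l = 0 := by exact_mod_cast h9
    exact (mul_eq_zero.1 h10).resolve_right hl

/-- The points of the surface in torsion cosets of dimension at most two. -/
theorem points (leh : Leh2) : ∃ E : Finset (Fin 5 → ℤ), 0 ∉ E ∧ ∀ T : Set (Fin 5 → ℂ),
    IsTorsionCoset T → ringKrullDim (MvPolynomial (Fin 5) ℂ ⧸ Pool.Agent.CITTrans.vanI T) ≤ 2 →
    ∀ P ∈ m05 ∩ T, ∃ a ∈ E, ∏ i, P i ^ a i = 1 := by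
  classical
  obtain ⟨E0, hE0, hCL0⟩ := curve ℂ
  have hac : IsAlgClosed (algebraicClosure ℚ ℂ) :=
    (algebraicClosure.isAlgClosure ℚ ℂ).isAlgClosed
  obtain ⟨E1, hE1, hCL1⟩ := curve (algebraicClosure ℚ ℂ)
  obtain ⟨H0, hH0⟩ := m05_height
  obtain ⟨C0, hC0, hC⟩ := two_rel leh (H := max H0 1) (by positivity)
  obtain ⟨D0, hD0⟩ := exists_nat_ge ((8 * 10 ^ 6 * C0) ^ 2)
  obtain ⟨E2, hE2, hrel⟩ := m05_relation _ (bogSet_degree D0)
  refine ⟨E0 ∪ E1 ∪ E2, ?_, fun T hT hdim P hP => ?_⟩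
  · simp only [Finset.mem_union, not_or]
    exact ⟨⟨hE0, hE1⟩, hE2⟩
  have hPpt : P = pt (P 0) (P 2) := by
    obtain ⟨⟨_, e1, e3, e4⟩, _⟩ := hP
    funext i
    fin_cases i
    · rfl
    · exact e1
    · rfl
    · exact e3
    · exact e4
  have hp0 : ∀ i, pt (P 0) (P 2) i ≠ 0 := by
    intro i
    rw [← hPpt]
    exact hP.1.1 i
  by_cases halg : IsAlgebraic ℚ (P 0) ∧ IsAlgebraic ℚ (P 2)
  · -- algebraic points
    set K := IntermediateField.adjoin ℚ {P 0, P 2} with hK
    have hfin : FiniteDimensional ℚ K := by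
      apply IntermediateField.finiteDimensional_adjoin
      intro z hz
      rcases hz with rfl | hz
      · exact halg.1.isIntegral
      · rw [Set.mem_singleton_iff.1 hz]
        exact halg.2.isIntegral
    have : NumberField K := ⟨⟩
    let x : K := ⟨P 0, IntermediateField.subset_adjoin ℚ _ (by simp)⟩
    let y : K := ⟨P 2, IntermediateField.subset_adjoin ℚ _ (by simp)⟩
    let φ : K →+* ℂ := (K.val : K →+* ℂ)
    have hφ : (fun i => φ (pt x y i)) = P := by
      rw [hPpt]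
      funext i
      fin_cases i
      · rfl
      · change φ (1 - x) = 1 - P 0
        rw [map_sub, map_one]
        rfl
      · rfl
      · change φ (1 - y) = 1 - P 2
        rw [map_sub, map_one]
        rfl
      · change φ (x - y) = P 0 - P 2
        rw [map_sub]
        rfl
    have hφi : ∀ i, φ (pt x y i) = P i := fun i => congrFun hφ i
    have hz0 : ∀ i, pt x y i ≠ 0 := by
      intro i hi
      apply hP.1.1 i
      rw [← hφi, hi, map_zero]
    have hrt : RankTwo (pt x y) := by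
      apply RankTwo.of_map φ
      rw [hφ]
      exact RankTwo.of_coset hT hdim hP.2
    have hht : ∀ i, logHeight₁ (pt x y i) ≤ max H0 1 * finrank ℚ K := by
      intro i
      have h1 := hH0 K φ (pt x y) T hT hdim (by rw [hφ]; exact hP) i
      refine h1.trans ?_
      gcongr
      exact le_max_left _ _
    obtain ⟨l, m, M, N, hind, hl, hm, hlM, hmN, hMN⟩ := hC K (pt x y) hz0 hrt hht
    have hmon : ∀ a : Fin 5 → ℤ, mon (pt x y) a = 1 → mon (pt (P 0) (P 2)) a = 1 := by
      intro a ha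
      have h1 := congrArg φ ha
      rw [mon, map_prod, map_one] at h1
      rw [mon, ← h1]
      refine Finset.prod_congr rfl fun i _ => ?_
      rw [map_zpow₀, hφi, ← hPpt]
    rcases alg_bezout hCL0 (P 0) (P 2) hp0 hind (hmon l hl) (hmon m hm) hlM hmN with
      ⟨a, ha, ha1⟩ | ⟨_, hD⟩
    · refine ⟨a, by simp [ha], ?_⟩
      rw [← hPpt] at ha1
      exact ha1
    · -- bounded degree
      have hDpos : 0 < finrank ℚ K := finrank_pos
      obtain ⟨D, hDD⟩ : ∃ D, D = finrank ℚ K := ⟨_, rfl⟩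
      have hDle : D ≤ D0 := by
        rw [← hK, ← hDD] at hD
        rw [← hDD] at hDpos hMN
        have hDr : (0 : ℝ) < D := by exact_mod_cast hDpos
        have h1 : (D : ℝ) ≤ 200 * (M * N) := by
          have : ((D : ℕ) : ℝ) ≤ ((200 * M * N : ℕ) : ℝ) := by exact_mod_cast hD
          push_cast at this
          linarith
        have h2 : (D : ℝ) ^ 3 ≤ 8 * 10 ^ 6 * C0 * (D : ℝ) ^ (5 / 2 : ℝ) := by
          calc (D : ℝ) ^ 3 ≤ (200 * (M * N)) ^ 3 := pow_le_pow_left₀ hDr.le h1 3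
            _ = 8 * 10 ^ 6 * ((M : ℝ) * N) ^ 3 := by ring
            _ ≤ 8 * 10 ^ 6 * (C0 * (D : ℝ) ^ (5 / 2 : ℝ)) := by gcongr
            _ = _ := by ring
        have h3 : (D : ℝ) ^ 3 = (D : ℝ) ^ (5 / 2 : ℝ) * (D : ℝ) ^ (1 / 2 : ℝ) := by
          rw [← Real.rpow_add hDr, ← Real.rpow_natCast]
          norm_num
        have h4 : (D : ℝ) ^ (1 / 2 : ℝ) ≤ 8 * 10 ^ 6 * C0 := by
          have h5 : 0 < (D : ℝ) ^ (5 / 2 : ℝ) := Real.rpow_pos_of_pos hDr _
          rw [h3] at h2
          have h6 : (D : ℝ) ^ (5 / 2 : ℝ) * (D : ℝ) ^ (1 / 2 : ℝ) ≤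
              (D : ℝ) ^ (5 / 2 : ℝ) * (8 * 10 ^ 6 * C0) := by linarith
          exact le_of_mul_le_mul_left h6 h5
        have h7 : (D : ℝ) ≤ (8 * 10 ^ 6 * C0) ^ 2 := by
          have h8 : (D : ℝ) = ((D : ℝ) ^ (1 / 2 : ℝ)) ^ 2 := by
            rw [← Real.rpow_natCast, ← Real.rpow_mul hDr.le]
            norm_num
          rw [h8]
          exact pow_le_pow_left₀ (Real.rpow_nonneg hDr.le _) h4 2
        exact_mod_cast h7.trans hD0
      obtain ⟨a, ha, ha1⟩ := hrel T hT hdim P hP (by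
        intro i
        have hmem : P i ∈ K := by
          rw [← hφi]
          exact (pt x y i).2
        have hint : IsIntegral ℚ (pt x y i) := IsIntegral.of_finite ℚ _
        refine ⟨?_, ?_⟩
        · have h1 : IsAlgebraic ℚ (⟨P i, hmem⟩ : K) := Algebra.IsAlgebraic.isAlgebraic _
          exact h1.algebraMap
        · have h1 : minpoly ℚ (P i) = minpoly ℚ (⟨P i, hmem⟩ : K) :=
            minpoly.algebraMap_eq (algebraMap K ℂ).injective (⟨P i, hmem⟩ : K)
          rw [h1]
          have h2 := minpoly.natDegree_le (A := ℚ) (⟨P i, hmem⟩ : K)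
          omega)
      exact ⟨a, by simp [ha], ha1⟩
  · -- transcendental points
    obtain ⟨l, m, hind, hl, hm⟩ := exists_two (RankTwo.of_coset hT hdim hP.2)
    rw [hPpt] at hl hm
    obtain ⟨a, ha, ha1⟩ := hCL1 ℂ (P 0) (P 2) hp0 (by
      rintro ⟨⟨u, hu⟩, v, hv⟩
      apply halg
      rw [← hu, ← hv]
      exact ⟨mem_algebraicClosure_iff.mp u.2, mem_algebraicClosure_iff.mp v.2⟩) l m hind hl hm
    refine ⟨a, by simp [ha], ?_⟩
    rw [← hPpt] at ha1
    exact ha1

end Pool.Agent.M05Full
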