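import Mathlib

set_option autoImplicit false

/-! The lattice of multiplicative relations modulo constants between functions of bounded degree
on a curve: one of finitely many lattices. -/

namespace Pool.Agent.M05Full

open IntermediateField Module WithZero
open scoped algebraAdjoinAdjoin Polynomial

/-- `u` is constant, or a function of degree at most `d`. -/
def DegLe (k : Type) {E : Type} [Field k] [Field E] [Algebra k E] (d : ℕ) (u : E) : Prop :=
  u ∈ (algebraMap k E).range ∨ (Transcendental k u ∧ FiniteDimensional (adjoin k {u}) E ∧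
    finrank (adjoin k {u}) E ≤ d)

/-- A normalised discrete valuation, trivial on the constants. -/
structure IsPlace (k : Type) {E : Type} [Field k] [Field E] [Algebra k E]
    (v : Valuation E ℤᵐ⁰) : Prop where
  const : ∀ c : k, c ≠ 0 → v (algebraMap k E c) = 1
  unif : ∃ p : E, v p = exp (-1)

variable {k E : Type} [Field k] [Field E] [Algebra k E]

theorem IsPlace.poly_le {v : Valuation E ℤᵐ⁰} (hv : IsPlace k v) {u : E} (hu : v u ≤ 1)
    (p : k[X]) : v (Polynomial.aeval u p) ≤ 1 := by
  rw [Polynomial.aeval_eq_sum_range]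
  refine v.map_sum_le fun i _ => ?_
  rw [Algebra.smul_def, map_mul, map_pow]
  have h1 : v (algebraMap k E (p.coeff i)) ≤ 1 := by
    by_cases h : p.coeff i = 0
    · rw [h, map_zero, map_zero]
      exact zero_le
    · rw [hv.const _ h]
  exact mul_le_one' h1 (pow_le_one' hu i)

theorem IsPlace.poly {v : Valuation E ℤᵐ⁰} (hv : IsPlace k v) {u : E} (hu : v u < 1) :
    ∀ (n : ℕ) (p : k[X]), p ≠ 0 → p.natDegree ≤ n → ∃ t : ℕ,
      v (Polynomial.aeval u p) = v u ^ t := by
  intro n
  induction n with
  | zero =>
    intro p hp hn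
    have hn' : p.natDegree = 0 := Nat.le_zero.1 hn
    rw [Polynomial.natDegree_eq_zero] at hn'
    obtain ⟨c, rfl⟩ := hn'
    refine ⟨0, ?_⟩
    rw [Polynomial.aeval_C, pow_zero]
    exact hv.const _ fun h => hp (by rw [h, map_zero])
  | succ n ih =>
    intro p hp hn
    have hdiv := Polynomial.divX_mul_X_add p
    have hdeg : p.divX.natDegree ≤ n := by
      rw [Polynomial.natDegree_divX_eq_natDegree_tsub_one]
      omega
    have haev : Polynomial.aeval u p =
        Polynomial.aeval u p.divX * u + algebraMap k E (p.coeff 0) := by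
      conv_lhs => rw [← hdiv]
      rw [map_add, map_mul, Polynomial.aeval_X, Polynomial.aeval_C]
    by_cases h0 : p.coeff 0 = 0
    · have hdx : p.divX ≠ 0 := by
        intro h
        apply hp
        rw [← hdiv, h, h0, zero_mul, map_zero, add_zero]
      obtain ⟨t, ht⟩ := ih p.divX hdx hdeg
      refine ⟨t + 1, ?_⟩
      rw [haev, h0, map_zero, add_zero, map_mul, ht, pow_succ]
    · refine ⟨0, ?_⟩
      rw [haev, pow_zero, Valuation.map_add_eq_of_lt_right]
      · exact hv.const _ h0
      · rw [hv.const _ h0, map_mul]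
        calc v (Polynomial.aeval u p.divX) * v u ≤ 1 * v u :=
              mul_le_mul_left (hv.poly_le hu.le _) _
          _ < 1 := by rw [one_mul]; exact hu

theorem IsPlace.adjoin {v : Valuation E ℤᵐ⁰} (hv : IsPlace k v) {u : E} (hu : v u < 1) (hu0 : u ≠ 0)
    (c : E) (hc : c ∈ IntermediateField.adjoin k {u}) (hc0 : c ≠ 0) :
    ∃ s : ℤ, v c = v u ^ s := by
  rw [IntermediateField.mem_adjoin_simple_iff] at hc
  obtain ⟨r, s, rfl⟩ := hc
  have hr : r ≠ 0 := by
    rintro rfl
    apply hc0
    rw [map_zero, zero_div]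
  have hs : s ≠ 0 := by
    rintro rfl
    apply hc0
    rw [map_zero, div_zero]
  obtain ⟨a, ha⟩ := hv.poly hu _ r hr le_rfl
  obtain ⟨b, hb⟩ := hv.poly hu _ s hs le_rfl
  refine ⟨a - b, ?_⟩
  have hvu : v u ≠ 0 := (Valuation.ne_zero_iff _).2 hu0
  rw [map_div₀, ha, hb, zpow_sub₀ hvu, zpow_natCast, zpow_natCast]

/-- Powers of a uniformiser are independent. -/
theorem IsPlace.indep {v : Valuation E ℤᵐ⁰} (hv : IsPlace k v) {u : E} (e : ℕ) (he : 0 < e)
    (hu : v u = exp (-(e : ℤ))) {p : E} (hp : v p = exp (-1)) :
    LinearIndependent (IntermediateField.adjoin k {u}) (fun j : Fin e => p ^ (j : ℕ)) := by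
  have hu1 : v u < 1 := by
    rw [hu, ← WithZero.exp_zero, WithZero.exp_lt_exp]
    omega
  have hu0 : u ≠ 0 := by
    intro h
    rw [h, map_zero] at hu
    exact WithZero.exp_ne_zero hu.symm
  rw [Fintype.linearIndependent_iff]
  intro c hc
  by_contra hcon
  push Not at hcon
  obtain ⟨j1, hj1⟩ := hcon
  classical
  let S := Finset.univ.filter fun j => c j ≠ 0
  have hS : S.Nonempty := ⟨j1, Finset.mem_filter.2 ⟨Finset.mem_univ _, hj1⟩⟩
  obtain ⟨j0, hj0, hmax⟩ := Finset.exists_max_image S (fun j => v (c j • p ^ (j : ℕ))) hS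
  have hcj0 : c j0 ≠ 0 := (Finset.mem_filter.1 hj0).2
  -- the valuation of a nonzero term
  have hval : ∀ j, c j ≠ 0 → ∃ s : ℤ, v (c j • p ^ (j : ℕ)) = exp (-(e : ℤ) * s - j) := by
    intro j hj
    have hj' : (c j : E) ≠ 0 := by
      intro h
      exact hj (Subtype.ext h)
    obtain ⟨s, hs⟩ := hv.adjoin hu1 hu0 (c j : E) (c j).2 hj'
    refine ⟨s, ?_⟩
    rw [Algebra.smul_def, map_mul, map_pow, hp]
    change v (c j : E) * _ = _
    rw [hs, hu, ← WithZero.exp_zsmul, ← WithZero.exp_nsmul, ← WithZero.exp_add]
    congr 1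
    simp only [smul_eq_mul, nsmul_eq_mul]
    ring
  obtain ⟨s0, hs0⟩ := hval j0 hcj0
  have hlt : v (∑ j ∈ Finset.univ.erase j0, c j • p ^ (j : ℕ)) < v (c j0 • p ^ (j0 : ℕ)) := by
    refine v.map_sum_lt (by rw [hs0]; exact WithZero.exp_ne_zero) fun j hj => ?_
    have hne : j ≠ j0 := Finset.ne_of_mem_erase hj
    by_cases hcj : c j = 0
    · rw [hcj, zero_smul, map_zero, hs0]
      exact WithZero.exp_pos
    · refine lt_of_le_of_ne (hmax j (Finset.mem_filter.2 ⟨Finset.mem_univ _, hcj⟩)) ?_
      obtain ⟨s, hs⟩ := hval j hcj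
      rw [hs, hs0]
      intro h
      have h2 := WithZero.exp_injective h
      have h3 : (j : ℤ) - j0 = e * (s0 - s) := by linarith
      have hj1 := j.2
      have hj2 := j0.2
      have h4 : s0 - s = 0 := by
        by_contra h5
        have h6 : (e : ℤ) ≤ |(e : ℤ) * (s0 - s)| := by
          rw [abs_mul, Nat.abs_cast]
          have := Int.one_le_abs h5
          nlinarith
        rw [← h3] at h6
        have h7 : |(j : ℤ) - j0| < e := by
          rw [abs_lt]
          omega
        omega
      rw [h4, mul_zero, sub_eq_zero] at h3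
      exact hne (Fin.ext (by exact_mod_cast h3))
  have hsum : c j0 • p ^ (j0 : ℕ) = -∑ j ∈ Finset.univ.erase j0, c j • p ^ (j : ℕ) := by
    rw [← Finset.add_sum_erase _ _ (Finset.mem_univ j0)] at hc
    exact eq_neg_of_add_eq_zero_left hc
  rw [hsum, Valuation.map_neg] at hlt
  exact lt_irrefl _ hlt

/-- The order of a function of degree at most `d` is at most `d`. -/
theorem IsPlace.bound {v : Valuation E ℤᵐ⁰} (hv : IsPlace k v) {u : E} (hu0 : u ≠ 0) {d : ℕ}
    (hd : DegLe k d u) : ∃ r : ℤ, v u = exp r ∧ |r| ≤ d := by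
  have hvu : v u ≠ 0 := (Valuation.ne_zero_iff _).2 hu0
  refine ⟨log (v u), (WithZero.exp_log hvu).symm, ?_⟩
  set r := log (v u) with hr
  have hvr : v u = exp r := (WithZero.exp_log hvu).symm
  rcases hd with ⟨c, hc⟩ | ⟨htr, hfin, hle⟩
  · have hc0 : c ≠ 0 := by
      rintro rfl
      rw [map_zero] at hc
      exact hu0 hc.symm
    rw [← hc, hv.const c hc0, ← WithZero.exp_zero] at hvr
    rw [← WithZero.exp_injective hvr, abs_zero]
    exact Int.natCast_nonneg d
  · obtain ⟨p, hp⟩ := hv.unif
    rcases lt_trichotomy r 0 with h | h | h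
    · have h1 := hv.indep (u := u) (-r).toNat (by omega)
        (by rw [hvr, Int.toNat_of_nonneg (by omega), neg_neg]) hp
      have h2 := h1.fintype_card_le_finrank
      rw [Fintype.card_fin] at h2
      rw [abs_of_neg h]
      omega
    · rw [h, abs_zero]
      exact Int.natCast_nonneg d
    · have hadj : IntermediateField.adjoin k {u⁻¹} = IntermediateField.adjoin k {u} := by
        apply le_antisymm
        · rw [IntermediateField.adjoin_simple_le_iff]
          exact inv_mem (IntermediateField.mem_adjoin_simple_self k u)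
        · rw [IntermediateField.adjoin_simple_le_iff]
          have := inv_mem (IntermediateField.mem_adjoin_simple_self k u⁻¹)
          rwa [inv_inv] at this
      have h1 := hv.indep (u := u⁻¹) r.toNat (by omega)
        (by rw [map_inv₀, hvr, ← WithZero.exp_neg, Int.toNat_of_nonneg h.le]) hp
      rw [hadj] at h1
      have h2 := h1.fintype_card_le_finrank
      rw [Fintype.card_fin] at h2
      rw [abs_of_pos h]
      omega

/-- A transcendental function has a zero. -/
theorem exists_place [CharZero k] {g : E} (hg : Transcendental k g)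
    [FiniteDimensional (IntermediateField.adjoin k {g}) E] :
    ∃ v : Valuation E ℤᵐ⁰, IsPlace k v ∧ v g < 1 := by
  set A := Algebra.adjoin k {g} with hA
  set K := IntermediateField.adjoin k {g} with hK
  let g0 : A := ⟨g, Algebra.self_mem_adjoin_singleton k g⟩
  have hsurj : Function.Surjective (Polynomial.aeval g0 : k[X] →ₐ[k] A) := by
    rintro ⟨z, hz⟩
    rw [hA, Algebra.adjoin_singleton_eq_range_aeval] at hz
    obtain ⟨p, hp⟩ := hz
    refine ⟨p, Subtype.ext ?_⟩
    have h1 := Polynomial.aeval_algHom_apply A.val g0 p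
    change ((Polynomial.aeval g0 p : A) : E) = z
    rw [← hp]
    exact h1.symm
  have hPID : IsPrincipalIdealRing A :=
    IsPrincipalIdealRing.of_surjective (Polynomial.aeval g0 : k[X] →ₐ[k] A).toRingHom hsurj
  have hDed : IsDedekindDomain A := inferInstance
  have hCK : CharZero K := charZero_of_injective_algebraMap (algebraMap k K).injective
  have hsep : Algebra.IsSeparable K E := inferInstance
  have hB : IsDedekindDomain (integralClosure A E) := integralClosure.isDedekindDomain A K E
  have hfrac : IsFractionRing (integralClosure A E) E :=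
    integralClosure.isFractionRing_of_finite_extension K E
  let gB : integralClosure A E := algebraMap A (integralClosure A E) g0
  have hgB : algebraMap (integralClosure A E) E gB = g := rfl
  have hg0 : g ≠ 0 := by
    rintro rfl
    exact hg isAlgebraic_zero
  have hnu : gB ∈ nonunits (integralClosure A E) := by
    intro hu
    obtain ⟨b, hb⟩ := hu.exists_right_inv
    have hb2 : g * (b : E) = 1 := by
      have := congrArg (algebraMap (integralClosure A E) E) hb
      rw [map_mul, map_one, hgB] at this
      exact this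
    have hbi : (b : E) = g⁻¹ := eq_inv_of_mul_eq_one_right hb2
    have hbint : IsIntegral A (g⁻¹ : E) := by
      rw [← hbi]
      exact b.2
    let gK : K := ⟨g, IntermediateField.mem_adjoin_simple_self k g⟩
    have h1 : IsIntegral A (gK⁻¹ : K) := by
      rw [← isIntegral_algebraMap_iff (algebraMap K E).injective]
      exact hbint
    obtain ⟨a, ha⟩ := IsIntegrallyClosed.isIntegral_iff.1 h1
    obtain ⟨p, hp⟩ := hsurj a
    have h2 : g * Polynomial.aeval g p = 1 := by
      have h3 : (a : E) = g⁻¹ := congrArg (algebraMap K E) ha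
      have h4 : Polynomial.aeval g p = (a : E) := by
        rw [← hp]
        exact Polynomial.aeval_algHom_apply A.val g0 p
      rw [h4, h3, mul_inv_cancel₀ hg0]
    have h5 : Polynomial.aeval g (Polynomial.X * p - 1) = 0 := by
      rw [map_sub, map_mul, Polynomial.aeval_X, map_one, h2, sub_self]
    have h6 := (transcendental_iff.1 hg) _ h5
    have h7 := congrArg (Polynomial.eval 0) h6
    simp at h7
  obtain ⟨M, hM, hgM⟩ := exists_max_ideal_of_mem_nonunits hnu
  have hMbot : M ≠ ⊥ := by
    rintro rfl
    rw [Ideal.mem_bot] at hgM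
    apply hg0
    rw [← hgB, hgM, map_zero]
  let P : IsDedekindDomain.HeightOneSpectrum (integralClosure A E) := ⟨M, hM.isPrime, hMbot⟩
  refine ⟨P.valuation E, ⟨?_, ?_⟩, ?_⟩
  · intro c hc
    have hle : ∀ c : k, P.valuation E (algebraMap k E c) ≤ 1 := by
      intro c
      exact P.valuation_le_one (algebraMap A (integralClosure A E) (algebraMap k A c))
    have h1 := hle c
    have h2 := hle c⁻¹
    rw [map_inv₀, map_inv₀] at h2
    refine le_antisymm h1 ?_
    have h3 : P.valuation E (algebraMap k E c) ≠ 0 := by
      rw [Valuation.ne_zero_iff]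
      exact (map_ne_zero (algebraMap k E)).2 hc
    exact (inv_le_one₀ (zero_lt_iff.2 h3)).1 h2
  · exact P.valuation_exists_uniformizer E
  · exact (P.valuation_lt_one_iff_mem gB).2 hgM

/-- If `E` is finite over `k(u)` then it is finite over `k(g)` for transcendental `g`. -/
theorem finite_adjoin {u g : E} (hu : Transcendental k u)
    [FiniteDimensional (IntermediateField.adjoin k {u}) E] (hg : Transcendental k g) :
    FiniteDimensional (IntermediateField.adjoin k {g}) E := by
  have hess : Algebra.EssFiniteType k E := by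
    have h1 : Algebra.EssFiniteType k (IntermediateField.adjoin k {u}) := by
      rw [IntermediateField.essFiniteType_iff]
      exact ⟨{u}, by simp⟩
    exact Algebra.EssFiniteType.comp k (IntermediateField.adjoin k {u}) E
  have hess2 : Algebra.EssFiniteType (IntermediateField.adjoin k {g}) E :=
    Algebra.EssFiniteType.of_comp k (IntermediateField.adjoin k {g}) E
  have hub : IsTranscendenceBasis k (fun _ : Unit => u) := by
    have hind : AlgebraicIndependent k (fun _ : Unit => u) :=
      (algebraicIndependent_unique_type_iff).2 hu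
    refine hind.isTranscendenceBasis_iff_isAlgebraic.2 ?_
    rw [Set.range_const]
    have h1 : Algebra.IsAlgebraic (IntermediateField.adjoin k {u}) E := inferInstance
    exact Algebra.IsAlgebraic.trans _ (IntermediateField.adjoin k {u}) _
  have hgb : IsTranscendenceBasis k (fun _ : Unit => g) := by
    have hind : AlgebraicIndependent k (fun _ : Unit => g) :=
      (algebraicIndependent_unique_type_iff).2 hg
    refine hind.isTranscendenceBasis_of_trdeg_le_of_finite ?_
    rw [← hub.cardinalMk_eq_trdeg]
  have halg := hgb.isAlgebraic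
  rw [Set.range_const] at halg
  have halg2 : Algebra.IsAlgebraic (IntermediateField.adjoin k {g}) E :=
    Algebra.IsAlgebraic.extendScalars (R := Algebra.adjoin k {g})
      (FaithfulSMul.algebraMap_injective _ _)
  exact Algebra.finite_of_essFiniteType_of_isAlgebraic

private theorem exp_sum' {n : ℕ} (f : Fin n → ℤ) :
    (exp (∑ i, f i) : ℤᵐ⁰) = ∏ i, exp (f i) := by
  classical
  induction (Finset.univ : Finset (Fin n)) using Finset.induction_on with
  | empty => simp
  | insert i s hi ih => rw [Finset.sum_insert hi, Finset.prod_insert hi, WithZero.exp_add, ih]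

theorem const_lattice {k E : Type} [Field k] [IsAlgClosed k] [CharZero k] [Field E] [Algebra k E]
    {n : ℕ} (u : Fin n → E) (hu : ∀ i, u i ≠ 0) (d : ℕ) (hd : ∀ i, DegLe k d (u i)) :
    ∃ R : Set (Fin n → ℤ), (∀ r ∈ R, ∀ i, |r i| ≤ d) ∧ ∀ l : Fin n → ℤ,
      (∏ i, u i ^ l i ∈ (algebraMap k E).range) ↔ ∀ r ∈ R, ∑ i, l i * r i = 0 := by
  have hval : ∀ (v : Valuation E ℤᵐ⁰) (r : Fin n → ℤ), (∀ i, v (u i) = exp (r i)) →
      ∀ l : Fin n → ℤ, v (∏ i, u i ^ l i) = exp (∑ i, l i * r i) := by
    intro v r hr l
    rw [map_prod, exp_sum']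
    refine Finset.prod_congr rfl fun i _ => ?_
    rw [map_zpow₀, hr i, ← WithZero.exp_zsmul, smul_eq_mul]
  refine ⟨{r | ∃ v : Valuation E ℤᵐ⁰, IsPlace k v ∧ ∀ i, v (u i) = exp (r i)}, ?_, ?_⟩
  · rintro r ⟨v, hv, hr⟩ i
    obtain ⟨s, hs, hsd⟩ := hv.bound (hu i) (hd i)
    rw [hr i] at hs
    rw [WithZero.exp_injective hs]
    exact hsd
  · intro l
    constructor
    · rintro ⟨c, hc⟩ r ⟨v, hv, hr⟩
      have h1 := hval v r hr l
      have hc0 : c ≠ 0 := by
        rintro rfl
        rw [map_zero] at hc
        have := Finset.prod_eq_zero_iff.1 hc.symm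
        obtain ⟨i, _, hi⟩ := this
        exact zpow_ne_zero _ (hu i) hi
      rw [← hc, hv.const c hc0, ← WithZero.exp_zero] at h1
      exact (WithZero.exp_injective h1).symm
    · intro h
      by_contra hcon
      -- the monomial is transcendental
      have htr : Transcendental k (∏ i, u i ^ l i) := by
        intro halg
        apply hcon
        exact minpoly.mem_range_of_degree_eq_one k _
          (IsAlgClosed.degree_eq_one_of_irreducible k (minpoly.irreducible halg.isIntegral))
      have hex : ∃ i, ¬ u i ∈ (algebraMap k E).range := by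
        by_contra hall
        push Not at hall
        apply hcon
        choose c hc using hall
        refine ⟨∏ i, c i ^ l i, ?_⟩
        rw [map_prod]
        exact Finset.prod_congr rfl fun i _ => by rw [map_zpow₀, hc i]
      obtain ⟨i, hi⟩ := hex
      rcases hd i with h1 | ⟨htri, hfin, _⟩
      · exact hi h1
      have hfin2 := finite_adjoin htri htr
      obtain ⟨v, hv, hvg⟩ := exists_place htr
      choose r hr hrd using fun i => hv.bound (hu i) (hd i)
      have h2 := h r ⟨v, hv, hr⟩
      rw [hval v r hr l, h2, WithZero.exp_zero] at hvg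
      exact lt_irrefl _ hvg

end Pool.Agent.M05Full
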