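import Pool.Agent.M05Full.Defs
import Pool.Agent.M05Full.Val

set_option autoImplicit false
set_option linter.unusedSectionVars false

/-! The degrees of the coordinate functions on a plane curve of degree at most three. -/

namespace Pool.Agent.M05Full

open MvPolynomial IntermediateField Module Pool.Agent.CITLines

/-- evaluation of the coefficients of a polynomial in the second variable -/
lemma deg_ev {k E : Type} [Field k] [Field E] [Algebra k E] (P : Fin 2 → E)
    (L : IntermediateField k E) (u : L) (hu : (u : E) = P 0) (A : MvPolynomial (Fin 2) k) :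
    Polynomial.aeval (P 1) (((finSuccEquiv k 1) (rename (Equiv.swap (0 : Fin 2) 1) A)).map
      (aeval (fun _ : Fin 1 => u) : MvPolynomial (Fin 1) k →ₐ[k] L).toRingHom) = aeval P A := by
  induction A using MvPolynomial.induction_on with
  | C a =>
    rw [rename_C, aeval_C]
    have h : finSuccEquiv k 1 (C a) = Polynomial.C (C a) := by
      rw [finSuccEquiv_apply, eval₂Hom_C]
      rfl
    rw [h, Polynomial.map_C, Polynomial.aeval_C]
    have h2 : (aeval (fun _ : Fin 1 => u) : MvPolynomial (Fin 1) k →ₐ[k] L).toRingHom (C a)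
        = algebraMap k L a := by
      show (aeval (fun _ : Fin 1 => u) : MvPolynomial (Fin 1) k →ₐ[k] L) (C a) = _
      rw [aeval_C]
    rw [h2]
    exact (IsScalarTower.algebraMap_apply k L E a).symm
  | add p q hp hq =>
    rw [map_add, map_add, Polynomial.map_add, map_add, hp, hq, map_add]
  | mul_X p i hp =>
    rw [map_mul, map_mul, Polynomial.map_mul, map_mul, hp, map_mul, rename_X, aeval_X]
    congr 1
    fin_cases i
    · show Polynomial.aeval (P 1) (((finSuccEquiv k 1) (X (Equiv.swap (0 : Fin 2) 1 0))).map _) = _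
      rw [Equiv.swap_apply_left]
      have h : finSuccEquiv k 1 (X 1) = Polynomial.C (X 0) := finSuccEquiv_X_succ (j := (0 : Fin 1))
      rw [h, Polynomial.map_C, Polynomial.aeval_C]
      have h2 : (aeval (fun _ : Fin 1 => u) : MvPolynomial (Fin 1) k →ₐ[k] L).toRingHom (X 0)
          = u := by
        show (aeval (fun _ : Fin 1 => u) : MvPolynomial (Fin 1) k →ₐ[k] L) (X 0) = _
        rw [aeval_X]
      rw [h2]
      exact hu
    · show Polynomial.aeval (P 1) (((finSuccEquiv k 1) (X (Equiv.swap (0 : Fin 2) 1 1))).map _) = _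
      rw [Equiv.swap_apply_right, finSuccEquiv_X_zero, Polynomial.map_X, Polynomial.aeval_X]
      rfl

/-- One generator `u = P 0` and a nonzero polynomial. -/
theorem deg_gen {k E : Type} [Field k] [IsAlgClosed k] [Field E] [Algebra k E]
    (P : Fin 2 → E) (hP : adjoin k (Set.range P) = ⊤) {A : MvPolynomial (Fin 2) k} (hA : A ≠ 0)
    (hPA : aeval P A = 0) {d : ℕ} (hd : degreeOf 1 A ≤ d) : DegLe k d (P 0) := by
  by_cases halg : IsAlgebraic k (P 0)
  · left
    have h1 : Algebra.IsAlgebraic k (adjoin k {P 0} : IntermediateField k E) :=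
      isAlgebraic_adjoin_simple halg.isIntegral
    have h2 := IntermediateField.eq_bot_of_isAlgClosed_of_isAlgebraic
      (adjoin k {P 0} : IntermediateField k E)
    have h3 : P 0 ∈ (adjoin k {P 0} : IntermediateField k E) := mem_adjoin_simple_self k _
    rw [h2, IntermediateField.mem_bot] at h3
    exact h3
  · right
    refine ⟨halg, ?_⟩
    set L : IntermediateField k E := adjoin k {P 0} with hL
    set u : L := ⟨P 0, mem_adjoin_simple_self k _⟩ with hu
    set φ : MvPolynomial (Fin 1) k →+* L :=
      (aeval (fun _ : Fin 1 => u) : MvPolynomial (Fin 1) k →ₐ[k] L).toRingHom with hφ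
    have hφi : Function.Injective φ := by
      have h1 : AlgebraicIndependent k (fun _ : Fin 1 => P 0) := by
        rw [algebraicIndependent_unique_type_iff]
        exact halg
      rw [algebraicIndependent_iff_injective_aeval] at h1
      intro a b hab
      apply h1
      have h2 : ∀ c : MvPolynomial (Fin 1) k, aeval (fun _ : Fin 1 => P 0) c = ((φ c : L) : E) := by
        intro c
        have h3 : (aeval (fun _ : Fin 1 => P 0) : MvPolynomial (Fin 1) k →ₐ[k] E)
            = L.val.comp (aeval (fun _ : Fin 1 => u)) := by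
          ext i
          simp [hu]
        rw [h3]
        rfl
      rw [h2, h2, hab]
    set A' : MvPolynomial (Fin 2) k := rename (Equiv.swap (0 : Fin 2) 1) A with hA'
    set p : Polynomial L := ((finSuccEquiv k 1) A').map φ with hp
    have hA'0 : A' ≠ 0 := by
      intro h
      apply hA
      apply rename_injective (R := k) _ (Equiv.swap (0 : Fin 2) 1).injective
      rw [map_zero]
      exact h
    have hp0 : p ≠ 0 := by
      rw [hp, Ne, Polynomial.map_eq_zero_iff hφi]
      intro h
      apply hA'0
      exact (map_eq_zero_iff (finSuccEquiv k 1) (finSuccEquiv k 1).injective).mp h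
    have hpd : p.natDegree ≤ d := by
      refine (Polynomial.natDegree_map_le).trans ?_
      rw [natDegree_finSuccEquiv]
      refine le_trans (le_of_eq ?_) hd
      have h1 := degreeOf_rename_of_injective (p := A) (Equiv.swap (0 : Fin 2) 1).injective 1
      rw [Equiv.swap_apply_right] at h1
      exact h1
    have hpe : Polynomial.aeval (P 1) p = 0 := by
      rw [hp, hφ, hA']
      rw [deg_ev P L u rfl A, hPA]
    have hint : IsIntegral L (P 1) := by
      rw [← isAlgebraic_iff_isIntegral]
      exact ⟨p, hp0, hpe⟩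
    have htop : (adjoin L {P 1} : IntermediateField L E) = ⊤ := by
      have h1 := adjoin_adjoin_left k {P 0} {P 1}
      have h2 : ({P 0} ∪ {P 1} : Set E) = Set.range P := by
        ext z
        simp only [Set.mem_union, Set.mem_singleton_iff, Set.mem_range]
        constructor
        · rintro (rfl | rfl)
          · exact ⟨0, rfl⟩
          · exact ⟨1, rfl⟩
        · rintro ⟨i, rfl⟩
          fin_cases i
          · left; rfl
          · right; rfl
      rw [h2, hP] at h1
      rw [eq_top_iff]
      intro z _
      have h3 : z ∈ (adjoin L {P 1} : IntermediateField L E).restrictScalars k := by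
        rw [hL] at *
        rw [h1]
        trivial
      exact h3
    have hfd : FiniteDimensional L (adjoin L {P 1} : IntermediateField L E) :=
      adjoin.finiteDimensional hint
    have hfr := adjoin.finrank hint
    rw [htop] at hfd hfr
    have hfd' : FiniteDimensional L E := by
      exact Module.Finite.equiv (topEquiv (F := L) (E := E)).toLinearEquiv
    refine ⟨hfd', ?_⟩
    rw [← finrank_top']
    rw [hfr]
    exact (Polynomial.natDegree_le_natDegree
      (minpoly.degree_le_of_ne_zero L (P 1) hp0 hpe)).trans hpd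

/-- a linear substitution does not raise the total degree -/
lemma deg_subst {k : Type} [Field k] (S : Fin 2 → MvPolynomial (Fin 2) k)
    (hS : ∀ i, totalDegree (S i) ≤ 1) (Q : MvPolynomial (Fin 2) k) :
    totalDegree (aeval S Q) ≤ totalDegree Q := by
  rw [aeval_def, eval₂_eq]
  refine totalDegree_finsetSum_le fun m hm => ?_
  refine (totalDegree_mul _ _).trans ?_
  have h1 : totalDegree ((algebraMap k (MvPolynomial (Fin 2) k)) (coeff m Q)) = 0 :=
    totalDegree_C _
  rw [h1, zero_add]
  refine (totalDegree_finsetProd _ _).trans ?_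
  refine le_trans ?_ (le_totalDegree hm)
  refine Finset.sum_le_sum fun i _ => ?_
  refine (totalDegree_pow _ _).trans ?_
  calc m i * totalDegree (S i) ≤ m i * 1 := Nat.mul_le_mul_left _ (hS i)
    _ = m i := mul_one _

lemma deg_sub {k E : Type} [Field k] [IsAlgClosed k] [Field E] [Algebra k E]
    (x y : E) (hP : adjoin k (Set.range ![x, y]) = ⊤) {Q : MvPolynomial (Fin 2) k} (hQ : Q ≠ 0)
    (hd : totalDegree Q ≤ 3) (hPQ : aeval ![x, y] Q = 0) (P : Fin 2 → E)
    (S S' : Fin 2 → MvPolynomial (Fin 2) k) (hS : ∀ i, totalDegree (S i) ≤ 1)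
    (hSS : ∀ i, aeval S' (S i) = X i) (hPS : ∀ i, aeval P (S i) = ![x, y] i) :
    DegLe k 3 (P 0) := by
  have h0 : ∀ B : MvPolynomial (Fin 2) k, aeval S' (aeval S B) = B := by
    intro B
    have h1 : ((aeval S' : MvPolynomial (Fin 2) k →ₐ[k] MvPolynomial (Fin 2) k).comp
        (aeval S)) = AlgHom.id k _ := by
      ext i : 1
      rw [AlgHom.comp_apply, aeval_X, hSS]
      rfl
    exact DFunLike.congr_fun h1 B
  have h2 : ∀ B : MvPolynomial (Fin 2) k, aeval P (aeval S B) = aeval ![x, y] B := by
    intro B
    have h1 : ((aeval P : MvPolynomial (Fin 2) k →ₐ[k] E).comp (aeval S)) = aeval ![x, y] := by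
      ext i : 1
      rw [AlgHom.comp_apply, aeval_X, hPS, aeval_X]
    exact DFunLike.congr_fun h1 B
  refine deg_gen P ?_ (A := aeval S Q) ?_ ?_ ?_
  · rw [eq_top_iff, ← hP, adjoin_le_iff]
    rintro _ ⟨i, rfl⟩
    rw [← hPS i]
    have h3 : ∀ B : MvPolynomial (Fin 2) k, aeval P B ∈ adjoin k (Set.range P) := by
      intro B
      induction B using MvPolynomial.induction_on with
      | C a => rw [aeval_C]; exact (adjoin k (Set.range P)).algebraMap_mem a
      | add p q hp hq => rw [map_add]; exact add_mem hp hq
      | mul_X p j hp =>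
        rw [map_mul, aeval_X]
        exact mul_mem hp (subset_adjoin k _ ⟨j, rfl⟩)
    exact h3 _
  · intro h
    apply hQ
    rw [← h0 Q, h, map_zero]
  · rw [h2, hPQ]
  · exact (degreeOf_le_totalDegree _ _).trans ((deg_subst S hS Q).trans hd)

theorem deg_pt {k E : Type} [Field k] [IsAlgClosed k] [Field E] [Algebra k E]
    (x y : E) (hP : adjoin k (Set.range ![x, y]) = ⊤) {Q : MvPolynomial (Fin 2) k} (hQ : Q ≠ 0)
    (hd : totalDegree Q ≤ 3) (hPQ : aeval ![x, y] Q = 0) (i : Fin 5) : DegLe k 3 (pt x y i) := by
  have hX : ∀ j : Fin 2, totalDegree (X j : MvPolynomial (Fin 2) k) ≤ 1 :=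
    fun j => (totalDegree_X j).le
  have h1X : ∀ j : Fin 2, totalDegree (1 - X j : MvPolynomial (Fin 2) k) ≤ 1 := by
    intro j
    refine (totalDegree_sub _ _).trans ?_
    rw [totalDegree_one, totalDegree_X]
    simp
  have hXX : totalDegree (X 0 + X 1 : MvPolynomial (Fin 2) k) ≤ 1 := by
    refine (totalDegree_add _ _).trans ?_
    rw [totalDegree_X, totalDegree_X]
    simp
  fin_cases i
  · refine deg_sub x y hP hQ hd hPQ ![x, y] ![X 0, X 1] ![X 0, X 1] ?_ ?_ ?_
    · intro j; fin_cases j <;> simp
    · intro j; fin_cases j <;> simp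
    · intro j; fin_cases j <;> simp
  · refine deg_sub x y hP hQ hd hPQ ![1 - x, y] ![1 - X 0, X 1] ![1 - X 0, X 1] ?_ ?_ ?_
    · intro j; fin_cases j
      · exact h1X 0
      · exact hX 1
    · intro j; fin_cases j <;> simp
    · intro j; fin_cases j <;> simp
  · refine deg_sub x y hP hQ hd hPQ ![y, x] ![X 1, X 0] ![X 1, X 0] ?_ ?_ ?_
    · intro j; fin_cases j <;> simp
    · intro j; fin_cases j <;> simp
    · intro j; fin_cases j <;> simp
  · refine deg_sub x y hP hQ hd hPQ ![1 - y, x] ![X 1, 1 - X 0] ![1 - X 1, X 0] ?_ ?_ ?_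
    · intro j; fin_cases j
      · exact hX 1
      · exact h1X 0
    · intro j; fin_cases j <;> simp
    · intro j; fin_cases j <;> simp
  · refine deg_sub x y hP hQ hd hPQ ![x - y, y] ![X 0 + X 1, X 1] ![X 0 - X 1, X 1] ?_ ?_ ?_
    · intro j; fin_cases j
      · exact hXX
      · exact hX 1
    · intro j; fin_cases j <;> simp
    · intro j; fin_cases j <;> simp

end Pool.Agent.M05Full
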