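import Pool.Agent.M05Full.Defs

set_option autoImplicit false

/-! If two monomials in the coordinate functions are constant on a curve then their Jacobian
vanishes on the curve. -/

namespace Pool.Agent.M05Full

open MvPolynomial Pool.Agent.CITLines

variable {k : Type} [Field k]

/-- The logarithmic derivative of a monomial times the product of the five functions. -/
private noncomputable def SS {P : Type} [CommRing P] (d f e : Fin 5 → P) : P :=
  e 0 * d 0 * (f 1 * f 2 * f 3 * f 4) + e 1 * d 1 * (f 0 * f 2 * f 3 * f 4)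
    + e 2 * d 2 * (f 0 * f 1 * f 3 * f 4) + e 3 * d 3 * (f 0 * f 1 * f 2 * f 4)
    + e 4 * d 4 * (f 0 * f 1 * f 2 * f 3)

private theorem mul_der_pow {P : Type} [CommRing P] [Algebra k P] (D : Derivation k P P) (f : P)
    (n : ℕ) : f * D (f ^ n) = n * f ^ n * D f := by
  rcases n with _ | n
  · simp
  · rw [Derivation.leibniz_pow]
    simp only [Nat.add_sub_cancel, nsmul_eq_mul, smul_eq_mul]
    ring

private theorem der_prod {P : Type} [CommRing P] [Algebra k P] (D : Derivation k P P)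
    (f : Fin 5 → P) (e : Fin 5 → ℕ) :
    (∏ i, f i) * D (∏ i, f i ^ e i) =
      (∏ i, f i ^ e i) * SS (fun i => D (f i)) f (fun i => (e i : P)) := by
  have h0 := mul_der_pow D (f 0) (e 0)
  have h1 := mul_der_pow D (f 1) (e 1)
  have h2 := mul_der_pow D (f 2) (e 2)
  have h3 := mul_der_pow D (f 3) (e 3)
  have h4 := mul_der_pow D (f 4) (e 4)
  simp only [Fin.prod_univ_five, SS, Derivation.leibniz, smul_eq_mul]
  linear_combination
    (f 1 ^ e 1 * f 2 ^ e 2 * f 3 ^ e 3 * f 4 ^ e 4) * (f 1 * f 2 * f 3 * f 4) * h0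
    + (f 0 ^ e 0 * f 2 ^ e 2 * f 3 ^ e 3 * f 4 ^ e 4) * (f 0 * f 2 * f 3 * f 4) * h1
    + (f 0 ^ e 0 * f 1 ^ e 1 * f 3 ^ e 3 * f 4 ^ e 4) * (f 0 * f 1 * f 3 * f 4) * h2
    + (f 0 ^ e 0 * f 1 ^ e 1 * f 2 ^ e 2 * f 4 ^ e 4) * (f 0 * f 1 * f 2 * f 4) * h3
    + (f 0 ^ e 0 * f 1 ^ e 1 * f 2 ^ e 2 * f 3 ^ e 3) * (f 0 * f 1 * f 2 * f 3) * h4

private theorem key (D : Derivation k (MvPolynomial (Fin 2) k) (MvPolynomial (Fin 2) k))
    {Q h : MvPolynomial (Fin 2) k} {l : Fin 5 → ℤ} {c : k} (hG : GG l c = Q * h) :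
    Q ∣ (∏ i, ff k i ^ (l i).toNat) * SS (fun i => D (ff k i)) (ff k)
      (fun i => ((l i : ℤ) : MvPolynomial (Fin 2) k)) - (∏ i, ff k i) * h * D Q := by
  have hA := der_prod D (ff k) (fun i => (l i).toNat)
  have hB := der_prod D (ff k) (fun i => (-l i).toNat)
  have hD : D (GG l c) = D (∏ i, ff k i ^ (l i).toNat)
      - C c * D (∏ i, ff k i ^ (-l i).toNat) := by
    unfold GG
    rw [map_sub, Derivation.leibniz]
    have : D (C c) = 0 := D.map_algebraMap c
    rw [this, smul_zero, add_zero, smul_eq_mul]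
  have hQ' : D (GG l c) = Q * D h + h * D Q := by
    rw [hG, Derivation.leibniz, smul_eq_mul, smul_eq_mul]
  have hGG : (∏ i, ff k i ^ (l i).toNat) - C c * (∏ i, ff k i ^ (-l i).toNat) = Q * h := hG
  have hl : ∀ i, (((l i).toNat : ℕ) : MvPolynomial (Fin 2) k)
      - (((-l i).toNat : ℕ) : MvPolynomial (Fin 2) k) = ((l i : ℤ) : MvPolynomial (Fin 2) k) := by
    intro i
    have := congrArg (fun z : ℤ => (z : MvPolynomial (Fin 2) k)) (Int.toNat_sub_toNat_neg (l i))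
    push_cast at this
    exact_mod_cast this
  have hS : SS (fun i => D (ff k i)) (ff k) (fun i => ((l i : ℤ) : MvPolynomial (Fin 2) k)) =
      SS (fun i => D (ff k i)) (ff k) (fun i => (((l i).toNat : ℕ) : MvPolynomial (Fin 2) k))
      - SS (fun i => D (ff k i)) (ff k)
        (fun i => (((-l i).toNat : ℕ) : MvPolynomial (Fin 2) k)) := by
    simp only [SS, ← hl]
    ring
  refine ⟨(∏ i, ff k i) * D h - h * SS (fun i => D (ff k i)) (ff k)
    (fun i => (((-l i).toNat : ℕ) : MvPolynomial (Fin 2) k)), ?_⟩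
  rw [hS]
  rw [hD] at hQ'
  linear_combination (-1) * hA + C c * hB + (∏ i, ff k i) * hQ'
    - (SS (fun i => D (ff k i)) (ff k)
      (fun i => (((-l i).toNat : ℕ) : MvPolynomial (Fin 2) k))) * hGG

private theorem not_dvd_prod {Q : MvPolynomial (Fin 2) k} (hQ : Prime Q)
    (hf : ∀ i, ¬ Q ∣ ff k i) (e : Fin 5 → ℕ) : ¬ Q ∣ ∏ i, ff k i ^ e i := by
  intro h
  obtain ⟨i, -, hi⟩ := (Prime.dvd_finsetProd_iff hQ _).1 h
  exact hf i (hQ.dvd_of_dvd_pow hi)

theorem jac {Q : MvPolynomial (Fin 2) k} (hQ : Irreducible Q) (hf : ∀ i, ¬ Q ∣ ff k i)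
    {l m : Fin 5 → ℤ} {c d : k} (h1 : Q ∣ GG l c) (h2 : Q ∣ GG m d) :
    Q ∣ JJ l m (X 0 : MvPolynomial (Fin 2) k) (X 1) := by
  have hP : Prime Q := hQ.prime
  obtain ⟨h, hh⟩ := h1
  obtain ⟨h', hh'⟩ := h2
  obtain ⟨u0, hu0⟩ := key (pderiv (0 : Fin 2)) hh
  obtain ⟨u1, hu1⟩ := key (pderiv (1 : Fin 2)) hh
  obtain ⟨v0, hv0⟩ := key (pderiv (0 : Fin 2)) hh'
  obtain ⟨v1, hv1⟩ := key (pderiv (1 : Fin 2)) hh'
  set A := ∏ i, ff k i ^ (l i).toNat with hA
  set B := ∏ i, ff k i ^ (m i).toNat with hB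
  set P := ∏ i, ff k i with hPdef
  set S0 := SS (fun i => pderiv (0 : Fin 2) (ff k i)) (ff k)
    (fun i => ((l i : ℤ) : MvPolynomial (Fin 2) k)) with hS0
  set S1 := SS (fun i => pderiv (1 : Fin 2) (ff k i)) (ff k)
    (fun i => ((l i : ℤ) : MvPolynomial (Fin 2) k)) with hS1
  set T0 := SS (fun i => pderiv (0 : Fin 2) (ff k i)) (ff k)
    (fun i => ((m i : ℤ) : MvPolynomial (Fin 2) k)) with hT0
  set T1 := SS (fun i => pderiv (1 : Fin 2) (ff k i)) (ff k)
    (fun i => ((m i : ℤ) : MvPolynomial (Fin 2) k)) with hT1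
  have hid : S0 * T1 - S1 * T0 = P * JJ l m (X 0) (X 1) := by
    have e10 : pderiv (1 : Fin 2) (X 0 : MvPolynomial (Fin 2) k) = 0 :=
      pderiv_X_of_ne (by decide)
    have e01 : pderiv (0 : Fin 2) (X 1 : MvPolynomial (Fin 2) k) = 0 :=
      pderiv_X_of_ne (by decide)
    rw [hS0, hS1, hT0, hT1, hPdef]
    simp only [SS, ff, pt, JJ, Fin.prod_univ_five, Matrix.cons_val_zero, Matrix.cons_val_one,
      Matrix.cons_val, map_sub, pderiv_X_self, e10, e01, Derivation.map_one_eq_zero]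
    push_cast
    ring
  have hdvd : Q ∣ A * B * (P * JJ l m (X 0) (X 1)) := by
    rw [← hid]
    refine ⟨u0 * (B * T1) + P * h * pderiv (0 : Fin 2) Q * v1 - u1 * (B * T0)
      - P * h * pderiv (1 : Fin 2) Q * v0, ?_⟩
    linear_combination (B * T1) * hu0 + P * h * pderiv (0 : Fin 2) Q * hv1
      - (B * T0) * hu1 - P * h * pderiv (1 : Fin 2) Q * hv0
  rcases hP.dvd_or_dvd hdvd with h3 | h3
  · rcases hP.dvd_or_dvd h3 with h4 | h4
    · exact absurd h4 (not_dvd_prod hP hf _)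
    · exact absurd h4 (not_dvd_prod hP hf _)
  · rcases hP.dvd_or_dvd h3 with h4 | h4
    · have := not_dvd_prod hP hf (fun _ => 1)
      simp only [pow_one] at this
      exact absurd h4 this
    · exact h4

private theorem deg_int (n : ℤ) : totalDegree ((n : ℤ) : MvPolynomial (Fin 2) k) = 0 := by
  have : ((n : ℤ) : MvPolynomial (Fin 2) k) = C (n : k) := (map_intCast (C : k →+* MvPolynomial (Fin 2) k) n).symm
  rw [this, totalDegree_C]

private theorem deg_term (n : ℤ) {a b c : MvPolynomial (Fin 2) k} (ha : a.totalDegree ≤ 1)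
    (hb : b.totalDegree ≤ 1) (hc : c.totalDegree ≤ 1) :
    totalDegree (((n : ℤ) : MvPolynomial (Fin 2) k) * (a * b * c)) ≤ 3 := by
  have h1 := totalDegree_mul ((n : ℤ) : MvPolynomial (Fin 2) k) (a * b * c)
  have h2 := totalDegree_mul (a * b) c
  have h3 := totalDegree_mul a b
  rw [deg_int] at h1
  omega

private theorem deg_add {a b : MvPolynomial (Fin 2) k} {n : ℕ} (ha : a.totalDegree ≤ n)
    (hb : b.totalDegree ≤ n) : (a + b).totalDegree ≤ n :=
  (totalDegree_add a b).trans (max_le ha hb)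

private theorem deg_sub {a b : MvPolynomial (Fin 2) k} {n : ℕ} (ha : a.totalDegree ≤ n)
    (hb : b.totalDegree ≤ n) : (a - b).totalDegree ≤ n :=
  (totalDegree_sub a b).trans (max_le ha hb)

theorem totalDegree_JJ_le (l m : Fin 5 → ℤ) :
    totalDegree (JJ l m (X 0 : MvPolynomial (Fin 2) k) (X 1)) ≤ 3 := by
  have hx : ∀ i : Fin 2, (X i : MvPolynomial (Fin 2) k).totalDegree ≤ 1 := fun i =>
    (totalDegree_X i).le
  have h1 : ∀ i : Fin 2, (1 - X i : MvPolynomial (Fin 2) k).totalDegree ≤ 1 := fun i =>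
    deg_sub (by rw [totalDegree_one]; exact Nat.zero_le 1) (hx i)
  have h2 : (X 0 - X 1 : MvPolynomial (Fin 2) k).totalDegree ≤ 1 := deg_sub (hx 0) (hx 1)
  unfold JJ
  refine deg_add (deg_sub (deg_add (deg_add (deg_sub (deg_sub (deg_sub ?_ ?_) ?_) ?_) ?_) ?_) ?_) ?_
  · exact deg_term _ (h1 0) (h1 1) h2
  · exact deg_term _ (h1 0) (hx 1) h2
  · exact deg_term _ (h1 0) (hx 1) (h1 1)
  · exact deg_term _ (hx 0) (h1 1) h2
  · exact deg_term _ (hx 0) (hx 1) h2
  · exact deg_term _ (hx 0) (hx 1) (h1 1)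
  · exact deg_term _ (hx 0) (h1 0) (h1 1)
  · exact deg_term _ (hx 0) (h1 0) (hx 1)

end Pool.Agent.M05Full
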