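import Pool.Agent.M05Full.Defs

set_option autoImplicit false

/-! The pairs of relations with vanishing Jacobian: the five pencils. -/

namespace Pool.Agent.M05Full

open MvPolynomial Pool.Agent.CITLines

/-- Exponents of the cross ratios `z` of the five pencils. -/
def za : Fin 5 → Fin 5 → ℤ :=
  ![![1, 0, 0, 0, 0], ![0, 0, 1, 0, 0], ![1, 0, -1, 0, 0], ![0, 1, 0, -1, 0], ![1, -1, -1, 1, 0]]

/-- Exponents of `1 - z` (up to the sign). -/
def zb : Fin 5 → Fin 5 → ℤ :=
  ![![0, 1, 0, 0, 0], ![0, 0, 0, 1, 0], ![0, 0, -1, 0, 1], ![0, 0, 0, -1, 1], ![0, -1, -1, 0, 1]]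

private theorem JJ_map {A B : Type} [CommRing A] [CommRing B] (f : A →+* B) (l m : Fin 5 → ℤ)
    (x y : A) : f (JJ l m x y) = JJ l m (f x) (f y) := by
  unfold JJ
  simp only [map_add, map_sub, map_mul, map_intCast, map_one]

private theorem JJ_int {k : Type} [Field k] [CharZero k] {l m : Fin 5 → ℤ}
    (h : JJ l m (X 0 : MvPolynomial (Fin 2) k) (X 1) = 0) (a b : ℤ) : JJ l m a b = 0 := by
  have h1 := congrArg (MvPolynomial.eval (![(a : k), (b : k)] : Fin 2 → k)) h
  rw [map_zero, JJ_map, MvPolynomial.eval_X, MvPolynomial.eval_X] at h1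
  have h2 : ((JJ l m a b : ℤ) : k) = JJ l m (a : k) (b : k) := by
    have := JJ_map (Int.castRingHom k) l m a b
    simpa using this
  have h3 : ((JJ l m a b : ℤ) : k) = 0 := by
    rw [h2]
    simpa using h1
  exact_mod_cast h3

theorem pencil_rel {k : Type} [Field k] [CharZero k] {l m : Fin 5 → ℤ} (hind : Ind2 l m)
    (h : JJ l m (X 0 : MvPolynomial (Fin 2) k) (X 1) = 0) :
    ∃ (j : Fin 5) (n s t s' t' : ℤ), n ≠ 0 ∧ n • za j = s • l + t • m ∧
      n • zb j = s' • l + t' • m := by
  have e1 := JJ_int h 0 2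
  have e2 := JJ_int h 0 (-1)
  have e3 := JJ_int h 1 2
  have e4 := JJ_int h 1 (-1)
  have e5 := JJ_int h 2 0
  have e6 := JJ_int h 2 1
  simp only [JJ, Int.cast_id] at e1 e2 e3 e4 e5 e6
  have h03 : l 0 * m 3 - l 3 * m 0 = 0 := by linarith
  have h04 : l 0 * m 4 - l 4 * m 0 = -(l 0 * m 2 - l 2 * m 0) := by linarith
  have h12 : l 1 * m 2 - l 2 * m 1 = 0 := by linarith
  have h14 : l 1 * m 4 - l 4 * m 1 = -(l 1 * m 3 - l 3 * m 1) := by linarith
  have h24 : l 2 * m 4 - l 4 * m 2 = l 0 * m 2 - l 2 * m 0 := by linarith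
  have h34 : l 3 * m 4 - l 4 * m 3 = l 1 * m 3 - l 3 * m 1 := by linarith
  clear e1 e2 e3 e4 e5 e6
  obtain ⟨p, hp⟩ : ∃ p, p = l 0 * m 1 - l 1 * m 0 := ⟨_, rfl⟩
  obtain ⟨q, hq⟩ : ∃ q, q = l 2 * m 3 - l 3 * m 2 := ⟨_, rfl⟩
  obtain ⟨a, ha⟩ : ∃ a, a = l 0 * m 2 - l 2 * m 0 := ⟨_, rfl⟩
  obtain ⟨b, hb⟩ : ∃ b, b = l 1 * m 3 - l 3 * m 1 := ⟨_, rfl⟩
  rw [← ha] at h04 h24
  rw [← hb] at h14 h34
  have r1 : p * q = a * b := by
    have : (l 0 * m 1 - l 1 * m 0) * (l 2 * m 3 - l 3 * m 2) -
      (l 0 * m 2 - l 2 * m 0) * (l 1 * m 3 - l 3 * m 1) +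
      (l 0 * m 3 - l 3 * m 0) * (l 1 * m 2 - l 2 * m 1) = 0 := by ring
    rw [← hp, ← hq, ← ha, ← hb, h03, h12] at this
    linarith
  have r2 : a * (p + b) = 0 := by
    have : (l 0 * m 1 - l 1 * m 0) * (l 2 * m 4 - l 4 * m 2) -
      (l 0 * m 2 - l 2 * m 0) * (l 1 * m 4 - l 4 * m 1) +
      (l 0 * m 4 - l 4 * m 0) * (l 1 * m 2 - l 2 * m 1) = 0 := by ring
    rw [← hp, ← ha, h24, h14, h12, h04] at this
    linarith
  have r3 : b * (p - a) = 0 := by
    have : (l 0 * m 1 - l 1 * m 0) * (l 3 * m 4 - l 4 * m 3) -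
      (l 0 * m 3 - l 3 * m 0) * (l 1 * m 4 - l 4 * m 1) +
      (l 0 * m 4 - l 4 * m 0) * (l 1 * m 3 - l 3 * m 1) = 0 := by ring
    rw [← hp, ← hb, h34, h03, h04] at this
    linarith
  have r4 : a * (b - q) = 0 := by
    have : (l 0 * m 2 - l 2 * m 0) * (l 3 * m 4 - l 4 * m 3) -
      (l 0 * m 3 - l 3 * m 0) * (l 2 * m 4 - l 4 * m 2) +
      (l 0 * m 4 - l 4 * m 0) * (l 2 * m 3 - l 3 * m 2) = 0 := by ring
    rw [← ha, ← hq, h34, h03, h04] at this
    linarith
  have r5 : b * (a + q) = 0 := by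
    have : (l 1 * m 2 - l 2 * m 1) * (l 3 * m 4 - l 4 * m 3) -
      (l 1 * m 3 - l 3 * m 1) * (l 2 * m 4 - l 4 * m 2) +
      (l 1 * m 4 - l 4 * m 1) * (l 2 * m 3 - l 3 * m 2) = 0 := by ring
    rw [← hb, ← hq, h24, h12, h14] at this
    linarith
  by_cases ha0 : a = 0
  · by_cases hb0 : b = 0
    · subst ha0 hb0
      have r1' : p * q = 0 := by linarith
      by_cases hp0 : p = 0
      · by_cases hq0 : q = 0
        · exfalso
          have hz : ∀ i j : Fin 5, l i * m j - l j * m i = 0 := by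
            intro i j
            fin_cases i <;> fin_cases j <;> simp only [Fin.zero_eta, Fin.mk_one, Fin.reduceFinMk] <;>
              linarith
          have hl0 : l = 0 := by
            funext i
            by_contra hi
            have := hind (-m i) (l i) (by
              funext j
              have := hz i j
              simp only [Pi.add_apply, Pi.smul_apply, smul_eq_mul, Pi.zero_apply]
              linarith)
            exact hi this.2
          have := hind 1 0 (by rw [hl0]; simp)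
          exact one_ne_zero this.1
        · refine ⟨1, q, m 3, -l 3, -m 2, l 2, hq0, ?_, ?_⟩ <;> funext i <;> fin_cases i <;>
            simp [za, zb] <;> linarith
      · have hq0 : q = 0 := (mul_eq_zero.1 r1').resolve_left hp0
        refine ⟨0, p, m 1, -l 1, -m 0, l 0, hp0, ?_, ?_⟩ <;> funext i <;> fin_cases i <;>
          simp [za, zb] <;> linarith
    · have hp0 : p = a := by
        have := (mul_eq_zero.1 r3).resolve_left hb0
        linarith
      have hq0 : q = -a := by
        have := (mul_eq_zero.1 r5).resolve_left hb0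
        linarith
      subst ha0
      refine ⟨3, b, -m 4, l 4, m 1, -l 1, hb0, ?_, ?_⟩ <;> funext i <;> fin_cases i <;>
        simp [za, zb] <;> linarith
  · have hp0 : p = -b := by
      have := (mul_eq_zero.1 r2).resolve_left ha0
      linarith
    have hq0 : q = b := by
      have := (mul_eq_zero.1 r4).resolve_left ha0
      linarith
    by_cases hb0 : b = 0
    · subst hb0
      refine ⟨2, a, -m 4, l 4, m 0, -l 0, ha0, ?_, ?_⟩ <;> funext i <;> fin_cases i <;>
        simp [za, zb] <;> linarith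
    · have hba : b = -a := by
        have := (mul_eq_zero.1 r3).resolve_left hb0
        linarith
      refine ⟨4, a, -m 4, l 4, m 0, -l 0, ha0, ?_, ?_⟩ <;> funext i <;> fin_cases i <;>
        simp [za, zb] <;> linarith

theorem six {E : Type} [Field E] [CharZero E] {z : E} (h1 : RU z) (h2 : RU (1 - z)) :
    z ^ 6 = 1 := by
  obtain ⟨m, hm, hm1⟩ := h1
  obtain ⟨n, hn, hn1⟩ := h2
  have hint : IsIntegral ℚ z := by
    refine ⟨Polynomial.X ^ m - 1, Polynomial.monic_X_pow_sub_C (1 : ℚ) hm.ne', ?_⟩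
    simp [hm1]
  have : Algebra.IsAlgebraic ℚ (IntermediateField.adjoin ℚ ({z} : Set E)) :=
    IntermediateField.isAlgebraic_adjoin fun x hx => by
      rw [Set.mem_singleton_iff.1 hx]
      exact hint
  let φ : IntermediateField.adjoin ℚ ({z} : Set E) →ₐ[ℚ] ℂ := IsAlgClosed.lift
  let z' : IntermediateField.adjoin ℚ ({z} : Set E) :=
    ⟨z, IntermediateField.mem_adjoin_simple_self ℚ z⟩
  have hz' : ((z' : IntermediateField.adjoin ℚ ({z} : Set E)) : E) = z := rfl
  have hm' : z' ^ m = 1 := Subtype.ext (by simpa [hz'] using hm1)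
  have hn' : (1 - z') ^ n = 1 := Subtype.ext (by simpa [hz'] using hn1)
  have w1 : ‖φ z'‖ = 1 := Complex.norm_eq_one_of_pow_eq_one (by rw [← map_pow, hm', map_one]) hm.ne'
  have w2 : ‖1 - φ z'‖ = 1 := Complex.norm_eq_one_of_pow_eq_one (n := n) (by
    rw [← map_one φ, ← map_sub, ← map_pow, hn']) hn.ne'
  set w := φ z' with hw
  have n1 : w.re * w.re + w.im * w.im = 1 := by
    have := Complex.normSq_eq_norm_sq w
    rw [w1, Complex.normSq_apply] at this
    simpa using this
  have n2 : (1 - w.re) * (1 - w.re) + w.im * w.im = 1 := by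
    have := Complex.normSq_eq_norm_sq (1 - w)
    rw [w2, Complex.normSq_apply] at this
    simpa using this
  have hre : w.re = 1 / 2 := by nlinarith
  have him : w.im * w.im = 3 / 4 := by
    rw [hre] at n1
    linarith
  have hq : w ^ 2 - w + 1 = 0 := by
    apply Complex.ext
    · simp [pow_two, hre]
      linarith
    · simp [pow_two, hre]
      ring
  have h6 : w ^ 6 = 1 := by
    have : w ^ 6 - 1 = (w ^ 2 - w + 1) * (w ^ 4 + w ^ 3 - w - 1) := by ring
    rw [hq, zero_mul, sub_eq_zero] at this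
    exact this
  have h7 : z' ^ 6 = 1 := by
    apply φ.injective
    rw [map_pow, map_one]
    exact h6
  have h8 := congrArg (Subtype.val) h7
  simpa [hz'] using h8

private theorem RU_neg {E : Type} [Field E] {z : E} (h : RU z) : RU (-z) := by
  have h1 : RU (-1 : E) := ⟨2, by norm_num, by ring⟩
  have := h1.mul h
  rwa [neg_one_mul] at this

/-- If the Jacobian vanishes identically then one of five relations holds. -/
theorem pencil {k : Type} [Field k] [CharZero k] {l m : Fin 5 → ℤ} (hind : Ind2 l m)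
    (h : JJ l m (X 0 : MvPolynomial (Fin 2) k) (X 1) = 0) {F : Type} [Field F] [CharZero F]
    (x y : F) (h0 : ∀ i, pt x y i ≠ 0) (hl : RU (mon (pt x y) l)) (hm : RU (mon (pt x y) m)) :
    ∃ j : Fin 5, mon (pt x y) ((6 : ℤ) • za j) = 1 := by
  obtain ⟨j, n, s, t, s', t', hn, ha, hb⟩ := pencil_rel hind h
  refine ⟨j, ?_⟩
  have hl' : l ∈ relZ (pt x y) := hl
  have hm' : m ∈ relZ (pt x y) := hm
  have ha' : RU (mon (pt x y) (za j)) := by
    refine mem_relZ.1 (relZ_saturated hn ?_)
    rw [ha]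
    exact (relZ (pt x y)).add_mem ((relZ (pt x y)).smul_mem _ hl')
      ((relZ (pt x y)).smul_mem _ hm')
  have hb' : RU (mon (pt x y) (zb j)) := by
    refine mem_relZ.1 (relZ_saturated hn ?_)
    rw [hb]
    exact (relZ (pt x y)).add_mem ((relZ (pt x y)).smul_mem _ hl')
      ((relZ (pt x y)).smul_mem _ hm')
  have hx : x ≠ 0 := by simpa [pt] using h0 0
  have hx1 : 1 - x ≠ 0 := by simpa [pt] using h0 1
  have hy : y ≠ 0 := by simpa [pt] using h0 2
  have hy1 : 1 - y ≠ 0 := by simpa [pt] using h0 3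
  have key : RU (1 - mon (pt x y) (za j)) := by
    have hcase : 1 - mon (pt x y) (za j) = mon (pt x y) (zb j) ∨
        1 - mon (pt x y) (za j) = -mon (pt x y) (zb j) := by
      fin_cases j
      · left
        simp [mon, Fin.prod_univ_five, za, zb, pt]
      · left
        simp [mon, Fin.prod_univ_five, za, zb, pt]
      · right
        simp [mon, Fin.prod_univ_five, za, zb, pt]
        field_simp
        ring
      · left
        simp [mon, Fin.prod_univ_five, za, zb, pt]
        field_simp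
        ring
      · right
        simp [mon, Fin.prod_univ_five, za, zb, pt]
        field_simp
        ring
    rcases hcase with h1 | h1
    · rw [h1]
      exact hb'
    · rw [h1]
      exact RU_neg hb'
  have h6 := six ha' key
  rw [mon_smul]
  exact_mod_cast h6

end Pool.Agent.M05Full
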