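import Pool.Agent.M05Full.Bezout
import Pool.Agent.M05Full.Jac
import Pool.Agent.M05Full.Pencil
import Pool.Agent.M05Full.Deg

set_option autoImplicit false

/-! The curves of the surface in torsion cosets of codimension two. -/

namespace Pool.Agent.M05Full

open MvPolynomial Pool.Agent.CITLines

section

variable {k : Type} [Field k] {F : Type} [Field F] [Algebra k F] {x y : F}

theorem aeval_ff (i : Fin 5) : aeval ![x, y] (ff k i) = pt x y i := by
  fin_cases i <;> simp [ff, pt]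

private theorem mon_split (h0 : ∀ i, pt x y i ≠ 0) (lam : Fin 5 → ℤ) :
    mon (pt x y) lam * ∏ i, pt x y i ^ (-lam i).toNat = ∏ i, pt x y i ^ (lam i).toNat := by
  rw [mon, ← Finset.prod_mul_distrib]
  refine Finset.prod_congr rfl fun i _ => ?_
  rw [← zpow_natCast, ← zpow_natCast, ← zpow_add₀ (h0 i)]
  congr 1
  omega

theorem gg_iff (h0 : ∀ i, pt x y i ≠ 0) (lam : Fin 5 → ℤ) (c : k) :
    aeval ![x, y] (GG lam c) = 0 ↔ mon (pt x y) lam = algebraMap k F c := by
  have h1 : (∏ i, pt x y i ^ (-lam i).toNat) ≠ 0 :=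
    Finset.prod_ne_zero_iff.2 fun i _ => pow_ne_zero _ (h0 i)
  rw [GG, map_sub, map_mul, map_prod, map_prod, algHom_C, sub_eq_zero]
  simp only [map_pow, aeval_ff]
  rw [← mon_split h0, mul_left_inj' h1]

theorem gg_ne_zero [CharZero k] {lam : Fin 5 → ℤ} (hl : lam ≠ 0) {c : k} (hc : c ≠ 0) :
    GG lam c ≠ 0 := by
  obtain ⟨i, hi⟩ : ∃ i, lam i ≠ 0 := by
    by_contra hcon
    push Not at hcon
    exact hl (funext hcon)
  obtain ⟨a, b, h1, h2⟩ : ∃ a b : k, pt a b i = 0 ∧ ∀ j, j ≠ i → pt a b j ≠ 0 := by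
    have t2 : (2 : k) ≠ 0 := two_ne_zero
    have t3 : (3 : k) ≠ 0 := three_ne_zero
    fin_cases i
    · refine ⟨0, 2, rfl, fun j hj => ?_⟩
      fin_cases j
      · exact absurd rfl hj
      · simp [pt]
      · simp [pt]
      · change (1 : k) - 2 ≠ 0
        norm_num
      · change (0 : k) - 2 ≠ 0
        norm_num
    · refine ⟨1, 3, sub_self _, fun j hj => ?_⟩
      fin_cases j
      · simp [pt]
      · exact absurd rfl hj
      · simp [pt]
      · change (1 : k) - 3 ≠ 0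
        norm_num
      · change (1 : k) - 3 ≠ 0
        norm_num
    · refine ⟨2, 0, rfl, fun j hj => ?_⟩
      fin_cases j
      · simp [pt]
      · change (1 : k) - 2 ≠ 0
        norm_num
      · exact absurd rfl hj
      · change (1 : k) - 0 ≠ 0
        norm_num
      · change (2 : k) - 0 ≠ 0
        norm_num
    · refine ⟨3, 1, sub_self _, fun j hj => ?_⟩
      fin_cases j
      · simp [pt]
      · change (1 : k) - 3 ≠ 0
        norm_num
      · simp [pt]
      · exact absurd rfl hj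
      · change (3 : k) - 1 ≠ 0
        norm_num
    · refine ⟨2, 2, sub_self _, fun j hj => ?_⟩
      fin_cases j
      · simp [pt]
      · change (1 : k) - 2 ≠ 0
        norm_num
      · simp [pt]
      · change (1 : k) - 2 ≠ 0
        norm_num
      · exact absurd rfl hj
  intro h
  have h3 := congrArg (aeval ![a, b]) h
  rw [GG, map_sub, map_mul, map_prod, map_prod, algHom_C, map_zero] at h3
  simp only [map_pow, aeval_ff] at h3
  have h4 : ∀ e : Fin 5 → ℕ, e i = 0 → ∏ j, pt a b j ^ e j ≠ 0 := by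
    intro e he
    refine Finset.prod_ne_zero_iff.2 fun j _ => ?_
    by_cases hj : j = i
    · rw [hj, he, pow_zero]
      exact one_ne_zero
    · exact pow_ne_zero _ (h2 j hj)
  have h5 : ∀ e : Fin 5 → ℕ, e i ≠ 0 → ∏ j, pt a b j ^ e j = 0 := by
    intro e he
    refine Finset.prod_eq_zero (Finset.mem_univ i) ?_
    rw [h1, zero_pow he]
  rcases lt_or_gt_of_ne hi with h6 | h6
  · rw [h5 (fun j => (-lam j).toNat) (by omega), mul_zero, sub_zero] at h3
    exact h4 (fun j => (lam j).toNat) (by omega) h3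
  · rw [h5 (fun j => (lam j).toNat) (by omega), zero_sub, neg_eq_zero, mul_eq_zero] at h3
    rcases h3 with h3 | h3
    · exact hc h3
    · exact h4 (fun j => (-lam j).toNat) (by omega) h3

theorem exists_irr_zero {A : MvPolynomial (Fin 2) k} (hA : A ≠ 0)
    (h : aeval ![x, y] A = 0) :
    ∃ Q : MvPolynomial (Fin 2) k, Irreducible Q ∧ aeval ![x, y] Q = 0 := by
  obtain ⟨u, hu⟩ := UniqueFactorizationMonoid.factors_prod hA
  have h1 : aeval ![x, y] (UniqueFactorizationMonoid.factors A).prod = 0 := by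
    rw [← hu, map_mul, mul_eq_zero] at h
    refine h.resolve_right fun h2 => ?_
    have h3 : IsUnit (aeval ![x, y] (u : MvPolynomial (Fin 2) k)) := u.isUnit.map _
    exact h3.ne_zero h2
  rw [map_multiset_prod, Multiset.prod_eq_zero_iff, Multiset.mem_map] at h1
  obtain ⟨Q, hQ, hQ0⟩ := h1
  exact ⟨Q, UniqueFactorizationMonoid.irreducible_of_factor Q hQ, hQ0⟩

theorem mem_range_of_finite [IsAlgClosed k] (E : IntermediateField k F)
    (hE : FiniteDimensional k E) {z : F} (hz : z ∈ E) : z ∈ (algebraMap k F).range := by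
  obtain ⟨c, hc⟩ := (IsAlgClosed.algebraMap_bijective_of_isIntegral (k := k) (K := E)).2 ⟨z, hz⟩
  exact ⟨c, congrArg (algebraMap E F) hc⟩

theorem dvd_of_zero [IsAlgClosed k]
    (hxy : ¬ (x ∈ (algebraMap k F).range ∧ y ∈ (algebraMap k F).range))
    {Q A : MvPolynomial (Fin 2) k} (hQ : Irreducible Q) (hQ0 : aeval ![x, y] Q = 0)
    (hA : aeval ![x, y] A = 0) : Q ∣ A := by
  by_contra hcon
  have hA0 : A ≠ 0 := fun h => hcon (h ▸ dvd_zero Q)
  have h1 : IsRelPrime Q A := (hQ.isRelPrime_iff_not_dvd).2 hcon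
  obtain ⟨h2, -⟩ := bezout hQ.ne_zero hA0 h1 ![x, y] hQ0 hA
  apply hxy
  constructor
  · exact mem_range_of_finite _ h2 (IntermediateField.subset_adjoin _ _ ⟨0, rfl⟩)
  · exact mem_range_of_finite _ h2 (IntermediateField.subset_adjoin _ _ ⟨1, rfl⟩)

theorem ru_range [IsAlgClosed k] {z : F} (hz : RU z) :
    ∃ c : k, c ≠ 0 ∧ z = algebraMap k F c := by
  have h0 := hz.ne_zero
  obtain ⟨n, hn, h⟩ := hz
  have h1 : IsIntegral k z := by
    refine IsIntegral.of_pow hn ?_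
    rw [h]
    exact isIntegral_one
  have h2 : FiniteDimensional k (IntermediateField.adjoin k {z}) :=
    IntermediateField.adjoin.finiteDimensional h1
  obtain ⟨c, hc⟩ := mem_range_of_finite _ h2 (IntermediateField.mem_adjoin_simple_self k z)
  refine ⟨c, ?_, hc.symm⟩
  rintro rfl
  rw [map_zero] at hc
  exact h0 hc.symm

end

/-- The relations for the factors of one polynomial. -/
private theorem exists_rel {k : Type} [Field k] {J : MvPolynomial (Fin 2) k} (hJ : J ≠ 0) :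
    ∃ E : Finset (Fin 5 → ℤ), 0 ∉ E ∧ ∀ Q : MvPolynomial (Fin 2) k, Irreducible Q → Q ∣ J →
      ∀ a : Fin 5 → ℤ, a ≠ 0 → Q ∣ GG a 1 → ∃ a' ∈ E, Q ∣ GG a' 1 := by
  classical
  have h1 : ∀ q : MvPolynomial (Fin 2) k, ∃ a' : Fin 5 → ℤ, a' ≠ 0 ∧
      ∀ a : Fin 5 → ℤ, a ≠ 0 → q ∣ GG a 1 → q ∣ GG a' 1 := by
    intro q
    by_cases h : ∃ a : Fin 5 → ℤ, a ≠ 0 ∧ q ∣ GG a 1
    · obtain ⟨a, ha, h2⟩ := h
      exact ⟨a, ha, fun _ _ _ => h2⟩
    · refine ⟨fun _ => 1, fun h2 => one_ne_zero (congrFun h2 0), fun a ha h2 => ?_⟩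
      exact absurd ⟨a, ha, h2⟩ h
  choose g hg1 hg2 using h1
  refine ⟨(UniqueFactorizationMonoid.factors J).toFinset.image g, ?_, ?_⟩
  · intro h
    obtain ⟨q, _, hq⟩ := Finset.mem_image.1 h
    exact hg1 q hq
  · intro Q hQ hQJ a ha hQa
    obtain ⟨q, hq, hQq⟩ := UniqueFactorizationMonoid.exists_mem_factors_of_dvd hJ hQ hQJ
    refine ⟨g q, Finset.mem_image_of_mem g (Multiset.mem_toFinset.2 hq), ?_⟩
    exact hQq.dvd.trans (hg2 q a ha (hQq.symm.dvd.trans hQa))

/-- The relations for one lattice. -/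
private theorem exists_rel_lattice (k : Type) [Field k] (R : Set (Fin 5 → ℤ)) :
    ∃ E : Finset (Fin 5 → ℤ), 0 ∉ E ∧ ∀ Q : MvPolynomial (Fin 2) k, Irreducible Q →
      (∀ l m : Fin 5 → ℤ, (∀ r ∈ R, ∑ i, l i * r i = 0) → (∀ r ∈ R, ∑ i, m i * r i = 0) →
        Q ∣ JJ l m (X 0 : MvPolynomial (Fin 2) k) (X 1)) →
      (∃ l m : Fin 5 → ℤ, (∀ r ∈ R, ∑ i, l i * r i = 0) ∧ (∀ r ∈ R, ∑ i, m i * r i = 0) ∧
        JJ l m (X 0 : MvPolynomial (Fin 2) k) (X 1) ≠ 0) →
      ∀ a : Fin 5 → ℤ, a ≠ 0 → Q ∣ GG a 1 → ∃ a' ∈ E, Q ∣ GG a' 1 := by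
  by_cases h : ∃ l m : Fin 5 → ℤ, (∀ r ∈ R, ∑ i, l i * r i = 0) ∧
      (∀ r ∈ R, ∑ i, m i * r i = 0) ∧ JJ l m (X 0 : MvPolynomial (Fin 2) k) (X 1) ≠ 0
  · obtain ⟨l, m, hl, hm, h1⟩ := h
    obtain ⟨E, hE, hE2⟩ := exists_rel h1
    exact ⟨E, hE, fun Q hQ h2 _ => hE2 Q hQ (h2 l m hl hm)⟩
  · exact ⟨∅, Finset.notMem_empty _, fun Q hQ h2 h3 => absurd h3 h⟩

theorem za_ne_zero (j : Fin 5) : (6 : ℤ) • za j ≠ 0 := by
  revert j
  decide

theorem curve (k : Type) [Field k] [IsAlgClosed k] [CharZero k] :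
    ∃ E : Finset (Fin 5 → ℤ), 0 ∉ E ∧ CL k E := by
  classical
  choose g hg1 hg2 using exists_rel_lattice k
  set Box : Set (Fin 5 → ℤ) := {r | ∀ i, |r i| ≤ 3} with hBox
  have hBoxf : Box.Finite := by
    refine (Set.finite_Icc (fun _ => (-3 : ℤ)) (fun _ => 3)).subset fun r hr => ?_
    exact ⟨fun i => (abs_le.1 (hr i)).1, fun i => (abs_le.1 (hr i)).2⟩
  have hsub : {R : Set (Fin 5 → ℤ) | R ⊆ Box}.Finite := hBoxf.finite_subsets
  refine ⟨(Finset.univ.image fun j => (6 : ℤ) • za j) ∪ hsub.toFinset.biUnion g, ?_, ?_⟩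
  · intro h
    rw [Finset.mem_union, Finset.mem_image, Finset.mem_biUnion] at h
    rcases h with ⟨j, -, h⟩ | ⟨R, -, h⟩
    · exact za_ne_zero j h
    · exact hg1 R h
  intro F _ _ x y h0 hxy l m hind hl hm
  have hF : CharZero F := charZero_of_injective_algebraMap (algebraMap k F).injective
  obtain ⟨c, hc, hlc⟩ := ru_range (k := k) hl
  obtain ⟨d, hd, hmd⟩ := ru_range (k := k) hm
  have hl0 : l ≠ 0 := by
    rintro rfl
    have := (hind 1 0 (by simp)).1
    exact one_ne_zero this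
  have hA0 : aeval ![x, y] (GG l c) = 0 := (gg_iff h0 l c).2 hlc
  have hB0 : aeval ![x, y] (GG m d) = 0 := (gg_iff h0 m d).2 hmd
  obtain ⟨Q, hQ, hQ0⟩ := exists_irr_zero (gg_ne_zero hl0 hc) hA0
  have hff : ∀ i, ¬ Q ∣ ff k i := by
    rintro i ⟨A, hA⟩
    have h1 := congrArg (aeval ![x, y]) hA
    rw [aeval_ff, map_mul, hQ0, zero_mul] at h1
    exact h0 i h1
  have hjac : ∀ (l m : Fin 5 → ℤ), mon (pt x y) l ∈ (algebraMap k F).range →
      mon (pt x y) m ∈ (algebraMap k F).range →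
      Q ∣ JJ l m (X 0 : MvPolynomial (Fin 2) k) (X 1) := by
    rintro l m ⟨c, hc⟩ ⟨d, hd⟩
    exact jac hQ hff (dvd_of_zero hxy hQ hQ0 ((gg_iff h0 l c).2 hc.symm))
      (dvd_of_zero hxy hQ hQ0 ((gg_iff h0 m d).2 hd.symm))
  have hlr : mon (pt x y) l ∈ (algebraMap k F).range := ⟨c, hlc.symm⟩
  have hmr : mon (pt x y) m ∈ (algebraMap k F).range := ⟨d, hmd.symm⟩
  by_cases hJ : JJ l m (X 0 : MvPolynomial (Fin 2) k) (X 1) = 0
  · obtain ⟨j, hj⟩ := pencil hind hJ x y h0 hl hm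
    exact ⟨_, Finset.mem_union_left _ (Finset.mem_image_of_mem _ (Finset.mem_univ j)), hj⟩
  -- the degree of the curve is at most three
  obtain ⟨B, hB⟩ := hjac l m hlr hmr
  have hdeg : totalDegree Q ≤ 3 := by
    have hB0 : B ≠ 0 := by
      rintro rfl
      rw [mul_zero] at hB
      exact hJ hB
    have h1 := totalDegree_JJ_le (k := k) l m
    rw [hB, totalDegree_mul_of_isDomain hQ.ne_zero hB0] at h1
    omega
  -- the function field
  set E := IntermediateField.adjoin k (Set.range ![x, y]) with hE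
  set x0 : E := ⟨x, IntermediateField.subset_adjoin _ _ ⟨0, rfl⟩⟩ with hx0
  set y0 : E := ⟨y, IntermediateField.subset_adjoin _ _ ⟨1, rfl⟩⟩ with hy0
  have hval : ∀ i, algebraMap E F (pt x0 y0 i) = pt x y i := by
    intro i
    fin_cases i <;> rfl
  have htop : IntermediateField.adjoin k (Set.range ![x0, y0]) = ⊤ := by
    apply IntermediateField.map_injective E.val
    rw [IntermediateField.adjoin_map, ← AlgHom.fieldRange_eq_map, IntermediateField.fieldRange_val]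
    have h1 : E.val '' Set.range ![x0, y0] = Set.range ![x, y] := by
      ext z
      simp [Set.mem_image, hx0, hy0, eq_comm]
    rw [h1]
  have hQE : aeval ![x0, y0] Q = 0 := by
    apply (algebraMap E F).injective
    rw [map_zero]
    have h1 : algebraMap E F (aeval ![x0, y0] Q) = aeval ![x, y] Q := by
      have h2 : (aeval ![x, y] : MvPolynomial (Fin 2) k →ₐ[k] F) =
          (IsScalarTower.toAlgHom k E F).comp (aeval ![x0, y0]) := by
        apply algHom_ext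
        intro i
        fin_cases i
        · simp [hx0]
        · simp [hy0]
      rw [h2]
      rfl
    rw [h1, hQ0]
  have h00 : ∀ i, pt x0 y0 i ≠ 0 := by
    intro i h
    apply h0 i
    rw [← hval, h, map_zero]
  obtain ⟨R, hR1, hR2⟩ := const_lattice (pt x0 y0) h00 3
    (fun i => deg_pt x0 y0 htop hQ.ne_zero hdeg hQE i)
  have hR3 : ∀ lam : Fin 5 → ℤ, mon (pt x y) lam ∈ (algebraMap k F).range ↔
      ∀ r ∈ R, ∑ i, lam i * r i = 0 := by
    intro lam
    rw [← hR2]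
    have h1 : algebraMap E F (∏ i, pt x0 y0 i ^ lam i) = mon (pt x y) lam := by
      rw [map_prod, mon]
      simp only [map_zpow₀, hval]
    rw [← h1]
    constructor
    · rintro ⟨c, hc⟩
      refine ⟨c, (algebraMap E F).injective ?_⟩
      rw [← hc]
      rfl
    · rintro ⟨c, hc⟩
      refine ⟨c, ?_⟩
      rw [← hc]
      rfl
  obtain ⟨n, hn, hln⟩ := hl
  have hna : ((n : ℤ) • l) ≠ 0 := by
    intro h
    have := (hind (n : ℤ) 0 (by rw [h, zero_smul, zero_add])).1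
    omega
  obtain ⟨a, haE, ha⟩ := hg2 R Q hQ
    (fun l m hl hm => hjac l m ((hR3 l).2 hl) ((hR3 m).2 hm))
    ⟨l, m, (hR3 l).1 hlr, (hR3 m).1 hmr, hJ⟩ _ hna
    (dvd_of_zero hxy hQ hQ0 ((gg_iff h0 _ 1).2 (by
      rw [mon_smul, zpow_natCast, hln, map_one])))
  refine ⟨a, Finset.mem_union_right _ (Finset.mem_biUnion.2 ⟨R, ?_, haE⟩), ?_⟩
  · rw [Set.Finite.mem_toFinset]
    intro r hr i
    exact_mod_cast hR1 r hr i
  · obtain ⟨B, hB⟩ := ha
    have h1 : aeval ![x, y] (GG a (1 : k)) = 0 := by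
      rw [hB, map_mul, hQ0, zero_mul]
    have h2 := (gg_iff h0 a (1 : k)).1 h1
    rw [h2, map_one]

/-- The polynomial of one lattice. -/
private theorem exists_J (k : Type) [Field k] (R : Set (Fin 5 → ℤ)) :
    ∃ J : MvPolynomial (Fin 2) k, J ≠ 0 ∧ ∀ Q : MvPolynomial (Fin 2) k,
      (∀ l m : Fin 5 → ℤ, (∀ r ∈ R, ∑ i, l i * r i = 0) → (∀ r ∈ R, ∑ i, m i * r i = 0) →
        Q ∣ JJ l m (X 0 : MvPolynomial (Fin 2) k) (X 1)) →
      (∃ l m : Fin 5 → ℤ, (∀ r ∈ R, ∑ i, l i * r i = 0) ∧ (∀ r ∈ R, ∑ i, m i * r i = 0) ∧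
        JJ l m (X 0 : MvPolynomial (Fin 2) k) (X 1) ≠ 0) → Q ∣ J := by
  by_cases h : ∃ l m : Fin 5 → ℤ, (∀ r ∈ R, ∑ i, l i * r i = 0) ∧
      (∀ r ∈ R, ∑ i, m i * r i = 0) ∧ JJ l m (X 0 : MvPolynomial (Fin 2) k) (X 1) ≠ 0
  · obtain ⟨l, m, hl, hm, h1⟩ := h
    exact ⟨_, h1, fun Q h2 _ => h2 l m hl hm⟩
  · exact ⟨1, one_ne_zero, fun Q h2 h3 => absurd h3 h⟩

/-- The irreducible curves with two independent relations form a finite list. -/
theorem curve_list (k : Type) [Field k] [IsAlgClosed k] [CharZero k] :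
    ∃ S : Finset (MvPolynomial (Fin 2) k), ∀ (F : Type) [Field F] [Algebra k F] (x y : F),
      (∀ i, pt x y i ≠ 0) → ¬ (x ∈ (algebraMap k F).range ∧ y ∈ (algebraMap k F).range) →
      ∀ l m : Fin 5 → ℤ, Ind2 l m → RU (mon (pt x y) l) → RU (mon (pt x y) m) →
      ∃ Q ∈ S, Irreducible Q ∧ aeval ![x, y] Q = 0 := by
  classical
  choose J hJ0 hJ2 using exists_J k
  set Box : Set (Fin 5 → ℤ) := {r | ∀ i, |r i| ≤ 3} with hBox
  have hBoxf : Box.Finite := by
    refine (Set.finite_Icc (fun _ => (-3 : ℤ)) (fun _ => 3)).subset fun r hr => ?_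
    exact ⟨fun i => (abs_le.1 (hr i)).1, fun i => (abs_le.1 (hr i)).2⟩
  have hsub : {R : Set (Fin 5 → ℤ) | R ⊆ Box}.Finite := hBoxf.finite_subsets
  refine ⟨(Finset.univ.biUnion fun j =>
      (UniqueFactorizationMonoid.factors (GG ((6 : ℤ) • za j) (1 : k))).toFinset) ∪
      hsub.toFinset.biUnion fun R => (UniqueFactorizationMonoid.factors (J R)).toFinset, ?_⟩
  intro F _ _ x y h0 hxy l m hind hl hm
  have hF : CharZero F := charZero_of_injective_algebraMap (algebraMap k F).injective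
  -- from a divisor to a member of the list
  have hlist : ∀ (Q B : MvPolynomial (Fin 2) k), Irreducible Q → aeval ![x, y] Q = 0 → B ≠ 0 →
      Q ∣ B → ∃ Q' ∈ (UniqueFactorizationMonoid.factors B).toFinset,
        Irreducible Q' ∧ aeval ![x, y] Q' = 0 := by
    intro Q B hQ hQ0 hB hQB
    obtain ⟨q, hq, hQq⟩ := UniqueFactorizationMonoid.exists_mem_factors_of_dvd hB hQ hQB
    refine ⟨q, Multiset.mem_toFinset.2 hq, UniqueFactorizationMonoid.irreducible_of_factor q hq, ?_⟩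
    obtain ⟨A, hA⟩ := hQq.dvd
    rw [hA, map_mul, hQ0, zero_mul]
  obtain ⟨c, hc, hlc⟩ := ru_range (k := k) hl
  obtain ⟨d, hd, hmd⟩ := ru_range (k := k) hm
  have hl0 : l ≠ 0 := by
    rintro rfl
    have := (hind 1 0 (by simp)).1
    exact one_ne_zero this
  have hA0 : aeval ![x, y] (GG l c) = 0 := (gg_iff h0 l c).2 hlc
  have hB0 : aeval ![x, y] (GG m d) = 0 := (gg_iff h0 m d).2 hmd
  obtain ⟨Q, hQ, hQ0⟩ := exists_irr_zero (gg_ne_zero hl0 hc) hA0
  have hff : ∀ i, ¬ Q ∣ ff k i := by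
    rintro i ⟨A, hA⟩
    have h1 := congrArg (aeval ![x, y]) hA
    rw [aeval_ff, map_mul, hQ0, zero_mul] at h1
    exact h0 i h1
  have hjac : ∀ (l m : Fin 5 → ℤ), mon (pt x y) l ∈ (algebraMap k F).range →
      mon (pt x y) m ∈ (algebraMap k F).range →
      Q ∣ JJ l m (X 0 : MvPolynomial (Fin 2) k) (X 1) := by
    rintro l m ⟨c, hc⟩ ⟨d, hd⟩
    exact jac hQ hff (dvd_of_zero hxy hQ hQ0 ((gg_iff h0 l c).2 hc.symm))
      (dvd_of_zero hxy hQ hQ0 ((gg_iff h0 m d).2 hd.symm))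
  have hlr : mon (pt x y) l ∈ (algebraMap k F).range := ⟨c, hlc.symm⟩
  have hmr : mon (pt x y) m ∈ (algebraMap k F).range := ⟨d, hmd.symm⟩
  by_cases hJ : JJ l m (X 0 : MvPolynomial (Fin 2) k) (X 1) = 0
  · obtain ⟨j, hj⟩ := pencil hind hJ x y h0 hl hm
    have hj1 : aeval ![x, y] (GG ((6 : ℤ) • za j) (1 : k)) = 0 :=
      (gg_iff h0 _ 1).2 (by rw [hj, map_one])
    obtain ⟨Q', hQ', h2, h3⟩ := hlist Q _ hQ hQ0 (gg_ne_zero (za_ne_zero j) one_ne_zero)
      (dvd_of_zero hxy hQ hQ0 hj1)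
    exact ⟨Q', Finset.mem_union_left _ (Finset.mem_biUnion.2 ⟨j, Finset.mem_univ j, hQ'⟩), h2, h3⟩
  -- the degree of the curve is at most three
  obtain ⟨B, hB⟩ := hjac l m hlr hmr
  have hdeg : totalDegree Q ≤ 3 := by
    have hB0 : B ≠ 0 := by
      rintro rfl
      rw [mul_zero] at hB
      exact hJ hB
    have h1 := totalDegree_JJ_le (k := k) l m
    rw [hB, totalDegree_mul_of_isDomain hQ.ne_zero hB0] at h1
    omega
  -- the function field
  set E := IntermediateField.adjoin k (Set.range ![x, y]) with hE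
  set x0 : E := ⟨x, IntermediateField.subset_adjoin _ _ ⟨0, rfl⟩⟩ with hx0
  set y0 : E := ⟨y, IntermediateField.subset_adjoin _ _ ⟨1, rfl⟩⟩ with hy0
  have hval : ∀ i, algebraMap E F (pt x0 y0 i) = pt x y i := by
    intro i
    fin_cases i <;> rfl
  have htop : IntermediateField.adjoin k (Set.range ![x0, y0]) = ⊤ := by
    apply IntermediateField.map_injective E.val
    rw [IntermediateField.adjoin_map, ← AlgHom.fieldRange_eq_map, IntermediateField.fieldRange_val]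
    have h1 : E.val '' Set.range ![x0, y0] = Set.range ![x, y] := by
      ext z
      simp [Set.mem_image, hx0, hy0, eq_comm]
    rw [h1]
  have hQE : aeval ![x0, y0] Q = 0 := by
    apply (algebraMap E F).injective
    rw [map_zero]
    have h1 : algebraMap E F (aeval ![x0, y0] Q) = aeval ![x, y] Q := by
      have h2 : (aeval ![x, y] : MvPolynomial (Fin 2) k →ₐ[k] F) =
          (IsScalarTower.toAlgHom k E F).comp (aeval ![x0, y0]) := by
        apply algHom_ext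
        intro i
        fin_cases i
        · simp [hx0]
        · simp [hy0]
      rw [h2]
      rfl
    rw [h1, hQ0]
  have h00 : ∀ i, pt x0 y0 i ≠ 0 := by
    intro i h
    apply h0 i
    rw [← hval, h, map_zero]
  obtain ⟨R, hR1, hR2⟩ := const_lattice (pt x0 y0) h00 3
    (fun i => deg_pt x0 y0 htop hQ.ne_zero hdeg hQE i)
  have hR3 : ∀ lam : Fin 5 → ℤ, mon (pt x y) lam ∈ (algebraMap k F).range ↔
      ∀ r ∈ R, ∑ i, lam i * r i = 0 := by
    intro lam
    rw [← hR2]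
    have h1 : algebraMap E F (∏ i, pt x0 y0 i ^ lam i) = mon (pt x y) lam := by
      rw [map_prod, mon]
      simp only [map_zpow₀, hval]
    rw [← h1]
    constructor
    · rintro ⟨c, hc⟩
      refine ⟨c, (algebraMap E F).injective ?_⟩
      rw [← hc]
      rfl
    · rintro ⟨c, hc⟩
      refine ⟨c, ?_⟩
      rw [← hc]
      rfl
  obtain ⟨Q', hQ', h2, h3⟩ := hlist Q _ hQ hQ0 (hJ0 R) (hJ2 R Q
    (fun l m hl hm => hjac l m ((hR3 l).2 hl) ((hR3 m).2 hm))
    ⟨l, m, (hR3 l).1 hlr, (hR3 m).1 hmr, hJ⟩)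
  refine ⟨Q', Finset.mem_union_right _ (Finset.mem_biUnion.2 ⟨R, ?_, hQ'⟩), h2, h3⟩
  rw [Set.Finite.mem_toFinset]
  intro r hr i
  exact_mod_cast hR1 r hr i

end Pool.Agent.M05Full
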