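import Pool.Agent.MinHt.M05Cov

set_option autoImplicit false

/-! Definitions for the theorem that the conjecture on intersections with tori holds for the surface
`{(x, 1 - x, y, 1 - y, x - y)}` in the torus of dimension five. -/

namespace Pool.Agent.M05Full

open MvPolynomial Pool.Agent.CITLines NumberField Height Real Module

/-- The point of the surface with parameters `x`, `y`. -/
def pt {A : Type} [CommRing A] (x y : A) : Fin 5 → A := ![x, 1 - x, y, 1 - y, x - y]

/-- The five coordinate functions as polynomials. -/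
noncomputable def ff (k : Type) [Field k] : Fin 5 → MvPolynomial (Fin 2) k := pt (X 0) (X 1)

/-- The numerator of `f ^ lam - c`. -/
noncomputable def GG {k : Type} [Field k] (lam : Fin 5 → ℤ) (c : k) : MvPolynomial (Fin 2) k :=
  ∏ i, ff k i ^ (lam i).toNat - C c * ∏ i, ff k i ^ (-lam i).toNat

/-- The Jacobian of two monomials in the five coordinate functions. -/
def JJ {A : Type} [CommRing A] (l m : Fin 5 → ℤ) (x y : A) : A :=
  ((l 0 * m 2 - l 2 * m 0 : ℤ) : A) * ((1 - x) * (1 - y) * (x - y))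
  - ((l 0 * m 3 - l 3 * m 0 : ℤ) : A) * ((1 - x) * y * (x - y))
  - ((l 0 * m 4 - l 4 * m 0 : ℤ) : A) * ((1 - x) * y * (1 - y))
  - ((l 1 * m 2 - l 2 * m 1 : ℤ) : A) * (x * (1 - y) * (x - y))
  + ((l 1 * m 3 - l 3 * m 1 : ℤ) : A) * (x * y * (x - y))
  + ((l 1 * m 4 - l 4 * m 1 : ℤ) : A) * (x * y * (1 - y))
  - ((l 2 * m 4 - l 4 * m 2 : ℤ) : A) * (x * (1 - x) * (1 - y))
  + ((l 3 * m 4 - l 4 * m 3 : ℤ) : A) * (x * (1 - x) * y)

/-- Two independent integer vectors. -/
def Ind2 (l m : Fin 5 → ℤ) : Prop := ∀ s t : ℤ, s • l + t • m = 0 → s = 0 ∧ t = 0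

/-- The two-dimensional Lehmer problem with a loss of `ε`, relative to the roots of unity. -/
def Leh2 : Prop := ∀ ε : ℝ, 0 < ε → ∃ c : ℝ, 0 < c ∧ ∀ (K : Type) [Field K] [NumberField K]
  (a b : K), a ≠ 0 → b ≠ 0 → (∀ m n : ℤ, a ^ m * b ^ n = 1 → m = 0 ∧ n = 0) →
  c * NumberField.Units.torsionOrder K * (finrank ℚ K : ℝ) ^ (1 - ε) ≤
    logHeight₁ a * logHeight₁ b

/-- The curves of the surface in torsion cosets of codimension two satisfy one of the relations of
`E`, and so do the points over extensions of `k` not defined over `k`. -/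
def CL (k : Type) [Field k] (E : Finset (Fin 5 → ℤ)) : Prop :=
  ∀ (F : Type) [Field F] [Algebra k F] (x y : F), (∀ i, pt x y i ≠ 0) →
    ¬ (x ∈ (algebraMap k F).range ∧ y ∈ (algebraMap k F).range) →
    ∀ l m : Fin 5 → ℤ, Ind2 l m → RU (mon (pt x y) l) → RU (mon (pt x y) m) →
    ∃ a ∈ E, mon (pt x y) a = 1

end Pool.Agent.M05Full
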