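import Pool.Agent.M05Full.Final

set_option autoImplicit false

/-! The surface has only finitely many maximal atypical subvarieties. -/

namespace Pool.Agent.M05Full

open MvPolynomial Pool.Agent.CITLines NumberField Height Real Module Pool.Agent.MinHt
  Pool.Agent.CITTrans

/-- An irreducible curve with two independent relations. -/
def Good (Q : MvPolynomial (Fin 2) ℂ) : Prop :=
  Irreducible Q ∧ (∀ i, ¬ Q ∣ ff ℂ i) ∧ ∃ l m : Fin 5 → ℤ, Ind2 l m ∧
    ∃ c d : ℂ, RU c ∧ RU d ∧ Q ∣ GG l c ∧ Q ∣ GG m d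

/-- Roots of unity of an extension come from an algebraically closed field. -/
private theorem ru_const {k F : Type} [Field k] [IsAlgClosed k] [Field F] [Algebra k F] {z : F}
    (hz : RU z) : ∃ c : k, RU c ∧ z = algebraMap k F c := by
  obtain ⟨c, hc, h⟩ := ru_range (k := k) hz
  obtain ⟨n, hn, h1⟩ := hz
  refine ⟨c, ⟨n, hn, ?_⟩, h⟩
  apply (algebraMap k F).injective
  rw [map_pow, ← h, h1, map_one]

/-- The list of the good curves. -/
theorem good_list : ∃ S : Finset (MvPolynomial (Fin 2) ℂ), (∀ Q ∈ S, Good Q) ∧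
    ∀ (F : Type) [Field F] [Algebra ℂ F] (x y : F),
      (∀ i, pt x y i ≠ 0) → ¬ (x ∈ (algebraMap ℂ F).range ∧ y ∈ (algebraMap ℂ F).range) →
      ∀ l m : Fin 5 → ℤ, Ind2 l m → RU (mon (pt x y) l) → RU (mon (pt x y) m) →
      ∃ Q ∈ S, aeval ![x, y] Q = 0 := by
  classical
  obtain ⟨S, hS⟩ := curve_list ℂ
  refine ⟨S.filter Good, fun Q hQ => (Finset.mem_filter.1 hQ).2, ?_⟩
  intro F _ _ x y h0 hxy l m hind hl hm
  obtain ⟨Q, hQS, hQ, hQ0⟩ := hS F x y h0 hxy l m hind hl hm
  obtain ⟨c, hc, hlc⟩ := ru_const (k := ℂ) hl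
  obtain ⟨d, hd, hmd⟩ := ru_const (k := ℂ) hm
  refine ⟨Q, Finset.mem_filter.2 ⟨hQS, hQ, ?_, l, m, hind, c, d, hc, hd,
    dvd_of_zero hxy hQ hQ0 ((gg_iff h0 l c).2 hlc),
    dvd_of_zero hxy hQ hQ0 ((gg_iff h0 m d).2 hmd)⟩, hQ0⟩
  rintro i ⟨A, hA⟩
  have h1 := congrArg (aeval ![x, y]) hA
  rw [aeval_ff, map_mul, hQ0, zero_mul] at h1
  exact h0 i h1

/-- The generic point of a curve is not constant. -/
private theorem generic_not_const {Q : MvPolynomial (Fin 2) ℂ} (hQ : Irreducible Q) {F : Type}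
    [Field F] [Algebra ℂ F] {u v : F} (huv : ∀ A, aeval ![u, v] A = 0 ↔ Q ∣ A) :
    ¬ (u ∈ (algebraMap ℂ F).range ∧ v ∈ (algebraMap ℂ F).range) := by
  rintro ⟨⟨a, ha⟩, b, hb⟩
  have h1 : Q ∣ X 0 - C a := by
    rw [← huv]
    simp [ha]
  have h2 : Q ∣ X 1 - C b := by
    rw [← huv]
    simp [hb]
  have hn1 : (X 0 - C a : MvPolynomial (Fin 2) ℂ) ≠ 0 := by
    intro h
    have := congrArg (eval (![a + 1, 0] : Fin 2 → ℂ)) h
    simp at this
  have hn2 : (X 1 - C b : MvPolynomial (Fin 2) ℂ) ≠ 0 := by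
    intro h
    have := congrArg (eval (![0, b + 1] : Fin 2 → ℂ)) h
    simp at this
  have hd1 : degreeOf 1 Q = 0 := by
    have h3 := degreeOf_le_of_dvd h1 hn1 1
    have h4 := degreeOf_sub_le (1 : Fin 2) (X 0 : MvPolynomial (Fin 2) ℂ) (C a)
    rw [degreeOf_X, degreeOf_C] at h4
    simp at h4
    omega
  have hd0 : degreeOf 0 Q = 0 := by
    have h3 := degreeOf_le_of_dvd h2 hn2 0
    have h4 := degreeOf_sub_le (0 : Fin 2) (X 1 : MvPolynomial (Fin 2) ℂ) (C b)
    rw [degreeOf_X, degreeOf_C] at h4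
    simp at h4
    omega
  have hv : Q.vars = ∅ := by
    rw [Finset.eq_empty_iff_forall_notMem]
    intro i hi
    have h5 : degreeOf i Q = 0 := by
      fin_cases i
      · exact hd0
      · exact hd1
    exact (mem_vars_iff_degreeOf_ne_zero.mp hi) h5
  obtain ⟨c, hc⟩ : ∃ c, Q = C c := ⟨_, (vars_eq_empty_iff_eq_C).mp hv⟩
  apply hQ.not_isUnit
  rw [hc]
  have hc0 : c ≠ 0 := by
    rintro rfl
    exact hQ.ne_zero (by rw [hc, C_0])
  exact (isUnit_iff_ne_zero.mpr hc0).map C

/-- A field of rational functions on a good curve. -/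
private theorem good_generic {Q : MvPolynomial (Fin 2) ℂ} (hQ : Good Q) :
    ∃ (F : Type) (_ : Field F) (_ : Algebra ℂ F) (u v : F),
      (∀ A, aeval ![u, v] A = 0 ↔ Q ∣ A) ∧ (∀ i, pt u v i ≠ 0) ∧
      ¬ (u ∈ (algebraMap ℂ F).range ∧ v ∈ (algebraMap ℂ F).range) ∧
      ∃ l m : Fin 5 → ℤ, Ind2 l m ∧ RU (mon (pt u v) l) ∧ RU (mon (pt u v) m) := by
  obtain ⟨hirr, hff, l, m, hind, c, d, hc, hd, hl, hm⟩ := hQ
  obtain ⟨F, _, _, u, v, huv⟩ := exists_generic hirr
  have h0 : ∀ i, pt u v i ≠ 0 := by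
    intro i hi
    rw [← ff_eval (k := ℂ), huv] at hi
    exact hff i hi
  have hmap : ∀ c : ℂ, RU c → RU (algebraMap ℂ F c) := by
    rintro c ⟨n, hn, h⟩
    exact ⟨n, hn, by rw [← map_pow, h, map_one]⟩
  refine ⟨F, _, _, u, v, huv, h0, generic_not_const hirr huv, l, m, hind, ?_, ?_⟩
  · rw [(gg_iff h0 l c).1 ((huv _).2 hl)]
    exact hmap c hc
  · rw [(gg_iff h0 m d).1 ((huv _).2 hm)]
    exact hmap d hd

/-- A common divisor over a subfield gives a good curve. -/
theorem good_of_sub {k : Type} [Field k] [Algebra k ℂ] {x y : ℂ} (h0 : ∀ i, pt x y i ≠ 0)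
    {q : MvPolynomial (Fin 2) k} (hq : q ≠ 0) (hq0 : aeval ![x, y] q = 0) {l m : Fin 5 → ℤ}
    (hind : Ind2 l m) {c d : k} (hc : RU c) (hd : RU d) (hl : q ∣ GG l c) (hm : q ∣ GG m d) :
    ∃ Q, Good Q ∧ aeval ![x, y] Q = 0 := by
  have hmapGG : ∀ (a : Fin 5 → ℤ) (c : k), map (algebraMap k ℂ) (GG a c) =
      GG a (algebraMap k ℂ c) := by
    intro a c
    have hff : ∀ i, map (algebraMap k ℂ) (ff k i) = ff ℂ i := by
      intro i
      fin_cases i <;> simp [ff, pt]
    rw [GG, GG, map_sub, map_mul, map_prod, map_prod, map_C]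
    simp only [map_pow, hff]
  have hqC0 : map (algebraMap k ℂ) q ≠ 0 := by
    rw [Ne, map_eq_zero_iff _ (map_injective _ (algebraMap k ℂ).injective)]
    exact hq
  have hqC : aeval ![x, y] (map (algebraMap k ℂ) q) = 0 := by
    rw [aeval_map_algebraMap]
    exact hq0
  obtain ⟨Q, hQ, hQq, hQ0⟩ := exists_factor hqC0 hqC
  have hmap : ∀ c : k, RU c → RU (algebraMap k ℂ c) := by
    rintro c ⟨n, hn, h⟩
    exact ⟨n, hn, by rw [← map_pow, h, map_one]⟩
  refine ⟨Q, ⟨hQ, ?_, l, m, hind, algebraMap k ℂ c, algebraMap k ℂ d, hmap c hc, hmap d hd,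
    ?_, ?_⟩, hQ0⟩
  · rintro i ⟨A, hA⟩
    have h1 := congrArg (aeval ![x, y]) hA
    rw [aeval_ff, map_mul, hQ0, zero_mul] at h1
    exact h0 i h1
  · rw [← hmapGG]
    exact hQq.trans (map_dvd _ hl)
  · rw [← hmapGG]
    exact hQq.trans (map_dvd _ hm)

/-- Two exact relations at an algebraic point: a good curve or bounded degree. -/
private theorem alg_good (x y : ℂ) (h0 : ∀ i, pt x y i ≠ 0) {l m : Fin 5 → ℤ} {M N : ℕ}
    (hind : Ind2 l m) (hl : mon (pt x y) l = 1) (hm : mon (pt x y) m = 1)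
    (hlM : ∀ i, |l i| ≤ M) (hmN : ∀ i, |m i| ≤ N) :
    (∃ Q, Good Q ∧ aeval ![x, y] Q = 0) ∨
      finrank ℚ (IntermediateField.adjoin ℚ {x, y}) ≤ 200 * M * N := by
  have hl0 : l ≠ 0 := by
    rintro rfl
    have := (hind 1 0 (by simp)).1
    exact one_ne_zero this
  have hm0 : m ≠ 0 := by
    rintro rfl
    have := (hind 0 1 (by simp)).2
    exact one_ne_zero this
  have hA0 : GG l (1 : ℚ) ≠ 0 := GG_ne_zero hl0
  have hB0 : GG m (1 : ℚ) ≠ 0 := GG_ne_zero hm0
  have hA : aeval ![x, y] (GG l (1 : ℚ)) = 0 := (GG_one_iff x y h0 l).mpr hl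
  have hB : aeval ![x, y] (GG m (1 : ℚ)) = 0 := (GG_one_iff x y h0 m).mpr hm
  obtain ⟨q, hq, hqA, hq0⟩ := exists_factor hA0 hA
  by_cases hqB : q ∣ GG m (1 : ℚ)
  · left
    exact good_of_sub h0 hq.ne_zero hq0 hind RU.one RU.one hqA hqB
  · right
    have hrel : IsRelPrime q (GG m (1 : ℚ)) := hq.isRelPrime_iff_not_dvd.mpr hqB
    obtain ⟨h1, h2⟩ := bezout hq.ne_zero hB0 hrel ![x, y] hq0 hB
    have hr : Set.range ![x, y] = {x, y} := by
      simp [Matrix.range_cons, Matrix.range_empty, Set.pair_comm]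
    rw [hr] at h1 h2
    refine h2.trans ?_
    have a0 := (degreeOf_le_of_dvd hqA hA0 0).trans (degreeOf_GG 0 l M hlM)
    have a1 := (degreeOf_le_of_dvd hqA hA0 1).trans (degreeOf_GG 1 l M hlM)
    have b0 := degreeOf_GG (k := ℚ) 0 m N hmN
    have b1 := degreeOf_GG (k := ℚ) 1 m N hmN
    calc _ ≤ 3 * M * (3 * N) + 3 * M * (3 * N) :=
          Nat.add_le_add (Nat.mul_le_mul a0 b1) (Nat.mul_le_mul a1 b0)
      _ = 18 * (M * N) := by ring
      _ ≤ 200 * (M * N) := Nat.mul_le_mul_right _ (by norm_num)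
      _ = 200 * M * N := by ring

/-- Finitely many points with bounded exact relations lie on no good curve. -/
private theorem small_finite (B : ℕ) : ∃ Z : Finset (ℂ × ℂ), ∀ x y : ℂ,
    (∀ i, pt x y i ≠ 0) → ∀ l m : Fin 5 → ℤ, Ind2 l m → (∀ i, |l i| ≤ B) → (∀ i, |m i| ≤ B) →
    mon (pt x y) l = 1 → mon (pt x y) m = 1 →
    (∃ Q, Good Q ∧ aeval ![x, y] Q = 0) ∨ (x, y) ∈ Z := by
  classical
  -- finitely many common zeros of coprime polynomials
  have hfin : ∀ q A : MvPolynomial (Fin 2) ℂ, {p : ℂ × ℂ | Irreducible q ∧ ¬ q ∣ A ∧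
      aeval ![p.1, p.2] q = 0 ∧ aeval ![p.1, p.2] A = 0}.Finite := by
    intro q A
    by_cases h : Irreducible q ∧ ¬ q ∣ A
    · have hrel : IsRelPrime q A := h.1.isRelPrime_iff_not_dvd.mpr h.2
      by_contra hinf
      obtain ⟨T, hT1, hT2⟩ := (Set.not_finite.1 hinf).exists_subset_card_eq
        (degreeOf 0 q * degreeOf 1 A + degreeOf 1 q * degreeOf 0 A + 1)
      have h1 := bezout_card' hrel le_rfl le_rfl le_rfl le_rfl
        (T.image fun p : ℂ × ℂ => (![p.1, p.2] : Fin 2 → ℂ)) (by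
          intro P hP
          obtain ⟨p, hp, rfl⟩ := Finset.mem_image.1 hP
          exact (hT1 hp).2.2.1) (by
          intro P hP
          obtain ⟨p, hp, rfl⟩ := Finset.mem_image.1 hP
          exact (hT1 hp).2.2.2)
      rw [Finset.card_image_of_injective, hT2] at h1
      · omega
      · intro p p' hpp
        exact Prod.ext (congrFun hpp 0) (congrFun hpp 1)
    · refine Set.Finite.subset Set.finite_empty fun p hp => ?_
      exact absurd ⟨hp.1, hp.2.1⟩ h
  let Box : Finset (Fin 5 → ℤ) := Fintype.piFinset fun _ => Finset.Icc (-(B : ℤ)) B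
  have hBox : ∀ l : Fin 5 → ℤ, (∀ i, |l i| ≤ B) → l ∈ Box := by
    intro l hl
    rw [Fintype.mem_piFinset]
    intro i
    rw [Finset.mem_Icc]
    exact abs_le.1 (hl i)
  refine ⟨Box.biUnion fun l => Box.biUnion fun m =>
    (UniqueFactorizationMonoid.factors (GG l (1 : ℂ))).toFinset.biUnion fun q =>
      (hfin q (GG m 1)).toFinset, ?_⟩
  intro x y h0 l m hind hlB hmB hl hm
  have hl0 : l ≠ 0 := by
    rintro rfl
    have := (hind 1 0 (by simp)).1
    exact one_ne_zero this
  have hA0 : GG l (1 : ℂ) ≠ 0 := GG_ne_zero hl0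
  have hA : aeval ![x, y] (GG l (1 : ℂ)) = 0 := (GG_one_iff x y h0 l).mpr hl
  have hB : aeval ![x, y] (GG m (1 : ℂ)) = 0 := (GG_one_iff x y h0 m).mpr hm
  obtain ⟨q, hq, hqA, hq0⟩ := exists_factor hA0 hA
  by_cases hqB : q ∣ GG m (1 : ℂ)
  · left
    exact good_of_sub (k := ℂ) h0 hq.ne_zero hq0 hind RU.one RU.one hqA hqB
  · right
    obtain ⟨q', hq', hqq⟩ := UniqueFactorizationMonoid.exists_mem_factors_of_dvd hA0 hq hqA
    simp only [Finset.mem_biUnion, Set.Finite.mem_toFinset, Multiset.mem_toFinset]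
    refine ⟨l, hBox l hlB, m, hBox m hmB, q', hq', ?_, ?_, ?_, hB⟩
    · exact UniqueFactorizationMonoid.irreducible_of_factor q' hq'
    · exact fun h => hqB (hqq.dvd.trans h)
    · obtain ⟨A, hA'⟩ := hqq.dvd
      rw [hA', map_mul, hq0, zero_mul]

/-- The points of rank at most two. -/
theorem pts_fin (leh : Leh2) : ∃ Z : Finset (ℂ × ℂ), ∀ x y : ℂ, (∀ i, pt x y i ≠ 0) →
    RankTwo (pt x y) → (∃ Q, Good Q ∧ aeval ![x, y] Q = 0) ∨ (x, y) ∈ Z := by
  classical
  have hac : IsAlgClosed (algebraicClosure ℚ ℂ) :=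
    (algebraicClosure.isAlgClosure ℚ ℂ).isAlgClosed
  obtain ⟨H0, hH00, hH0⟩ := m05_main
  obtain ⟨C0, hC0, hC⟩ := two_rel leh (H := 2 * H0 + 1) (by positivity)
  obtain ⟨D0, hD0⟩ := exists_nat_ge ((8 * 10 ^ 6 * C0) ^ 2)
  obtain ⟨B, hB⟩ := exists_nat_ge (C0 * (D0 : ℝ) ^ (5 / 2 : ℝ) + 1)
  obtain ⟨Z, hZ⟩ := small_finite B
  refine ⟨Z, fun x y hp0 hrk => ?_⟩
  by_cases halg : IsAlgebraic ℚ x ∧ IsAlgebraic ℚ y
  · -- algebraic points
    set K := IntermediateField.adjoin ℚ {x, y} with hK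
    have hfin : FiniteDimensional ℚ K := by
      apply IntermediateField.finiteDimensional_adjoin
      intro z hz
      rcases hz with rfl | hz
      · exact halg.1.isIntegral
      · rw [Set.mem_singleton_iff.1 hz]
        exact halg.2.isIntegral
    have : NumberField K := ⟨⟩
    let x' : K := ⟨x, IntermediateField.subset_adjoin ℚ _ (by simp)⟩
    let y' : K := ⟨y, IntermediateField.subset_adjoin ℚ _ (by simp)⟩
    let φ : K →+* ℂ := (K.val : K →+* ℂ)
    have hφ : (fun i => φ (pt x' y' i)) = pt x y := by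
      funext i
      fin_cases i
      · rfl
      · change φ (1 - x') = 1 - x
        rw [map_sub, map_one]
        rfl
      · rfl
      · change φ (1 - y') = 1 - y
        rw [map_sub, map_one]
        rfl
      · change φ (x' - y') = x - y
        rw [map_sub]
        rfl
    have hφi : ∀ i, φ (pt x' y' i) = pt x y i := fun i => congrFun hφ i
    have hz0 : ∀ i, pt x' y' i ≠ 0 := by
      intro i hi
      apply hp0 i
      rw [← hφi, hi, map_zero]
    have hrt : RankTwo (pt x' y') := by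
      apply RankTwo.of_map φ
      rw [hφ]
      exact hrk
    have hgp : GP x' y' := by
      refine ⟨hz0 0, ?_, hz0 2, ?_, ?_, hrt⟩
      · intro h
        exact hz0 1 (by change 1 - x' = 0; rw [h, sub_self])
      · intro h
        exact hz0 3 (by change 1 - y' = 0; rw [h, sub_self])
      · intro h
        exact hz0 4 (by change x' - y' = 0; rw [h, sub_self])
    have hht : ∀ i, logHeight₁ (pt x' y' i) ≤ (2 * H0 + 1) * finrank ℚ K := by
      obtain ⟨h1, h2⟩ := hH0 K x' y' hgp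
      have hN : (0 : ℝ) ≤ finrank ℚ K := Nat.cast_nonneg _
      have hl : log 2 ≤ 1 := by linarith [Real.log_two_lt_d9]
      have hl0 : 0 ≤ log 2 := log_nonneg (by norm_num)
      have hNl : finrank ℚ K * log 2 ≤ finrank ℚ K := by nlinarith
      have hHN : 0 ≤ H0 * (finrank ℚ K : ℝ) := mul_nonneg hH00.le hN
      have h3 := Pool.Agent.CITNF.height_one_sub_le x'
      have h4 := Pool.Agent.CITNF.height_one_sub_le y'
      have h5 := Pool.Agent.CITNF.cn6_sub_le x' y'
      intro i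
      fin_cases i
      · change logHeight₁ x' ≤ _
        nlinarith
      · change logHeight₁ (1 - x') ≤ _
        nlinarith
      · change logHeight₁ y' ≤ _
        nlinarith
      · change logHeight₁ (1 - y') ≤ _
        nlinarith
      · change logHeight₁ (x' - y') ≤ _
        nlinarith
    obtain ⟨l, m, M, N, hind, hl, hm, hlM, hmN, hMN⟩ := hC K (pt x' y') hz0 hrt hht
    have hmon : ∀ a : Fin 5 → ℤ, mon (pt x' y') a = 1 → mon (pt x y) a = 1 := by
      intro a ha
      have h1 := congrArg φ ha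
      rw [mon, map_prod, map_one] at h1
      rw [mon, ← h1]
      refine Finset.prod_congr rfl fun i _ => ?_
      rw [map_zpow₀, hφi]
    rcases alg_good x y hp0 hind (hmon l hl) (hmon m hm) hlM hmN with h | hD
    · exact Or.inl h
    · -- bounded degree
      have hDpos : 0 < finrank ℚ K := finrank_pos
      obtain ⟨D, hDD⟩ : ∃ D, D = finrank ℚ K := ⟨_, rfl⟩
      rw [← hK, ← hDD] at hD
      rw [← hDD] at hDpos hMN
      have hDr : (0 : ℝ) < D := by exact_mod_cast hDpos
      have hDle : (D : ℝ) ≤ D0 := by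
        have h1 : (D : ℝ) ≤ 200 * (M * N) := by
          have : ((D : ℕ) : ℝ) ≤ ((200 * M * N : ℕ) : ℝ) := by exact_mod_cast hD
          push_cast at this
          linarith
        have h2 : (D : ℝ) ^ 3 ≤ 8 * 10 ^ 6 * C0 * (D : ℝ) ^ (5 / 2 : ℝ) := by
          calc (D : ℝ) ^ 3 ≤ (200 * (M * N)) ^ 3 := pow_le_pow_left₀ hDr.le h1 3
            _ = 8 * 10 ^ 6 * ((M : ℝ) * N) ^ 3 := by ring
            _ ≤ 8 * 10 ^ 6 * (C0 * (D : ℝ) ^ (5 / 2 : ℝ)) := by gcongr
            _ = _ := by ring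
        have h3 : (D : ℝ) ^ 3 = (D : ℝ) ^ (5 / 2 : ℝ) * (D : ℝ) ^ (1 / 2 : ℝ) := by
          rw [← Real.rpow_add hDr, ← Real.rpow_natCast]
          norm_num
        have h4 : (D : ℝ) ^ (1 / 2 : ℝ) ≤ 8 * 10 ^ 6 * C0 := by
          have h5 : 0 < (D : ℝ) ^ (5 / 2 : ℝ) := Real.rpow_pos_of_pos hDr _
          rw [h3] at h2
          have h6 : (D : ℝ) ^ (5 / 2 : ℝ) * (D : ℝ) ^ (1 / 2 : ℝ) ≤
              (D : ℝ) ^ (5 / 2 : ℝ) * (8 * 10 ^ 6 * C0) := by linarith
          exact le_of_mul_le_mul_left h6 h5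
        have h7 : (D : ℝ) ≤ (8 * 10 ^ 6 * C0) ^ 2 := by
          have h8 : (D : ℝ) = ((D : ℝ) ^ (1 / 2 : ℝ)) ^ 2 := by
            rw [← Real.rpow_natCast, ← Real.rpow_mul hDr.le]
            norm_num
          rw [h8]
          exact pow_le_pow_left₀ (Real.rpow_nonneg hDr.le _) h4 2
        exact h7.trans hD0
      have hMN2 : ((M : ℝ) * N) ^ 3 ≤ C0 * (D0 : ℝ) ^ (5 / 2 : ℝ) := by
        refine hMN.trans (mul_le_mul_of_nonneg_left ?_ hC0.le)
        exact Real.rpow_le_rpow hDr.le hDle (by norm_num)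
      -- the norms are bounded
      have hpos : ∀ (a : Fin 5 → ℤ) (A : ℕ), (∀ i, |a i| ≤ A) → a ≠ 0 → 1 ≤ A := by
        intro a A hA ha
        by_contra hcon
        apply ha
        funext i
        have h1 := hA i
        have h2 : A = 0 := by omega
        rw [h2] at h1
        exact abs_nonpos_iff.1 (by exact_mod_cast h1)
      have hM1 : 1 ≤ M := hpos l M hlM (by
        rintro rfl
        have := (hind 1 0 (by simp)).1
        exact one_ne_zero this)
      have hN1 : 1 ≤ N := hpos m N hmN (by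
        rintro rfl
        have := (hind 0 1 (by simp)).2
        exact one_ne_zero this)
      have hMNB : M * N ≤ B := by
        have h1 : (1 : ℝ) ≤ (M : ℝ) * N := by
          have : 1 ≤ M * N := Nat.mul_pos hM1 hN1
          exact_mod_cast this
        have h2 : (M : ℝ) * N ≤ ((M : ℝ) * N) ^ 3 := by
          calc (M : ℝ) * N = ((M : ℝ) * N) ^ 1 := (pow_one _).symm
            _ ≤ ((M : ℝ) * N) ^ 3 := pow_le_pow_right₀ h1 (by norm_num)
        have h3 : ((M * N : ℕ) : ℝ) ≤ B := by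
          push_cast
          linarith
        exact_mod_cast h3
      have hMB : M ≤ B := le_trans (Nat.le_mul_of_pos_right M hN1) hMNB
      have hNB : N ≤ B := le_trans (Nat.le_mul_of_pos_left N hM1) hMNB
      exact hZ x y hp0 l m hind (fun i => (hlM i).trans (by exact_mod_cast hMB))
        (fun i => (hmN i).trans (by exact_mod_cast hNB)) (hmon l hl) (hmon m hm)
  · -- transcendental points
    left
    obtain ⟨l, m, hind, hl, hm⟩ := exists_two hrk
    have hnc : ¬ (x ∈ (algebraMap (algebraicClosure ℚ ℂ) ℂ).range ∧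
        y ∈ (algebraMap (algebraicClosure ℚ ℂ) ℂ).range) := by
      rintro ⟨⟨u, hu⟩, v, hv⟩
      apply halg
      rw [← hu, ← hv]
      exact ⟨mem_algebraicClosure_iff.mp u.2, mem_algebraicClosure_iff.mp v.2⟩
    obtain ⟨c, hc, hlc⟩ := ru_const (k := algebraicClosure ℚ ℂ) hl
    obtain ⟨d, hd, hmd⟩ := ru_const (k := algebraicClosure ℚ ℂ) hm
    have hl0 : l ≠ 0 := by
      rintro rfl
      have := (hind 1 0 (by simp)).1
      exact one_ne_zero this
    have hA0 : aeval ![x, y] (GG l c) = 0 := (gg_iff hp0 l c).2 hlc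
    have hB0 : aeval ![x, y] (GG m d) = 0 := (gg_iff hp0 m d).2 hmd
    obtain ⟨q, hq, hq0⟩ := exists_irr_zero (gg_ne_zero hl0 hc.ne_zero) hA0
    exact good_of_sub hp0 hq.ne_zero hq0 hind hc hd (dvd_of_zero hnc hq hq0 hA0)
      (dvd_of_zero hnc hq hq0 hB0)

/-- Evaluation through the plane. -/
theorem aeval_through {F : Type} [Field F] [Algebra ℂ F] (x y : F)
    (f : MvPolynomial (Fin 5) ℂ) :
    aeval ![x, y] (aeval (ff ℂ) f) = aeval (pt x y) f := by
  have h : ((aeval ![x, y] : MvPolynomial (Fin 2) ℂ →ₐ[ℂ] F).comp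
      (aeval (ff ℂ) : MvPolynomial (Fin 5) ℂ →ₐ[ℂ] MvPolynomial (Fin 2) ℂ)) =
      (aeval (pt x y) : MvPolynomial (Fin 5) ℂ →ₐ[ℂ] F) := by
    apply MvPolynomial.algHom_ext
    intro i
    rw [AlgHom.comp_apply, aeval_X, aeval_X, ff_eval]
  exact DFunLike.congr_fun h f

/-- The ideal of a plane curve in the coordinate ring of the torus. -/
noncomputable def cid (Q : MvPolynomial (Fin 2) ℂ) : Ideal (MvPolynomial (Fin 5) ℂ) :=
  Ideal.comap (aeval (ff ℂ) : MvPolynomial (Fin 5) ℂ →ₐ[ℂ] MvPolynomial (Fin 2) ℂ)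
    (Ideal.span {Q})

theorem mem_cid {Q : MvPolynomial (Fin 2) ℂ} {f : MvPolynomial (Fin 5) ℂ} :
    f ∈ cid Q ↔ Q ∣ aeval (ff ℂ) f := by
  rw [cid, Ideal.mem_comap, Ideal.mem_span_singleton]

theorem cid_eq {Q : MvPolynomial (Fin 2) ℂ} {F : Type} [Field F] [Algebra ℂ F] {u v : F}
    (huv : ∀ A, aeval ![u, v] A = 0 ↔ Q ∣ A) : cid Q = kr ℂ (pt u v) := by
  ext f
  rw [mem_cid, mem_kr, ← aeval_through, huv]

theorem cid_le {Q : MvPolynomial (Fin 2) ℂ} {F : Type} [Field F] [Algebra ℂ F] {x y : F}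
    (h : aeval ![x, y] Q = 0) : cid Q ≤ kr ℂ (pt x y) := by
  intro f hf
  rw [mem_cid] at hf
  obtain ⟨A, hA⟩ := hf
  rw [mem_kr, ← aeval_through, hA, map_mul, h, zero_mul]

theorem vanI_le {F : Type} [Field F] [Algebra ℂ F] (x y : F) :
    vanI m05 ≤ kr ℂ (pt x y) := by
  intro f hf
  rw [fin_vanI, RingHom.mem_ker] at hf
  have hf' : aeval (ff ℂ) f = 0 := hf
  rw [mem_kr, ← aeval_through, hf', map_zero]

private theorem vanI_prime : (vanI m05).IsPrime := isVariety_m05.2

theorem dm_m05 : dm (vanI m05) = 2 := by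
  have := vanI_prime
  have h1 : 2 ≤ dm (vanI m05) := by
    have h2 := m05_dim
    rw [ringKrullDim_eq_dm] at h2
    exact_mod_cast h2
  have h2 : dm (vanI m05) ≤ 2 := by
    let R := MvPolynomial (Fin 2) ℂ
    let F := FractionRing R
    let x : F := algebraMap R F (X 0)
    let y : F := algebraMap R F (X 1)
    have h3 : (aeval ![x, y] : R →ₐ[ℂ] F) = IsScalarTower.toAlgHom ℂ R F := by
      apply MvPolynomial.algHom_ext
      intro i
      fin_cases i
      · rw [aeval_X]
        rfl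
      · rw [aeval_X]
        rfl
    have h4 : vanI m05 = kr ℂ (pt x y) := by
      refine le_antisymm (vanI_le x y) ?_
      intro f hf
      rw [mem_kr, ← aeval_through, h3] at hf
      rw [fin_vanI, RingHom.mem_ker]
      exact (IsFractionRing.injective R F) (by rw [map_zero]; exact hf)
    have h5 := fin_dm_le x y
    have h6 := dm_le_card (kr ℂ ![x, y])
    rw [Fintype.card_fin] at h6
    have h7 : dm (vanI m05) = dm (kr ℂ (pt x y)) := by
      congr 1
    omega
  omega

/-- Two independent vectors give rank at least two. -/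
private theorem two_le {M : Submodule ℤ (Fin 5 → ℤ)} {l m : Fin 5 → ℤ} (hind : Ind2 l m)
    (hl : l ∈ M) (hm : m ∈ M) : 2 ≤ finrank ℚ (QS M) := by
  let v : QS M := ⟨cst l, cst_mem_QS hl⟩
  let w : QS M := ⟨cst m, cst_mem_QS hm⟩
  have h : LinearIndependent ℚ ![v, w] := by
    rw [LinearIndependent.pair_iff]
    intro s t hst
    have h1 : ∀ i, s * (l i : ℚ) + t * (m i : ℚ) = 0 := by
      intro i
      exact congrFun (congrArg Subtype.val hst) i
    have h2 : ∀ i, (s.num * t.den) * l i + (t.num * s.den) * m i = 0 := by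
      intro i
      have h3 := h1 i
      have hs := Rat.num_div_den s
      have ht := Rat.num_div_den t
      have hsd : (s.den : ℚ) ≠ 0 := by exact_mod_cast s.den_nz
      have htd : (t.den : ℚ) ≠ 0 := by exact_mod_cast t.den_nz
      rw [← hs, ← ht] at h3
      have h4 : ((s.num : ℚ) * t.den) * l i + ((t.num : ℚ) * s.den) * m i = 0 := by
        field_simp at h3
        linear_combination h3
      exact_mod_cast h4
    obtain ⟨h3, h4⟩ := hind (s.num * t.den) (t.num * s.den) (by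
      funext i
      simp only [Pi.add_apply, Pi.smul_apply, smul_eq_mul, Pi.zero_apply]
      exact h2 i)
    have hsd : (s.den : ℤ) ≠ 0 := by exact_mod_cast s.den_nz
    have htd : (t.den : ℤ) ≠ 0 := by exact_mod_cast t.den_nz
    exact ⟨Rat.num_eq_zero.1 ((mul_eq_zero.1 h3).resolve_right htd),
      Rat.num_eq_zero.1 ((mul_eq_zero.1 h4).resolve_right hsd)⟩
  have h1 := h.fintype_card_le_finrank
  rwa [Fintype.card_fin] at h1

theorem cid_props {Q : MvPolynomial (Fin 2) ℂ} (hQ : Good Q) :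
    TP (cid Q) ∧ vanI m05 ≤ cid Q ∧ dm (vanI m05) < dm (cid Q) + rhoP (cid Q) := by
  obtain ⟨F, _, _, u, v, huv, h0, hnc, l, m, hind, hl, hm⟩ := good_generic hQ
  rw [cid_eq huv]
  refine ⟨TP.kr h0, vanI_le u v, ?_⟩
  rw [dm_m05, rhoP_kr h0]
  have h1 : 2 ≤ rho (pt u v) := two_le hind hl hm
  have h2 : 1 ≤ dm (kr ℂ (pt u v)) := by
    have h3 : ∃ i, Transcendental ℂ (pt u v i) := by
      by_contra hcon
      push Not at hcon
      apply hnc
      have key : ∀ i, pt u v i ∈ (algebraMap ℂ F).range := by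
        intro i
        have halg : IsAlgebraic ℂ (pt u v i) := by
          by_contra h
          exact hcon i h
        exact minpoly.mem_range_of_degree_eq_one ℂ _
          (IsAlgClosed.degree_eq_one_of_irreducible ℂ (minpoly.irreducible halg.isIntegral))
      exact ⟨key 0, key 2⟩
    obtain ⟨i, hi⟩ := h3
    have hind : AlgebraicIndependent ℂ (fun _ : Unit => pt u v i) :=
      (algebraicIndependent_unique_type_iff).2 hi
    have h4 := rk_range_of_indep (k := ℂ) (fun _ : Unit => pt u v i) hind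
    have h5 : rk ℂ (Set.range (fun _ : Unit => pt u v i)) ≤ rk ℂ (Set.range (pt u v)) := by
      apply rk_mono
      rintro _ ⟨_, rfl⟩
      exact ⟨i, rfl⟩
    rw [h4, ← dm_kr] at h5
    simpa using h5
  omega

/-- The surface has finitely many maximal atypical subvarieties (in terms of ideals). -/
theorem finA (leh : Leh2) : FinA (vanI m05) := by
  classical
  obtain ⟨S, hS1, hS2⟩ := good_list
  obtain ⟨Z, hZ⟩ := pts_fin leh
  let Z' := Z.filter fun p => (∀ i, pt p.1 p.2 i ≠ 0) ∧ 3 ≤ rho (pt p.1 p.2)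
  refine ⟨S.image cid ∪ Z'.image fun p => kr ℂ (pt p.1 p.2), ?_, ?_⟩
  · intro y hy
    rcases Finset.mem_union.1 hy with hy | hy
    · obtain ⟨Q, hQ, rfl⟩ := Finset.mem_image.1 hy
      exact cid_props (hS1 Q hQ)
    · obtain ⟨p, hp, rfl⟩ := Finset.mem_image.1 hy
      obtain ⟨_, h0, h3⟩ := Finset.mem_filter.1 hp
      refine ⟨TP.kr h0, vanI_le _ _, ?_⟩
      rw [dm_m05, rhoP_kr h0]
      omega
  · intro q hq hVq hdim
    have hqp := hq.prime
    set w := gen q with hw
    have hw0 : ∀ i, w i ≠ 0 := hq.gen_ne_zero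
    have hkr : kr ℂ w = q := kr_gen q
    have hgen : ∀ f : MvPolynomial (Fin 5) ℂ, (∀ y ∈ m05, MvPolynomial.eval y f = 0) →
        MvPolynomial.aeval w f = 0 := by
      intro f hf
      have h1 : f ∈ kr ℂ w := by
        rw [hkr]
        exact hVq (mem_vanI.mpr hf)
      exact mem_kr.mp h1
    have hwpt : w = pt (w 0) (w 2) := by
      funext i
      fin_cases i
      · rfl
      · have h := hgen (X 1 + X 0 - 1) (fun y hy => by
          obtain ⟨_, h1, _, _⟩ := hy
          simp [h1])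
        simp only [map_sub, map_add, map_one, MvPolynomial.aeval_X] at h
        change w 1 = 1 - w 0
        linear_combination h
      · rfl
      · have h := hgen (X 3 + X 2 - 1) (fun y hy => by
          obtain ⟨_, _, h1, _⟩ := hy
          simp [h1])
        simp only [map_sub, map_add, map_one, MvPolynomial.aeval_X] at h
        change w 3 = 1 - w 2
        linear_combination h
      · have h := hgen (X 4 - X 0 + X 2) (fun y hy => by
          obtain ⟨_, _, _, h1⟩ := hy
          simp [h1])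
        simp only [map_sub, map_add, MvPolynomial.aeval_X] at h
        change w 4 = w 0 - w 2
        linear_combination h
    have hpt0 : ∀ i, pt (w 0) (w 2) i ≠ 0 := by
      rw [← hwpt]
      exact hw0
    have hkr2 : kr ℂ (pt (w 0) (w 2)) = q := by
      rw [← hwpt]
      exact hkr
    rw [dm_m05] at hdim
    by_cases hconst : w 0 ∈ (algebraMap ℂ (Kf q)).range ∧ w 2 ∈ (algebraMap ℂ (Kf q)).range
    · obtain ⟨⟨c0, hc0⟩, c2, hc2⟩ := hconst
      have hmap : ∀ i, algebraMap ℂ (Kf q) (pt c0 c2 i) = pt (w 0) (w 2) i := by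
        intro i
        rw [← hc0, ← hc2]
        fin_cases i
        · rfl
        · change algebraMap ℂ (Kf q) (1 - c0) = 1 - algebraMap ℂ (Kf q) c0
          rw [map_sub, map_one]
        · rfl
        · change algebraMap ℂ (Kf q) (1 - c2) = 1 - algebraMap ℂ (Kf q) c2
          rw [map_sub, map_one]
        · change algebraMap ℂ (Kf q) (c0 - c2) = algebraMap ℂ (Kf q) c0 - algebraMap ℂ (Kf q) c2
          rw [map_sub]
      have hp0 : ∀ i, pt c0 c2 i ≠ 0 := by
        intro i hi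
        apply hpt0 i
        rw [← hmap, hi, map_zero]
      have hq2 : q = kr ℂ (pt c0 c2) := by
        rw [← hkr2]
        ext f
        rw [mem_kr, mem_kr]
        have h1 : aeval (pt (w 0) (w 2)) f = algebraMap ℂ (Kf q) (aeval (pt c0 c2) f) := by
          have h2 : (aeval (pt (w 0) (w 2)) : MvPolynomial (Fin 5) ℂ →ₐ[ℂ] Kf q) =
              (Algebra.ofId ℂ (Kf q)).comp (aeval (pt c0 c2)) := by
            apply MvPolynomial.algHom_ext
            intro i
            rw [aeval_X, AlgHom.comp_apply, aeval_X, ← hmap]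
            rfl
          rw [h2]
          rfl
        rw [h1]
        exact map_eq_zero_iff _ (algebraMap ℂ (Kf q)).injective
      have hdm0 : dm q = 0 := by
        have h1 := fin_dm_const hc0 hc2
        have h2 : dm q = dm (kr ℂ (pt (w 0) (w 2))) := by
          congr 1
          exact hkr2.symm
        rw [h2, h1]
      have hrho : rhoP q = rho (pt c0 c2) := by
        rw [hq2]
        exact rhoP_kr hp0
      have h3 : 3 ≤ rho (pt c0 c2) := by omega
      have hrk : RankTwo (pt c0 c2) := by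
        refine ⟨QS (relZ (pt c0 c2)), ?_, ?_⟩
        · change 3 ≤ finrank ℚ (QS (relZ (pt c0 c2))) at h3
          omega
        · intro a ha
          exact cst_mem_QS_relZ.1 ha
      rcases hZ c0 c2 hp0 hrk with ⟨Q, hQ, hQ0⟩ | hmem
      · obtain ⟨F, _, _, u, v, huv, h0, hnc, l, m, hind, hl, hm⟩ := good_generic hQ
        obtain ⟨Q', hQ', h1⟩ := hS2 F u v h0 hnc l m hind hl hm
        refine ⟨cid Q', Finset.mem_union_left _ (Finset.mem_image_of_mem _ hQ'), ?_⟩
        obtain ⟨A, hA⟩ := (huv Q').1 h1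
        rw [hq2]
        apply cid_le
        rw [hA, map_mul, hQ0, zero_mul]
      · refine ⟨kr ℂ (pt c0 c2), Finset.mem_union_right _ (Finset.mem_image.2
          ⟨(c0, c2), Finset.mem_filter.2 ⟨hmem, hp0, h3⟩, rfl⟩), hq2.ge⟩
    · have hrho : rhoP q = finrank ℚ (QS (relZ w)) := by
        have h1 := hq.QP_eq
        unfold rhoP
        rw [h1]
      have hdm2 : dm q = dm (kr ℂ (pt (w 0) (w 2))) := by
        congr 1
        exact hkr2.symm
      have hdm1 : dm q ≤ 1 := by
        by_contra hcon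
        have h3 := fin_dm_le (w 0) (w 2)
        have h4 := dm_le_card (kr ℂ ![w 0, w 2])
        rw [Fintype.card_fin] at h4
        obtain ⟨l, hl, hl0⟩ := fin_ne (M := relZ w) (by omega)
        have hl' : RU (mon (pt (w 0) (w 2)) l) := by
          rw [← hwpt]
          exact hl
        obtain ⟨c, hc, hlc⟩ := ru_const (k := ℂ) hl'
        have h5 := fin_dm_rel hpt0 hl0 hc.ne_zero hlc
        omega
      obtain ⟨l, hl, m, hm, hind⟩ := fin_ind2 (M := relZ w) (by omega)
      have hl' : RU (mon (pt (w 0) (w 2)) l) := by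
        rw [← hwpt]
        exact hl
      have hm' : RU (mon (pt (w 0) (w 2)) m) := by
        rw [← hwpt]
        exact hm
      obtain ⟨Q', hQ', h1⟩ := hS2 (Kf q) (w 0) (w 2) hpt0 hconst l m hind hl' hm'
      refine ⟨cid Q', Finset.mem_union_left _ (Finset.mem_image_of_mem _ hQ'), ?_⟩
      rw [← hkr2]
      exact cid_le h1

/-- The surface has only finitely many maximal atypical subvarieties. -/
theorem finite_max (leh : Leh2) : {X | IsMaxAtypical m05 X}.Finite :=
  (finite_iff isVariety_m05.cl isVariety_m05.2).2 (finA leh)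

end Pool.Agent.M05Full
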