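import Pool.Agent.M05Full.AlgPt
import Pool.Agent.M05Full.Curve

set_option autoImplicit false

/-! The conjecture on intersections with tori for the surface. -/

namespace Pool.Agent.M05Full

open MvPolynomial Pool.Agent.CITLines Pool.Agent.CITTrans Pool.Agent.MinHt Pool.Agent.CITNF

/-- Evaluation of a polynomial at a point of the surface. -/
theorem fin_eval (f : MvPolynomial (Fin 5) ℂ) (u : Fin 2 → ℂ) :
    MvPolynomial.eval u (MvPolynomial.aeval (ff ℂ) f) =
      MvPolynomial.eval (pt (u 0) (u 1)) f := by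
  have h : ((MvPolynomial.aeval u : MvPolynomial (Fin 2) ℂ →ₐ[ℂ] ℂ).comp
      (MvPolynomial.aeval (ff ℂ) : MvPolynomial (Fin 5) ℂ →ₐ[ℂ] MvPolynomial (Fin 2) ℂ)) =
      (MvPolynomial.aeval (pt (u 0) (u 1)) : MvPolynomial (Fin 5) ℂ →ₐ[ℂ] ℂ) := by
    ext i
    fin_cases i <;> simp [ff, pt]
  exact DFunLike.congr_fun h f

theorem fin_pt {P : Fin 5 → ℂ} (hP : P ∈ m05) : pt (P 0) (P 2) = P := by
  obtain ⟨_, h1, h3, h4⟩ := hP
  funext i
  fin_cases i
  · rfl
  · exact h1.symm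
  · rfl
  · exact h3.symm
  · exact h4.symm

/-- The vanishing ideal of the surface is a kernel. -/
theorem fin_vanI : vanI m05 =
    RingHom.ker (MvPolynomial.aeval (ff ℂ) : MvPolynomial (Fin 5) ℂ →ₐ[ℂ]
      MvPolynomial (Fin 2) ℂ) := by
  ext f
  rw [mem_vanI, RingHom.mem_ker]
  constructor
  · intro hf
    have h3 : MvPolynomial.aeval (ff ℂ) f * (MvPolynomial.X 0 * (1 - MvPolynomial.X 0) *
        (MvPolynomial.X 1 * (1 - MvPolynomial.X 1)) * (MvPolynomial.X 0 - MvPolynomial.X 1)) =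
        (0 : MvPolynomial (Fin 2) ℂ) := by
      refine MvPolynomial.funext fun u => ?_
      rw [map_mul, map_zero]
      by_cases hu : u 0 ≠ 0 ∧ 1 - u 0 ≠ 0 ∧ u 1 ≠ 0 ∧ 1 - u 1 ≠ 0 ∧ u 0 - u 1 ≠ 0
      · rw [fin_eval, hf, zero_mul]
        refine ⟨fun i => ?_, rfl, rfl, rfl⟩
        fin_cases i
        · exact hu.1
        · exact hu.2.1
        · exact hu.2.2.1
        · exact hu.2.2.2.1
        · exact hu.2.2.2.2
      · simp only [map_mul, map_sub, map_one, MvPolynomial.eval_X]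
        have : u 0 * (1 - u 0) * (u 1 * (1 - u 1)) * (u 0 - u 1) = 0 := by
          by_contra hcon
          simp only [mul_eq_zero, not_or] at hcon
          exact hu ⟨hcon.1.1.1, hcon.1.1.2, hcon.1.2.1, hcon.1.2.2, hcon.2⟩
        rw [this, mul_zero]
    refine (mul_eq_zero.mp h3).resolve_right ?_
    intro h4
    have h5 := congrArg (MvPolynomial.eval (![2, 3] : Fin 2 → ℂ)) h4
    simp at h5
    norm_num at h5
  · intro hf P hP
    have h := fin_eval f ![P 0, P 2]
    rw [hf, map_zero] at h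
    have h2 : pt ((![P 0, P 2] : Fin 2 → ℂ) 0) ((![P 0, P 2] : Fin 2 → ℂ) 1) = P := fin_pt hP
    rw [h2] at h
    exact h.symm

/-- The surface is an irreducible closed subset of the torus. -/
theorem isVariety_m05 : IsVariety m05 := by
  refine ⟨⟨{X 1 + X 0 - 1, X 3 + X 2 - 1, X 4 - X 0 + X 2}, ?_⟩, ?_⟩
  · ext P
    constructor
    · rintro ⟨h0, h1, h3, h4⟩
      refine ⟨h0, ?_⟩
      rintro p (rfl | rfl | rfl)
      · simp [h1]
      · simp [h3]
      · simp [h4]
    · rintro ⟨h0, h⟩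
      have h1 := h (X 1 + X 0 - 1) (by simp)
      have h3 := h (X 3 + X 2 - 1) (by simp)
      have h4 := h (X 4 - X 0 + X 2) (by simp)
      simp only [map_sub, map_add, map_one, MvPolynomial.eval_X] at h1 h3 h4
      exact ⟨h0, by linear_combination h1, by linear_combination h3, by linear_combination h4⟩
  · change (vanI m05).IsPrime
    rw [fin_vanI]
    exact RingHom.ker_isPrime _

/-- Points where exactly one of the functions vanishes. -/
private theorem fin_zero (i : Fin 5) : ∃ u : Fin 2 → ℂ, pt (u 0) (u 1) i = 0 ∧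
    ∀ j, j ≠ i → pt (u 0) (u 1) j ≠ 0 := by
  fin_cases i
  · refine ⟨![0, 2], by simp [pt], ?_⟩
    intro j hj
    fin_cases j
    · exact absurd rfl hj
    all_goals simp [pt]
    all_goals norm_num
  · refine ⟨![1, 3], by simp [pt], ?_⟩
    intro j hj
    fin_cases j
    · simp [pt]
    · exact absurd rfl hj
    all_goals simp [pt]
    all_goals norm_num
  · refine ⟨![2, 0], by simp [pt], ?_⟩
    intro j hj
    fin_cases j
    · simp [pt]
    · simp [pt]
      norm_num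
    · exact absurd rfl hj
    all_goals simp [pt]
  · refine ⟨![3, 1], by simp [pt], ?_⟩
    intro j hj
    fin_cases j
    · simp [pt]
    · simp [pt]
      norm_num
    · simp [pt]
    · exact absurd rfl hj
    all_goals simp [pt]
    all_goals norm_num
  · refine ⟨![2, 2], by simp [pt], ?_⟩
    intro j hj
    fin_cases j
    · simp [pt]
    · simp [pt]
      norm_num
    · simp [pt]
    · simp [pt]
      norm_num
    · exact absurd rfl hj

private theorem fin_GG_eval {k : Type} [Field k] {F : Type} [Field F] [Algebra k F]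
    (l : Fin 5 → ℤ) (c : k) (u : Fin 2 → F) : MvPolynomial.aeval u (GG l c) =
      ∏ i, pt (u 0) (u 1) i ^ (l i).toNat -
        algebraMap k F c * ∏ i, pt (u 0) (u 1) i ^ (-l i).toNat := by
  have h : ∀ i, MvPolynomial.aeval u (ff k i) = pt (u 0) (u 1) i := by
    intro i
    fin_cases i <;> simp [ff, pt]
  rw [GG, map_sub, map_mul, map_prod, map_prod, MvPolynomial.aeval_C]
  simp only [map_pow, h]

private theorem fin_GG_ne {l : Fin 5 → ℤ} (hl : l ≠ 0) {c : ℂ} (hc : c ≠ 0) :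
    (GG l c : MvPolynomial (Fin 2) ℂ) ≠ 0 := by
  intro h0
  obtain ⟨i, hi⟩ := Function.ne_iff.mp hl
  obtain ⟨u, hu0, hu⟩ := fin_zero i
  have h := fin_GG_eval l c u
  rw [h0, map_zero] at h
  rcases lt_or_gt_of_ne hi with h1 | h1
  · have e2 : ∏ j, pt (u 0) (u 1) j ^ (-l j).toNat = 0 := by
      apply Finset.prod_eq_zero (Finset.mem_univ i)
      rw [hu0]
      refine zero_pow ?_
      have h1' : l i < 0 := h1
      omega
    have e1 : ∏ j, pt (u 0) (u 1) j ^ (l j).toNat ≠ 0 := by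
      rw [Finset.prod_ne_zero_iff]
      intro j _
      by_cases hj : j = i
      · subst hj
        have h1' : l j < 0 := h1
        have : (l j).toNat = 0 := by omega
        rw [this, pow_zero]
        exact one_ne_zero
      · exact pow_ne_zero _ (hu j hj)
    rw [e2, mul_zero, sub_zero] at h
    exact e1 h.symm
  · have e1 : ∏ j, pt (u 0) (u 1) j ^ (l j).toNat = 0 := by
      apply Finset.prod_eq_zero (Finset.mem_univ i)
      rw [hu0]
      refine zero_pow ?_
      have h1' : 0 < l i := h1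
      omega
    have e2 : ∏ j, pt (u 0) (u 1) j ^ (-l j).toNat ≠ 0 := by
      rw [Finset.prod_ne_zero_iff]
      intro j _
      by_cases hj : j = i
      · subst hj
        have h1' : 0 < l j := h1
        have : (-l j).toNat = 0 := by omega
        rw [this, pow_zero]
        exact one_ne_zero
      · exact pow_ne_zero _ (hu j hj)
    rw [e1, zero_sub] at h
    have h2 := neg_eq_zero.mp h.symm
    rw [Algebra.algebraMap_self_apply] at h2
    exact (mul_ne_zero hc e2) h2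

/-- Two independent vectors in a lattice of rank at least two. -/
theorem fin_ind2 {M : Submodule ℤ (Fin 5 → ℤ)} (h : 1 < Module.finrank ℚ (QS M)) :
    ∃ l ∈ M, ∃ m ∈ M, Ind2 l m := by
  have hnt : Nontrivial (QS M) := Module.nontrivial_of_finrank_pos (R := ℚ) (by omega)
  obtain ⟨v, hv⟩ := exists_ne (0 : QS M)
  obtain ⟨w, hw⟩ := exists_linearIndependent_pair_of_one_lt_finrank (R := ℚ) h hv
  rw [LinearIndependent.pair_iff] at hw
  obtain ⟨k1, hk1, l, hl, hl2⟩ := exists_mult_mem v.2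
  obtain ⟨k2, hk2, m, hm, hm2⟩ := exists_mult_mem w.2
  refine ⟨l, hl, m, hm, ?_⟩
  intro s t hst
  have h1 : ((s : ℚ) * k1) • v + ((t : ℚ) * k2) • w = 0 := by
    apply Subtype.ext
    funext i
    have h2 := congrFun hst i
    simp only [Pi.add_apply, Pi.smul_apply, smul_eq_mul, Pi.zero_apply] at h2
    have h3 : (s : ℚ) * l i + t * m i = 0 := by exact_mod_cast h2
    rw [hl2, hm2] at h3
    change (s : ℚ) * k1 * (v : Fin 5 → ℚ) i + (t : ℚ) * k2 * (w : Fin 5 → ℚ) i = 0
    linear_combination h3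
  obtain ⟨h2, h3⟩ := hw _ _ h1
  have hk1' : (k1 : ℚ) ≠ 0 := by exact_mod_cast hk1
  have hk2' : (k2 : ℚ) ≠ 0 := by exact_mod_cast hk2
  constructor
  · have := (mul_eq_zero.mp h2).resolve_right hk1'
    exact_mod_cast this
  · have := (mul_eq_zero.mp h3).resolve_right hk2'
    exact_mod_cast this

/-- A nonzero vector in a lattice of positive rank. -/
theorem fin_ne {M : Submodule ℤ (Fin 5 → ℤ)} (h : 0 < Module.finrank ℚ (QS M)) :
    ∃ l ∈ M, l ≠ 0 := by
  by_contra hcon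
  push Not at hcon
  have : QS M = ⊥ := by
    unfold QS
    rw [Submodule.span_eq_bot]
    rintro _ ⟨a, ha, rfl⟩
    rw [cst_eq_zero]
    exact hcon a ha
  rw [this, finrank_bot] at h
  exact lt_irrefl _ h

section Dim

variable {F : Type} [Field F] [Algebra ℂ F]

private theorem fin_rk (x y : F) : rk ℂ (Set.range (pt x y)) ≤ rk ℂ (Set.range ![x, y]) := by
  apply rk_le_of_algebraic
  have hx : x ∈ Algebra.adjoin ℂ (Set.range ![x, y]) := Algebra.subset_adjoin ⟨0, rfl⟩
  have hy : y ∈ Algebra.adjoin ℂ (Set.range ![x, y]) := Algebra.subset_adjoin ⟨1, rfl⟩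
  have h1 : (1 : F) ∈ Algebra.adjoin ℂ (Set.range ![x, y]) := one_mem _
  rintro _ ⟨i, rfl⟩
  have hmem : pt x y i ∈ Algebra.adjoin ℂ (Set.range ![x, y]) := by
    fin_cases i
    · exact hx
    · exact sub_mem h1 hx
    · exact hy
    · exact sub_mem h1 hy
    · exact sub_mem hx hy
  exact isAlgebraic_algebraMap (⟨_, hmem⟩ : Algebra.adjoin ℂ (Set.range ![x, y]))

/-- The transcendence degree of a point of the surface is at most two. -/
theorem fin_dm_le (x y : F) : dm (kr ℂ (pt x y)) ≤ dm (kr ℂ ![x, y]) := by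
  have h := fin_rk x y
  rw [← dm_kr, ← dm_kr] at h
  exact_mod_cast h

theorem fin_dm_rel {x y : F} (h0 : ∀ i, pt x y i ≠ 0) {l : Fin 5 → ℤ} (hl : l ≠ 0)
    {c : ℂ} (hc : c ≠ 0) (h : mon (pt x y) l = algebraMap ℂ F c) :
    dm (kr ℂ ![x, y]) ≤ 1 := by
  have h1 : (GG l c : MvPolynomial (Fin 2) ℂ) ∈ kr ℂ ![x, y] := by
    rw [mem_kr, fin_GG_eval]
    rw [mon_eq_div h0, div_eq_iff (Finset.prod_ne_zero_iff.mpr fun i _ => pow_ne_zero _ (h0 i))]
      at h
    exact sub_eq_zero.mpr h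
  have h2 : (⊥ : Ideal (MvPolynomial (Fin 2) ℂ)) < kr ℂ ![x, y] := by
    rw [bot_lt_iff_ne_bot]
    intro hbot
    rw [hbot, Ideal.mem_bot] at h1
    exact fin_GG_ne hl hc h1
  have hp : (⊥ : Ideal (MvPolynomial (Fin 2) ℂ)).IsPrime := Ideal.isPrime_bot
  have h3 := dm_strictAnti h2
  have h4 := dm_le_card (⊥ : Ideal (MvPolynomial (Fin 2) ℂ))
  rw [Fintype.card_fin] at h4
  omega

theorem fin_dm_const {x y : F} {a b : ℂ} (hx : algebraMap ℂ F a = x)
    (hy : algebraMap ℂ F b = y) : dm (kr ℂ (pt x y)) = 0 := by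
  have h1 : rk ℂ (Set.range (pt x y)) ≤ rk ℂ (∅ : Set F) := by
    refine (fin_rk x y).trans ?_
    apply rk_le_of_algebraic
    rintro _ ⟨i, rfl⟩
    fin_cases i
    · change IsAlgebraic _ x
      rw [← hx]
      exact isAlgebraic_algebraMap
        (algebraMap ℂ (Algebra.adjoin ℂ (∅ : Set F)) a)
    · change IsAlgebraic _ y
      rw [← hy]
      exact isAlgebraic_algebraMap
        (algebraMap ℂ (Algebra.adjoin ℂ (∅ : Set F)) b)
  have h2 := h1.trans (rk_le_encard _)
  rw [Set.encard_empty, ← dm_kr] at h2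
  have h3 : (dm (kr ℂ (pt x y)) : ℕ∞) = 0 := le_antisymm h2 bot_le
  exact_mod_cast h3

end Dim

theorem main (leh : Leh2) :
    ∃ (k : ℕ) (L : Fin k → Submodule ℤ (Fin 5 → ℤ)) (ζ : Fin k → Fin 5 → ℂ), IsFam L ζ ∧
      ∀ T : Set (Fin 5 → ℂ), IsTorsionCoset T → ∀ Z : Set (Fin 5 → ℂ), Z ⊆ m05 → Z ⊆ T →
        (⨅ x ∈ Z, RingHom.ker (MvPolynomial.eval x : MvPolynomial (Fin 5) ℂ →+* ℂ)).IsPrime →
        ringKrullDim (MvPolynomial (Fin 5) ℂ ⧸
            (⨅ x ∈ m05, RingHom.ker (MvPolynomial.eval x : MvPolynomial (Fin 5) ℂ →+* ℂ)))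
          + ringKrullDim (MvPolynomial (Fin 5) ℂ ⧸
            (⨅ x ∈ T, RingHom.ker (MvPolynomial.eval x : MvPolynomial (Fin 5) ℂ →+* ℂ)))
          < ringKrullDim (MvPolynomial (Fin 5) ℂ ⧸
            (⨅ x ∈ Z, RingHom.ker (MvPolynomial.eval x : MvPolynomial (Fin 5) ℂ →+* ℂ)))
            + ((5 : ℕ) : WithBot ℕ∞) →
        ∃ j, Z ⊆ {y : Fin 5 → ℂ | (∀ i, y i ≠ 0) ∧
          ∀ a ∈ L j, ∏ i, y i ^ a i = ∏ i, ζ j i ^ a i} := by
  classical
  obtain ⟨Ep, hEp0, hEp⟩ := points leh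
  obtain ⟨Ec, hEc0, hEc⟩ := curve ℂ
  obtain ⟨k, L, ζ, hfam, hcov⟩ := cover_finset (Ep ∪ Ec) (by
    rw [Finset.mem_union]
    exact fun h => h.elim hEp0 hEc0)
  refine ⟨k, L, ζ, hfam, ?_⟩
  intro T hT Z hZm hZT hprime hdim
  have hZ0 : ∀ y ∈ Z, ∀ i, y i ≠ 0 := fun y hy => (hZm hy).1
  suffices hrel : ∃ a ∈ Ep ∪ Ec, ∀ y ∈ Z, ∏ i, y i ^ a i = 1 by
    obtain ⟨a, ha, hy⟩ := hrel
    by_contra hcon
    push Not at hcon
    have hb : ∀ j, ∃ b ∈ L j, binom ℂ b (mon (ζ j) b) ∉ vanI Z := by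
      intro j
      by_contra hcon2
      push Not at hcon2
      apply hcon j
      intro y hyZ
      refine ⟨hZ0 y hyZ, ?_⟩
      intro b hb
      exact (binom_mem_vanI hZ0 b _).mp (hcon2 b hb) y hyZ
    choose b hbL hbn using hb
    have hprod : ∏ j, binom ℂ (b j) (mon (ζ j) (b j)) ∈ vanI Z := by
      rw [mem_vanI]
      intro y hyZ
      obtain ⟨j, hj⟩ := hcov y (hZ0 y hyZ) ⟨a, ha, hy y hyZ⟩
      rw [map_prod]
      exact Finset.prod_eq_zero (Finset.mem_univ j)
        ((eval_binom (hZ0 y hyZ) _ _).mpr (hj _ (hbL j)))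
    obtain ⟨j, _, hj⟩ := hprime.prod_mem_iff.mp hprod
    exact hbn j hj
  have hTP : TP (vanI Z) := TP_vanI hZ0 hprime
  have hqp : (vanI Z).IsPrime := hprime
  have hT' := hT
  obtain ⟨M, η, hsat, hη, hTeq⟩ := hT'
  have hTcos : T = cos M η := hTeq
  obtain ⟨d, hd, hdd⟩ := dim_cos M η hη
  have hdim' : ringKrullDim (MvPolynomial (Fin 5) ℂ ⧸ vanI m05) +
      ringKrullDim (MvPolynomial (Fin 5) ℂ ⧸ vanI T) <
      ringKrullDim (MvPolynomial (Fin 5) ℂ ⧸ vanI Z) + ((5 : ℕ) : WithBot ℕ∞) := hdim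
  have hdT : ringKrullDim (MvPolynomial (Fin 5) ℂ ⧸ vanI T) = d := by rw [hTcos, hdd]
  rw [hdT, ringKrullDim_eq_dm (vanI Z)] at hdim'
  have hdq : d < dm (vanI Z) + 3 := by
    have h1 := lt_of_le_of_lt (add_le_add_left m05_dim (d : WithBot ℕ∞)) hdim'
    have h2 : ((2 + d : ℕ) : WithBot ℕ∞) < ((dm (vanI Z) + 5 : ℕ) : WithBot ℕ∞) := by
      push_cast
      exact h1
    have h3 : 2 + d < dm (vanI Z) + 5 := by exact_mod_cast h2
    omega
  -- the generic point
  set w := gen (vanI Z) with hw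
  have hw0 : ∀ i, w i ≠ 0 := hTP.gen_ne_zero
  have hgen : ∀ f : MvPolynomial (Fin 5) ℂ, (∀ y ∈ Z, MvPolynomial.eval y f = 0) →
      MvPolynomial.aeval w f = 0 := by
    intro f hf
    have h1 : f ∈ kr ℂ w := by
      rw [hw, kr_gen]
      exact mem_vanI.mpr hf
    exact mem_kr.mp h1
  have hwpt : w = pt (w 0) (w 2) := by
    funext i
    fin_cases i
    · rfl
    · have h := hgen (X 1 + X 0 - 1) (fun y hy => by
        obtain ⟨_, h1, _, _⟩ := hZm hy
        simp [h1])
      simp only [map_sub, map_add, map_one, MvPolynomial.aeval_X] at h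
      change w 1 = 1 - w 0
      linear_combination h
    · rfl
    · have h := hgen (X 3 + X 2 - 1) (fun y hy => by
        obtain ⟨_, _, h1, _⟩ := hZm hy
        simp [h1])
      simp only [map_sub, map_add, map_one, MvPolynomial.aeval_X] at h
      change w 3 = 1 - w 2
      linear_combination h
    · have h := hgen (X 4 - X 0 + X 2) (fun y hy => by
        obtain ⟨_, _, _, h1⟩ := hZm hy
        simp [h1])
      simp only [map_sub, map_add, MvPolynomial.aeval_X] at h
      change w 4 = w 0 - w 2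
      linear_combination h
  have hdmw : dm (vanI Z) = dm (kr ℂ (pt (w 0) (w 2))) := by
    rw [← hwpt, hw, kr_gen]
  have hpt0 : ∀ i, pt (w 0) (w 2) i ≠ 0 := by
    rw [← hwpt]
    exact hw0
  have hmonM : ∀ a ∈ M, mon (pt (w 0) (w 2)) a = algebraMap ℂ (Kf (vanI Z)) (mon η a) := by
    intro a ha
    rw [← hwpt, hw, ← hTP.binom_mem, binom_mem_vanI hZ0]
    intro y hy
    have h1 : y ∈ cos M η := by
      rw [← hTcos]
      exact hZT hy
    exact h1.2 a ha
  have hRU : ∀ a ∈ M, RU (mon (pt (w 0) (w 2)) a) := by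
    intro a ha
    obtain ⟨m, hm, h⟩ := RU_mon hη a
    exact ⟨m, hm, by rw [hmonM a ha, ← map_pow, h, map_one]⟩
  by_cases hconst : w 0 ∈ (algebraMap ℂ (Kf (vanI Z))).range ∧
      w 2 ∈ (algebraMap ℂ (Kf (vanI Z))).range
  · obtain ⟨⟨c0, hc0⟩, c2, hc2⟩ := hconst
    have hdm0 := fin_dm_const hc0 hc2
    rw [← hdmw] at hdm0
    have hd2 : d ≤ 2 := by omega
    have hy0 : ∀ y ∈ Z, y 0 = c0 := by
      have h1 : (X 0 - C c0 : MvPolynomial (Fin 5) ℂ) ∈ vanI Z := by
        rw [← kr_gen (vanI Z), mem_kr, map_sub, aeval_X, aeval_C, hc0, sub_self]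
      intro y hy
      have h2 := mem_vanI.mp h1 y hy
      rw [map_sub, eval_X, eval_C] at h2
      exact sub_eq_zero.mp h2
    have hy2 : ∀ y ∈ Z, y 2 = c2 := by
      have h1 : (X 2 - C c2 : MvPolynomial (Fin 5) ℂ) ∈ vanI Z := by
        rw [← kr_gen (vanI Z), mem_kr, map_sub, aeval_X, aeval_C, hc2, sub_self]
      intro y hy
      have h2 := mem_vanI.mp h1 y hy
      rw [map_sub, eval_X, eval_C] at h2
      exact sub_eq_zero.mp h2
    have hyP : ∀ y ∈ Z, y = pt c0 c2 := by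
      intro y hy
      rw [← hy0 y hy, ← hy2 y hy]
      exact (fin_pt (hZm hy)).symm
    have hne : Z.Nonempty := by
      rw [Set.nonempty_iff_ne_empty]
      rintro rfl
      apply hqp.ne_top
      rw [Ideal.eq_top_iff_one, mem_vanI]
      intro x hx
      exact absurd hx (Set.notMem_empty x)
    obtain ⟨P, hP⟩ := hne
    obtain ⟨a, ha, h1⟩ := hEp T hT (by rw [hdT]; exact_mod_cast hd2) P ⟨hZm hP, hZT hP⟩
    refine ⟨a, Finset.mem_union_left _ ha, ?_⟩
    intro y hy
    rw [hyP y hy, ← hyP P hP]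
    exact h1
  · have hdm1 : dm (vanI Z) ≤ 1 := by
      by_contra hcon
      have h2 : dm (vanI Z) ≤ 2 := by
        have h3 := fin_dm_le (w 0) (w 2)
        have h4 := dm_le_card (kr ℂ ![w 0, w 2])
        rw [Fintype.card_fin] at h4
        omega
      obtain ⟨l, hl, hl0⟩ := fin_ne (M := M) (by omega)
      have h3 := fin_dm_le (w 0) (w 2)
      have h4 := fin_dm_rel hpt0 hl0 (RU_mon hη l).ne_zero (hmonM l hl)
      omega
    obtain ⟨l, hl, m, hm, hind⟩ := fin_ind2 (M := M) (by omega)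
    obtain ⟨a, ha, h1⟩ := hEc (Kf (vanI Z)) (w 0) (w 2) hpt0 hconst l m hind (hRU l hl) (hRU m hm)
    refine ⟨a, Finset.mem_union_right _ ha, ?_⟩
    rw [← hwpt] at h1
    have h2 : binom ℂ a 1 ∈ vanI Z := by
      rw [hTP.binom_mem, map_one]
      exact h1
    exact (binom_mem_vanI hZ0 a 1).mp h2

end Pool.Agent.M05Full
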