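import Pool.Agent.M05Full.FinMax
import Pool.Agent.Leh2.KForm

set_option autoImplicit false

/-! The unconditional theorems for the surface. -/

namespace Pool.Agent.M05Full

open Pool.Agent.CITLines

theorem leh2 : Leh2 := Pool.Agent.Leh2.leh_two

end Pool.Agent.M05Full
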